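import Pool.Agent.FewFacets.Exit

/-!
# Selection of a good pair of scales
-/

namespace Pool.Agent.FewFacets

lemma chain_card (m : ℕ) (A : Finset (ℕ × ℕ)) (hA : A ⊆ Finset.range m ×ˢ Finset.range m)
    (h : ∀ a ∈ A, ∀ b ∈ A, a.1 < b.1 → b.2 ≤ a.2) : A.card ≤ 2 * m := by
  rw [← Finset.card_range (2 * m)]
  apply Finset.card_le_card_of_injOn (fun a => a.1 + m - a.2)
  · intro a ha
    have h1 := hA ha
    rw [Finset.mem_product, Finset.mem_range, Finset.mem_range] at h1
    simp only [Finset.coe_range, Set.mem_Iio]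
    omega
  · intro a ha b hb hab
    have h1 := hA ha
    have h2 := hA hb
    rw [Finset.mem_product, Finset.mem_range, Finset.mem_range] at h1 h2
    simp only at hab
    rcases lt_trichotomy a.1 b.1 with h3 | h3 | h3
    · have := h a ha b hb h3
      omega
    · have : a.2 = b.2 := by omega
      exact Prod.ext h3 this
    · have := h b hb a ha h3
      omega

open Classical in
lemma exists_pair {ι : Type*} (P : Finset ι) (w : ι → ℝ) (hw : ∀ i, 0 ≤ w i) (m : ℕ)
    (hm : 0 < m) (Q : ℕ → ℕ → ι → Prop)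
    (hQ : ∀ i, ∀ j l j' l', j < m → j' < m → Q j l i → Q j' l' i → j < j' → l' ≤ l) :
    ∃ j < m, ∃ l < m, ∑ i ∈ P.filter (Q j l), w i ≤ 2 / m * ∑ i ∈ P, w i := by
  have hm' : (0 : ℝ) < m := by exact_mod_cast hm
  have hsum : ∑ a ∈ Finset.range m ×ˢ Finset.range m, ∑ i ∈ P.filter (Q a.1 a.2), w i ≤
      ∑ _a ∈ Finset.range m ×ˢ Finset.range m, (2 / m * ∑ i ∈ P, w i) := by
    rw [Finset.sum_const, Finset.card_product, Finset.card_range, nsmul_eq_mul]
    push_cast
    have e1 : ∑ a ∈ Finset.range m ×ˢ Finset.range m, ∑ i ∈ P.filter (Q a.1 a.2), w i =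
        ∑ i ∈ P, ∑ a ∈ Finset.range m ×ˢ Finset.range m, if Q a.1 a.2 i then w i else 0 := by
      rw [Finset.sum_comm]
      refine Finset.sum_congr rfl fun a _ => ?_
      rw [Finset.sum_filter]
    rw [e1]
    have e2 : ∀ i ∈ P, ∑ a ∈ Finset.range m ×ˢ Finset.range m, (if Q a.1 a.2 i then w i else 0) ≤
        2 * m * w i := by
      intro i _
      rw [← Finset.sum_filter, Finset.sum_const, nsmul_eq_mul]
      apply mul_le_mul_of_nonneg_right _ (hw i)
      have := chain_card m ((Finset.range m ×ˢ Finset.range m).filter fun a => Q a.1 a.2 i)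
        (Finset.filter_subset _ _) (by
          intro a ha b hb hab
          rw [Finset.mem_filter, Finset.mem_product, Finset.mem_range, Finset.mem_range] at ha hb
          exact hQ i a.1 a.2 b.1 b.2 ha.1.1 hb.1.1 ha.2 hb.2 hab)
      exact_mod_cast this
    refine (Finset.sum_le_sum e2).trans (le_of_eq ?_)
    rw [← Finset.mul_sum]
    field_simp
  obtain ⟨a, ha, hle⟩ := Finset.exists_le_of_sum_le
    ⟨(0, 0), Finset.mem_product.mpr ⟨Finset.mem_range.mpr hm, Finset.mem_range.mpr hm⟩⟩ hsum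
  rw [Finset.mem_product, Finset.mem_range, Finset.mem_range] at ha
  exact ⟨a.1, ha.1, a.2, ha.2, hle⟩

lemma kx_mono_pred {α X : Type*} {f : X → α → X} {G : Finset α} {N : ℝ} {p p' : X → Prop}
    {φ : X → ℝ} (hN : 0 < N) (hG : (G.card : ℝ) ≤ N)
    (hφ : ∀ y, 0 ≤ φ y) (hp : ∀ y, p y → p' y) (T : ℕ) (x : X) :
    kx f G N p φ T x ≤ kx f G N p' φ T x := by
  induction T generalizing x with
  | zero =>
    by_cases h : p x
    · rw [kx_zero_pos _ h, kx_zero_pos _ (hp x h)]
    · rw [kx_neg _ _ h]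
      exact kx_nonneg hN hG hφ _ _
  | succ T ih =>
    by_cases h : p x
    · rw [kx_pos _ _ h, kx_pos _ _ (hp x h)]
      exact avg_mono (f := f) (x := x) hN hG (fun g _ => ih (f x g)) (ih x)
    · rw [kx_neg _ _ h]
      exact kx_nonneg hN hG hφ _ _

end Pool.Agent.FewFacets
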