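import Pool.Agent.FewFacets.ClaimB

/-!
# The main claim: expected life is at most a constant times the inverse rate
-/

namespace Pool.Agent.FewFacets

namespace Sys

variable {α σ : Type} [DecidableEq α] {S : Sys α σ}

lemma claimA_zero : ClaimA S 1 0 := by
  intro H G N s c hk h6 hN hs hrob T B
  have hG0 : (0 : ℝ) ≤ G.card := by positivity
  have hGN : (G.card : ℝ) ≤ N := by linarith
  rw [one_mul]
  by_cases hal : S.al H c B
  swap
  · rw [acc_neg _ _ hal]; positivity
  refine acc_one (S := S) hN hGN hs hrob B hal ?_ T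
  intro g hg h
  have h1 : insert g H ⊆ S.bas (S.stp B g) :=
    Finset.insert_subset (S.mem_stp B g hg) h.1
  have h2 : g ∉ H := fun h3 => S.not_mem B g hg (hal.1 h3)
  have h3 := Finset.card_le_card h1
  rw [Finset.card_insert_of_notMem h2] at h3
  have h4 := S.card_le (S.stp B g)
  omega

/-- The state itself: one more step. -/
lemma acc_self {H G : Finset α} {N s c M : ℝ} (hN : 0 < N) (hG : (G.card : ℝ) ≤ N)
    (hs : 0 < s) (hrob : S.Rob H G s c) (B : σ) (hB : S.al H c B) (hM : 0 ≤ M)
    (h : ∀ T B', S.val B < S.val B' → acc S.stp G N (S.al H c) (fun _ => 1) T B' ≤ M) (T : ℕ) :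
    acc S.stp G N (S.al H c) (fun _ => 1) T B ≤ N / s + M := by
  have hdec := acc_decomp (f := S.stp) (G := G) (N := N) (p := S.al H c)
    (p' := S.al H (S.val B)) (q := fun _ => 1) (M := M) (fun _ => True) hN hG
    (fun y hy => ⟨hy.1, hy.2.trans hB.2⟩) (fun _ _ _ _ => trivial)
    (fun y _ h1 h2 T' => h T' y (by
      by_contra h3
      exact h1 ⟨h2.1, not_lt.mp h3⟩)) hM T B trivial
  have h1 := acc_one (S := S) (N := N) (G := G) (p := S.al H (S.val B)) hN hG hs hrob B hB (by
    intro g hg h2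
    exact absurd h2.2 (not_le.mpr (S.val_lt B g hg))) T
  linarith

/-- **Claim A from Claim B.** -/
theorem claimA_of_B {C : ℝ} {d : ℕ} [Finite σ] (hC : 0 ≤ C) (hB : ClaimB S C d) :
    ClaimA S (2 * (C + 1)) d := by
  intro H G N s c hk h6 hN hs hrob T B
  have hG0 : (0 : ℝ) ≤ G.card := by positivity
  have hGN : (G.card : ℝ) ≤ N := by linarith
  have hNs : 0 < N / s := by positivity
  by_cases hal : S.al H c B
  swap
  · rw [acc_neg _ _ hal]; positivity
  have key : ∀ j : ℕ, ∀ B, S.al H c B → (∃ Z, S.Hit H G (S.val B) Z ∧ (Z.card : ℝ) < 2 ^ j * s) →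
      ∀ T, acc S.stp G N (S.al H c) (fun _ => 1) T B ≤
        (2 - 2 / 2 ^ j) * ((C + 1) * (N / s)) := by
    intro j
    induction j with
    | zero =>
      rintro B hal ⟨Z, hZ, hZc⟩ T
      exfalso
      have := (hrob.mono_c hal.2) Z hZ
      rw [pow_zero, one_mul] at hZc
      linarith
    | succ j ih =>
      rintro B hal ⟨V, hV, hVc⟩ T
      have hp : (0 : ℝ) < 2 ^ j := by positivity
      have hstep : (2 - 2 / 2 ^ (j + 1) : ℝ) = (2 - 2 / 2 ^ j) + 1 / 2 ^ j := by
        rw [pow_succ]; field_simp; ring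
      have hnn : 0 ≤ (2 - 2 / 2 ^ j : ℝ) := by
        have : (2 : ℝ) / 2 ^ j ≤ 2 := by
          rw [div_le_iff₀ hp]
          have : (1 : ℝ) ≤ 2 ^ j := one_le_pow₀ (by norm_num)
          linarith
        linarith
      have hCN : 0 ≤ (C + 1) * (N / s) := by positivity
      by_cases hPj : ∃ Z, S.Hit H G (S.val B) Z ∧ (Z.card : ℝ) < 2 ^ j * s
      · refine (ih B hal hPj T).trans ?_
        rw [hstep]
        have : 0 ≤ 1 / 2 ^ j * ((C + 1) * (N / s)) := by positivity
        linarith
      · -- the top of the scale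
        obtain ⟨Bt, hBt, hmax⟩ := Set.exists_max_image
          {B' | S.al H c B' ∧ ¬ ∃ Z, S.Hit H G (S.val B') Z ∧ (Z.card : ℝ) < 2 ^ j * s}
          S.val (Set.toFinite _) ⟨B, hal, hPj⟩
        set c' := S.val Bt with hc'
        have hrob' : S.Rob H G (2 ^ j * s) c' := by
          intro Z hZ
          by_contra h
          exact hBt.2 ⟨Z, hZ, not_le.mp h⟩
        have hsj : 0 < 2 ^ j * s := by positivity
        have hc'c : c' ≤ c := hBt.1.2
        have hBc' : S.al H c' B := ⟨hal.1, hmax B ⟨hal, hPj⟩⟩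
        have hVc' : (V.card : ℝ) ≤ 2 * (2 ^ j * s) := by
          rw [pow_succ] at hVc; linarith
        have h1 := acc_self (S := S) hN hGN hsj hrob' B hBc'
          (M := C * (N / (2 ^ j * s))) (by positivity)
          (fun T' B' hB' => hB H V G N (2 ^ j * s) c' (S.val B) hk h6 hN hsj hrob' hV.1 hVc'
            hV.2 T' B' hB') T
        have hdec := acc_decomp (f := S.stp) (G := G) (N := N) (p := S.al H c)
          (p' := S.al H c') (q := fun _ => 1) (M := (2 - 2 / 2 ^ j) * ((C + 1) * (N / s)))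
          (fun _ => True) hN hGN
          (fun y hy => ⟨hy.1, hy.2.trans hc'c⟩) (fun _ _ _ _ => trivial)
          (fun y _ h1 h2 T' => ih y h2 (by
            by_contra h3
            exact h1 ⟨h2.1, hmax y ⟨h2, h3⟩⟩) T') (by positivity) T B trivial
        have h2 : N / (2 ^ j * s) + C * (N / (2 ^ j * s)) =
            1 / 2 ^ j * ((C + 1) * (N / s)) := by
          field_simp
          ring
        rw [hstep, add_mul]
        linarith
  obtain ⟨j, hj⟩ := pow_unbounded_of_one_lt (((S.viol B ∩ G).card : ℝ) / s)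
    (show (1 : ℝ) < 2 by norm_num)
  have h1 := key j B hal ⟨S.viol B ∩ G, hit_viol hal.1, by rwa [div_lt_iff₀ hs] at hj⟩ T
  refine h1.trans ?_
  have : (0 : ℝ) < 2 / 2 ^ j := by positivity
  have h2 : 0 ≤ 2 / 2 ^ j * ((C + 1) * (N / s)) := by positivity
  have h3 : (2 - 2 / 2 ^ j) * ((C + 1) * (N / s)) =
      2 * (C + 1) * (N / s) - 2 / 2 ^ j * ((C + 1) * (N / s)) := by ring
  linarith

lemma ClaimA.mono {C C' : ℝ} {d : ℕ} (h : ClaimA S C d) (hC : C ≤ C') : ClaimA S C' d := by
  intro H G N s c hk h6 hN hs hrob T B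
  refine (h H G N s c hk h6 hN hs hrob T B).trans ?_
  gcongr

lemma cB_nonneg {d : ℕ} {C : ℝ} (hd : 0 < d) (hC : 1 ≤ C) : 0 ≤ cB d C := by
  unfold cB
  have := cA_ge hd hC
  positivity

/-- The constants of Claim A, all at least `1` and increasing. -/
noncomputable def cF : ℕ → ℝ
  | 0 => 1
  | d + 1 => cF d + 2 * (cB (d + 1) (cF d) + 1)

lemma cF_ge (d : ℕ) : 1 ≤ cF d := by
  induction d with
  | zero => exact le_rfl
  | succ d ih =>
    rw [cF]
    have := cB_nonneg (Nat.succ_pos d) ih
    linarith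

lemma cF_succ_le (d : ℕ) : cF d ≤ cF (d + 1) := by
  have := cB_nonneg (Nat.succ_pos d) (cF_ge d)
  conv_rhs => rw [cF]
  linarith

/-- **Claim A** for all `d`. -/
theorem claimA [Finite σ] (d : ℕ) : ∀ d' ≤ d, ClaimA S (cF d) d' := by
  induction d with
  | zero =>
    intro d' hd'
    have : d' = 0 := by omega
    subst this
    exact claimA_zero
  | succ d ih =>
    intro d' hd'
    rcases Nat.lt_or_ge d d' with h | h
    · have : d' = d + 1 := by omega
      subst this
      have h1 : ClaimB S (cB (d + 1) (cF d)) (d + 1) :=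
        claimB (Nat.succ_pos d) (fun d' hd' => ih d' (by omega)) (cF_ge d)
      have h2 := claimA_of_B (cB_nonneg (Nat.succ_pos d) (cF_ge d)) h1
      refine h2.mono ?_
      conv_rhs => rw [cF]
      linarith [cF_ge d]
    · exact (ih d' h).mono (cF_succ_le d)

/-- **Claim B** for all `d`. -/
theorem claimB' [Finite σ] (d : ℕ) : ClaimB S (cB (d + 1) (cF d)) (d + 1) :=
  claimB (Nat.succ_pos d) (fun d' hd' => claimA d d' (by omega)) (cF_ge d)

end Sys

end Pool.Agent.FewFacets
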