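import Pool.Agent.FewFacets.Chain

/-!
# The life above a blocked level
-/

namespace Pool.Agent.FewFacets

namespace Sys

/-- first constant -/
noncomputable def cL (d : ℕ) (C : ℝ) : ℝ := 10 * d * C

/-- second constant -/
noncomputable def cE (d : ℕ) (C : ℝ) : ℝ := Real.exp (2 * (cL d C + 1))

/-- number of scales -/
noncomputable def cM (d : ℕ) (C : ℝ) : ℕ := ⌈40 * cE d C⌉₊

/-- the first threshold -/
noncomputable def cθ (d : ℕ) (C : ℝ) : ℝ := 1 / (2 ^ d * (20 * (cL d C + 1) * cE d C))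

/-- the thresholds -/
noncomputable def cθs (d : ℕ) (C : ℝ) (l : ℕ) : ℝ := cθ d C / (2 ^ (d + 1)) ^ l

/-- length of the hold phase -/
noncomputable def cK (d : ℕ) (C : ℝ) : ℝ := 2 * d * C / (2 ^ d * cθs d C (cM d C))

/-- exit constant -/
noncomputable def cA (d : ℕ) (C : ℝ) : ℝ :=
  (cL d C + cK d C + 2) / (2 / 5 * Real.exp (-(6 * (cK d C + 1))))

/-- The constant of Claim B. -/
noncomputable def cB (d : ℕ) (C : ℝ) : ℝ := 2 * cM d C * cA d C

section consts

variable {d : ℕ} {C : ℝ}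

lemma cL_pos (hd : 0 < d) (hC : 1 ≤ C) : 10 ≤ cL d C := by
  unfold cL
  have : (1 : ℝ) ≤ d := by exact_mod_cast hd
  nlinarith

lemma cE_pos : 0 < cE d C := Real.exp_pos _

lemma cE_ge (hd : 0 < d) (hC : 1 ≤ C) : 1 ≤ cE d C := by
  unfold cE
  have := cL_pos hd hC
  exact Real.one_le_exp (by linarith)

lemma cM_pos : 0 < cM d C := Nat.ceil_pos.mpr (by have := cE_pos (d := d) (C := C); positivity)

lemma cM_ge : 40 * cE d C ≤ cM d C := Nat.le_ceil _

lemma cθ_pos (hd : 0 < d) (hC : 1 ≤ C) : 0 < cθ d C := by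
  unfold cθ
  have := cL_pos hd hC
  have := cE_pos (d := d) (C := C)
  positivity

lemma cθs_pos (hd : 0 < d) (hC : 1 ≤ C) (l : ℕ) : 0 < cθs d C l := by
  unfold cθs
  have := cθ_pos hd hC
  positivity

lemma cθs_anti (hd : 0 < d) (hC : 1 ≤ C) {l l' : ℕ} (h : l ≤ l') : cθs d C l' ≤ cθs d C l := by
  unfold cθs
  have := cθ_pos hd hC
  apply div_le_div_of_nonneg_left this.le (by positivity)
  exact pow_le_pow_right₀ (one_le_pow₀ (by norm_num)) h

lemma cθs_succ (l : ℕ) : 2 ^ (d + 1) * cθs d C (l + 1) = cθs d C l := by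
  unfold cθs
  have h : (2 : ℝ) ^ (d + 1) ≠ 0 := by positivity
  generalize (2 : ℝ) ^ (d + 1) = M at h
  rw [pow_succ]
  field_simp

lemma cθs_le (hd : 0 < d) (hC : 1 ≤ C) (l : ℕ) : cθs d C l ≤ cθ d C := by
  have := cθs_anti hd hC (Nat.zero_le l)
  unfold cθs at this ⊢
  simpa using this

lemma cK_pos (hd : 0 < d) (hC : 1 ≤ C) : 0 < cK d C := by
  unfold cK
  have := cθs_pos hd hC (cM d C)
  have : (0 : ℝ) < d := by exact_mod_cast hd
  have : 0 < C := by linarith
  positivity

lemma cA_ge (hd : 0 < d) (hC : 1 ≤ C) : 1 ≤ cA d C := by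
  unfold cA
  have h1 := cL_pos hd hC
  have h2 := cK_pos hd hC
  have h3 : Real.exp (-(6 * (cK d C + 1))) ≤ 1 := by
    rw [Real.exp_le_one_iff]; linarith
  have h4 := Real.exp_pos (-(6 * (cK d C + 1)))
  rw [le_div_iff₀ (by positivity)]
  linarith

end consts

variable {α σ : Type} [DecidableEq α] {S : Sys α σ}

/-- Claim B: life above a level that is blocked by a small set. -/
def ClaimB (S : Sys α σ) (C : ℝ) (d : ℕ) : Prop :=
  ∀ (H V G : Finset α) (N s c c₀ : ℝ), S.k ≤ H.card + d → 6 * (G.card : ℝ) ≤ N → 0 < N → 0 < s →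
    S.Rob H G s c → V ⊆ G → (V.card : ℝ) ≤ 2 * s →
    (∀ B, S.bas B ⊆ H ∪ (G \ V) → S.val B ≤ c₀) →
    ∀ T B, c₀ < S.val B → acc S.stp G N (S.al H c) (fun _ => 1) T B ≤ C * (N / s)

open Classical in
/-- exit from a range -/
lemma range_life {C : ℝ} {d : ℕ} (hd : 0 < d) (hA : ∀ d' < d, ClaimA S C d') (hC : 1 ≤ C)
    {H V G : Finset α} {N s hi lo c₀ : ℝ} (hk : S.k ≤ H.card + d)
    (h6 : 6 * (G.card : ℝ) ≤ N) (hN : 0 < N) (hs : 0 < s) (hrob : S.Rob H G s hi) (hVG : V ⊆ G)
    (hV2 : (V.card : ℝ) ≤ 2 * s) (hV : ∀ B, S.bas B ⊆ H ∪ (G \ V) → S.val B ≤ c₀)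
    (hlo : c₀ < lo) (l : ℕ) (hl : l < cM d C)
    (hmedw : ∑ W ∈ V.powerset.filter (S.Med H V G d lo hi (cθs d C l * s)),
        ((⌈cL d C * (N / s)⌉₊ : ℝ) / N) ^ W.card ≤
      2 / cM d C * ∑ W ∈ V.powerset, ((⌈cL d C * (N / s)⌉₊ : ℝ) / N) ^ W.card)
    (T : ℕ) (B : σ) (hBlo : lo ≤ S.val B) :
    acc S.stp G N (S.al H hi) (fun _ => 1) T B ≤ cA d C * (N / s) := by
  have hC0 : 0 ≤ C := by linarith
  have hG0 : (0 : ℝ) ≤ G.card := by positivity
  have hGN : (G.card : ℝ) ≤ N := by linarith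
  have hL := cL_pos hd hC
  have hE := cE_ge hd hC
  have hK := cK_pos hd hC
  have hθ := cθs_pos hd hC l
  have hθm := cθs_pos hd hC (cM d C)
  have hθ0 := cθs_le hd hC l
  have hdpos : (0 : ℝ) < d := by exact_mod_cast hd
  have hA0 := cA_ge hd hC
  by_cases hal : S.al H hi B
  swap
  · rw [acc_neg _ _ hal]
    positivity
  have hsG : s ≤ G.card := by
    refine (rob_viol hrob hal).trans ?_
    exact_mod_cast Finset.card_le_card Finset.inter_subset_right
  set a := N / s with ha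
  have ha1 : 1 ≤ a := by
    rw [ha, le_div_iff₀ hs]; linarith
  set T₀ := ⌈cL d C * a⌉₊ with hT₀
  set T₁ := ⌈cK d C * a⌉₊ with hT₁
  have hT₀l : cL d C * a ≤ T₀ := Nat.le_ceil _
  have hT₀u : (T₀ : ℝ) ≤ (cL d C + 1) * a := by
    have := Nat.ceil_lt_add_one (a := cL d C * a) (by positivity)
    rw [← hT₀] at this
    nlinarith
  have hT₁l : cK d C * a ≤ T₁ := Nat.le_ceil _
  have hT₁u : (T₁ : ℝ) ≤ (cK d C + 1) * a := by
    have := Nat.ceil_lt_add_one (a := cK d C * a) (by positivity)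
    rw [← hT₁] at this
    nlinarith
  have hT₀p : 0 < T₀ := Nat.ceil_pos.mpr (by positivity)
  have hT₁p : 0 < T₁ := Nat.ceil_pos.mpr (by positivity)
  have haN : a * s = N := by rw [ha]; field_simp
  set x := (T₀ : ℝ) / N with hx
  have hx0 : 0 ≤ x := by positivity
  have hxs : x * s ≤ cL d C + 1 := by
    rw [hx, div_mul_eq_mul_div, div_le_iff₀ hN, ← haN]
    nlinarith
  have hpow : (1 + x) ^ V.card ≤ cE d C := by
    calc (1 + x) ^ V.card ≤ (Real.exp x) ^ V.card := by
          apply pow_le_pow_left₀ (by linarith)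
          rw [add_comm]
          exact Real.add_one_le_exp x
      _ = Real.exp (V.card * x) := by rw [← Real.exp_nat_mul]
      _ ≤ cE d C := by
          unfold cE
          rw [Real.exp_le_exp]
          nlinarith
  have h2d : (0 : ℝ) < 2 ^ d := by positivity
  have h2d1 : (1 : ℝ) ≤ 2 ^ d := one_le_pow₀ (by norm_num)
  have hθE : cθ d C * (2 ^ d * (20 * (cL d C + 1) * cE d C)) = 1 := by
    unfold cθ
    have := cE_pos (d := d) (C := C)
    field_simp
  have hθp := cθ_pos hd hC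
  set t := cθs d C l * s with ht
  have htpos : 0 < t := by positivity
  -- conditions
  have hts : 2 ^ d * t ≤ s := by
    have h1 : 2 ^ d * cθ d C ≤ 1 := by
      have h2 : 1 ≤ 20 * (cL d C + 1) * cE d C := by nlinarith
      calc 2 ^ d * cθ d C ≤ 2 ^ d * cθ d C * (20 * (cL d C + 1) * cE d C) :=
            le_mul_of_one_le_right (by positivity) h2
        _ = cθ d C * (2 ^ d * (20 * (cL d C + 1) * cE d C)) := by ring
        _ = 1 := hθE
    have h2 : 2 ^ d * cθs d C l ≤ 1 := by nlinarith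
    rw [ht, ← mul_assoc]
    nlinarith
  have hdeadw : t * x * (1 + x) ^ V.card ≤ 1 / 20 := by
    have h1 : t * x = cθs d C l * (x * s) := by rw [ht]; ring
    have h2 : t * x ≤ cθ d C * (cL d C + 1) := by
      rw [h1]
      apply mul_le_mul hθ0 hxs (by positivity) hθp.le
    calc t * x * (1 + x) ^ V.card ≤ cθ d C * (cL d C + 1) * cE d C := by
          apply mul_le_mul h2 hpow (by positivity) (by positivity)
      _ = (cθ d C * (2 ^ d * (20 * (cL d C + 1) * cE d C))) / (20 * 2 ^ d) := by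
          field_simp
      _ = 1 / (20 * 2 ^ d) := by rw [hθE]
      _ ≤ 1 / 20 := by
          apply one_div_le_one_div_of_le (by norm_num)
          linarith
  have hmedw' : ∑ W ∈ V.powerset.filter (S.Med H V G d lo hi t), x ^ W.card ≤ 1 / 20 := by
    refine hmedw.trans ?_
    rw [sum_pow_card]
    have hm : (0 : ℝ) < cM d C := by exact_mod_cast cM_pos
    have hm2 := cM_ge (d := d) (C := C)
    calc 2 / (cM d C : ℝ) * (1 + x) ^ V.card ≤ 2 / cM d C * cE d C := by gcongr
      _ ≤ 1 / 20 := by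
        rw [div_mul_eq_mul_div, div_le_iff₀ hm]
        linarith
  have hTcond : 2 * (d * (C * (N / (2 ^ d * t)))) ≤ T₁ := by
    refine le_trans ?_ hT₁l
    have h1 : N / (2 ^ d * t) = a / (2 ^ d * cθs d C l) := by
      rw [ht, ha]; field_simp
    rw [h1]
    have h2 : cK d C * a = 2 * (d * (C * (a / (2 ^ d * cθs d C (cM d C))))) := by
      unfold cK; ring
    rw [h2]
    have h3 := cθs_anti hd hC hl.le
    gcongr
  have hT0cond : 10 * d * (C * (N / s)) ≤ T₀ := by
    refine le_trans (le_of_eq ?_) hT₀l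
    unfold cL
    ring
  set δ := 2 / 5 * Real.exp (-(6 * (cK d C + 1))) with hδ
  have hδ0 : 0 < δ := by
    have := Real.exp_pos (-(6 * (cK d C + 1)))
    positivity
  have hexit : ∀ y, kx S.stp G N (fun y => S.al H hi y ∧ lo ≤ S.val y) (fun _ => 1) (T₀ + T₁) y ≤
      1 - δ := by
    intro y
    by_cases hy : lo ≤ S.val y
    · have h1 := exit hd hA hC0 hk h6 hN hs hrob hVG hV2 hV hlo htpos hts T₀ hT₀p hT0cond hmedw'
        hdeadw T₁ hT₁p hTcond y hy
      have h2 := kx_mono_pred (f := S.stp) (G := G) (N := N)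
        (p := fun y => S.al H hi y ∧ lo ≤ S.val y) (p' := S.al H hi) (φ := fun _ => 1) hN hGN
        (fun _ => zero_le_one) (fun y hy => hy.1) (T₀ + T₁) y
      refine h2.trans (h1.trans ?_)
      have h3 : 6 * s * T₁ / N ≤ 6 * (cK d C + 1) := by
        rw [div_le_iff₀ hN, ← haN]
        nlinarith
      have h4 : Real.exp (-(6 * (cK d C + 1))) ≤ Real.exp (-(6 * s * T₁ / N)) := by
        rw [Real.exp_le_exp]; linarith
      linarith
    · rw [kx_neg _ _ (fun h => hy h.2)]
      have : Real.exp (-(6 * (cK d C + 1))) ≤ 1 := by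
        rw [Real.exp_le_one_iff]; linarith
      rw [hδ]
      linarith
  have hlife := acc_le_of_kx (f := S.stp) (G := G) (N := N) hN hGN hδ0 (T₀ + T₁) (by omega) hexit
    T B
  have hdec := acc_decomp (f := S.stp) (G := G) (N := N) (p := S.al H hi)
    (p' := fun y => S.al H hi y ∧ lo ≤ S.val y) (q := fun _ => 1) (M := 0)
    (fun y => lo ≤ S.val y) hN hGN (fun y hy => hy.1)
    (fun y hy g _ => hy.trans (S.val_le y g)) (fun y hy h1 h2 => absurd ⟨h2, hy⟩ h1) le_rfl T B hBlo
  have h5 : ((T₀ + T₁ : ℕ) : ℝ) / δ ≤ cA d C * a := by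
    unfold cA
    rw [← hδ, div_mul_eq_mul_div]
    apply div_le_div_of_nonneg_right _ hδ0.le
    push_cast
    linarith
  linarith

open Classical in
/-- **Claim B.** -/
theorem claimB {C : ℝ} {d : ℕ} [Finite σ] (hd : 0 < d) (hA : ∀ d' < d, ClaimA S C d')
    (hC : 1 ≤ C) : ClaimB S (cB d C) d := by
  intro H V G N s c c₀ hk h6 hN hs hrob hVG hV2 hV T₁ B₁ hB₁
  have hG0 : (0 : ℝ) ≤ G.card := by positivity
  have hGN : (G.card : ℝ) ≤ N := by linarith
  have hA0 := cA_ge hd hC
  have hNs : 0 < N / s := by positivity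
  set m := cM d C with hm
  have hmpos : 0 < m := cM_pos
  set A := cA d C * (N / s) with hAdef
  have hApos : 0 < A := by positivity
  have hANs : N / s ≤ A := by rw [hAdef]; exact le_mul_of_one_le_left hNs.le hA0
  have one0 : ∀ y : σ, (0 : ℝ) ≤ (fun _ : σ => (1 : ℝ)) y := fun _ => zero_le_one
  by_contra hcon
  rw [not_le] at hcon
  have hcon' : (2 * m : ℝ) * A < acc S.stp G N (S.al H c) (fun _ => 1) T₁ B₁ := by
    refine lt_of_eq_of_lt ?_ hcon
    rw [hAdef]; unfold cB; ring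
  -- the sets of states with long life
  set St : ℕ → Set σ := fun i =>
    {B | c₀ < S.val B ∧ ∃ T, (i : ℝ) * A < acc S.stp G N (S.al H c) (fun _ => 1) T B} with hSt
  have hex : ∀ i : ℕ, ∃ B, i ≤ 2 * m → (B ∈ St i ∧ ∀ B' ∈ St i, S.val B' ≤ S.val B) := by
    intro i
    by_cases hi : i ≤ 2 * m
    · obtain ⟨B, hB, hmax⟩ := Set.exists_max_image (St i) S.val (Set.toFinite _)
        ⟨B₁, hB₁, T₁, by
          refine lt_of_le_of_lt ?_ hcon'
          apply mul_le_mul_of_nonneg_right _ hApos.le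
          exact_mod_cast hi⟩
      exact ⟨B, fun _ => ⟨hB, hmax⟩⟩
    · exact ⟨B₁, fun h => absurd h hi⟩
  choose Bf hBf using hex
  set v : ℕ → ℝ := fun i => S.val (Bf i) with hv
  have hal : ∀ i ≤ 2 * m, S.al H c (Bf i) := by
    intro i hi
    obtain ⟨⟨-, T, hT⟩, -⟩ := hBf i hi
    by_contra h
    rw [acc_neg _ _ h] at hT
    have : 0 ≤ (i : ℝ) * A := by positivity
    linarith
  -- long life up to the previous level
  have hfact : ∀ i, i + 1 ≤ 2 * m → ∃ T,
      A < acc S.stp G N (S.al H (v i)) (fun _ => 1) T (Bf (i + 1)) := by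
    intro i hi
    obtain ⟨⟨hc, T, hT⟩, -⟩ := hBf (i + 1) hi
    refine ⟨T, ?_⟩
    have hdec := acc_decomp (f := S.stp) (G := G) (N := N) (p := S.al H c)
      (p' := S.al H (v i)) (q := fun _ => 1) (M := (i : ℝ) * A)
      (fun y => c₀ < S.val y) hN hGN
      (fun y hy => ⟨hy.1, hy.2.trans (hal i (by omega)).2⟩)
      (fun y hy g _ => lt_of_lt_of_le hy (S.val_le y g)) (by
        intro y hy h1 h2 T'
        by_contra h3
        rw [not_le] at h3
        have h4 := (hBf i (by omega)).2 y ⟨hy, T', h3⟩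
        exact h1 ⟨h2.1, h4⟩) (by positivity) T (Bf (i + 1)) hc
    push_cast at hT
    linarith
  have hstrict : ∀ i, i + 1 ≤ 2 * m → v (i + 1) < v i := by
    intro i hi
    have hle : v (i + 1) ≤ v i := by
      apply (hBf i (by omega)).2
      obtain ⟨⟨hc, T, hT⟩, -⟩ := hBf (i + 1) hi
      refine ⟨hc, T, lt_of_le_of_lt ?_ hT⟩
      push_cast
      nlinarith
    refine lt_of_le_of_ne hle fun heq => ?_
    obtain ⟨T, hT⟩ := hfact i hi
    have h1 := acc_one (S := S) (N := N) (G := G) (p := S.al H (v i)) hN hGN hs hrob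
      (Bf (i + 1)) (hal (i + 1) hi) (by
        intro g hg h2
        have h3 := S.val_lt _ g hg
        have h4 := h2.2
        rw [← heq] at h4
        exact absurd h4 (not_le.mpr h3)) T
    linarith
  have hanti : ∀ i j, i < j → j ≤ 2 * m → v j < v i := by
    intro i j hij
    induction j with
    | zero => omega
    | succ j ih =>
      intro hj
      rcases Nat.lt_or_ge i j with h | h
      · exact (hstrict j hj).trans (ih h (by omega))
      · have : i = j := by omega
        subst this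
        exact hstrict i hj
  -- choice of the pair
  obtain ⟨j, hj, l, hl, hsum⟩ := exists_pair V.powerset
    (fun W => ((⌈cL d C * (N / s)⌉₊ : ℝ) / N) ^ W.card) (fun W => by positivity) m hmpos
    (fun j l W => S.Med H V G d (v (2 * j + 2)) (v (2 * j + 1)) (cθs d C l * s) W) (by
      intro W j l j' l' hj hj' h1 h2 hjj
      by_contra hll
      rw [not_le] at hll
      obtain ⟨h1, -⟩ := h1
      obtain ⟨-, h2⟩ := h2
      apply h1
      unfold Rob at h2
      push Not at h2
      obtain ⟨Z, hZ, hZc⟩ := h2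
      refine ⟨Z, hZ.1, ?_, ?_⟩
      · have h3 : (2 : ℝ) ^ (d + 1) * (cθs d C l' * s) ≤ cθs d C l * s := by
          have h4 := cθs_anti hd hC (show l + 1 ≤ l' from hll)
          have h5 := cθs_succ (d := d) (C := C) l
          have h6 : (0 : ℝ) < 2 ^ (d + 1) := by positivity
          have h7 : (2 : ℝ) ^ (d + 1) * cθs d C l' ≤ cθs d C l := by
            rw [← h5]
            exact mul_le_mul_of_nonneg_left h4 h6.le
          rw [← mul_assoc]
          exact mul_le_mul_of_nonneg_right h7 hs.le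
        linarith
      · intro B hB
        have h3 := hZ.2 B hB
        have h4 := hanti (2 * j + 2) (2 * j' + 1) (by omega) (by omega)
        linarith)
  obtain ⟨T, hT⟩ := hfact (2 * j + 1) (by omega)
  have hlast := range_life (S := S) hd hA hC hk h6 hN hs
    (hrob.mono_c (hal (2 * j + 1) (by omega)).2) hVG hV2 hV
    (lo := v (2 * j + 2)) (hBf (2 * j + 2) (by omega)).1.1 l hl hsum T (Bf (2 * j + 2)) le_rfl
  have : 2 * j + 1 + 1 = 2 * j + 2 := by ring
  rw [this] at hT
  linarith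

end Sys

end Pool.Agent.FewFacets
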