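import Pool.Agent.Hhelper78.RandomEdge.Geometry2

/-!
# A set of vertices closed under adjacency contains all vertices
-/

open scoped ENNReal Topology
open Matrix Filter Pool.Agent.Hhelper78.RandomEdge

namespace Pool.Agent.FewFacets

variable {d n : ℕ} {A : Matrix (Fin n) (Fin d) ℝ} {b : Fin n → ℝ}

/-- A finite nonempty set of vertices closed under passing to neighbours contains all vertices. -/
lemma mem_of_closed {S : Set (Fin d → ℝ)} (hfin : S.Finite) (hne : S.Nonempty)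
    (hS : ∀ v ∈ S, v ∈ (poly A b).extremePoints ℝ) (hc : ∀ v ∈ S, (tight A b v).card = d)
    (hnb : ∀ v ∈ S, ∀ i ∈ tight A b v, ∃ v' ∈ S, v' ≠ v ∧ (tight A b v).erase i ⊆ tight A b v')
    {w : Fin d → ℝ} (hw : w ∈ (poly A b).extremePoints ℝ) : w ∈ S := by
  classical
  set a : Fin d → ℝ := ∑ i ∈ tight A b w, A i with ha
  have hax : ∀ x, a ⬝ᵥ x = ∑ i ∈ tight A b w, A i ⬝ᵥ x := by
    intro x
    rw [ha, sum_dotProduct]
  obtain ⟨v, hv, hmax⟩ := Set.exists_max_image S (fun x => a ⬝ᵥ x) hfin hne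
  have hvE := hS v hv
  have hcv := hc v hv
  -- directions
  have h1 : ∀ i, ∃ u : Fin d → ℝ, i ∈ tight A b v → A i ⬝ᵥ u = -1 ∧
      ∀ l ∈ (tight A b v).erase i, A l ⬝ᵥ u = 0 := by
    intro i
    by_cases hi : i ∈ tight A b v
    · obtain ⟨u, hu⟩ := exists_dir hvE hcv hi
      exact ⟨u, fun _ => hu⟩
    · exact ⟨0, fun h => absurd h hi⟩
  choose u hu using h1
  have hau : ∀ i ∈ tight A b v, a ⬝ᵥ u i ≤ 0 := by
    intro i hi
    obtain ⟨v', hv', hne', hsub⟩ := hnb v hv i hi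
    obtain ⟨s, hs, hs'⟩ := on_line hvE hi (hu i hi).1 (hu i hi).2 (hS v' hv').1 hsub
    have hs0 : 0 < s := lt_of_le_of_ne hs fun h0 => hne' (by rw [hs', ← h0]; simp)
    have h2 := hmax v' hv'
    rw [hs', dotProduct_add, dotProduct_smul, smul_eq_mul] at h2
    by_contra hcon
    nlinarith [not_le.mp hcon]
  have hcone := cone (x := w) hvE u hu
  have h3 : a ⬝ᵥ (w - v) = ∑ i ∈ tight A b v, (b i - A i ⬝ᵥ w) * (a ⬝ᵥ u i) := by
    rw [hcone, dotProduct_sum]
    refine Finset.sum_congr rfl fun i _ => ?_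
    rw [dotProduct_smul, smul_eq_mul]
  have h4 : a ⬝ᵥ (w - v) ≤ 0 := by
    rw [h3]
    refine Finset.sum_nonpos fun i hi => ?_
    exact mul_nonpos_of_nonneg_of_nonpos (sub_nonneg.mpr (hw.1 i)) (hau i hi)
  rw [dotProduct_sub, hax, hax] at h4
  have h5 : ∀ i ∈ tight A b w, A i ⬝ᵥ v ≤ A i ⬝ᵥ w := by
    intro i hi
    rw [mem_tight.mp hi]
    exact hvE.1 i
  have h6 : ∑ i ∈ tight A b w, A i ⬝ᵥ v = ∑ i ∈ tight A b w, A i ⬝ᵥ w :=
    le_antisymm (Finset.sum_le_sum h5) (by linarith)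
  have h7 := (Finset.sum_eq_sum_iff_of_le h5).mp h6
  have h8 : tight A b w ⊆ tight A b v := by
    intro i hi
    rw [mem_tight, h7 i hi]
    exact mem_tight.mp hi
  have h9 := eq_of_tight hw h8
  rw [← h9]
  exact hv

/-- In a bounded polytope every linear function is a nonnegative combination of the rows. -/
lemma exists_dual_rep (hbd : Bornology.IsBounded (poly A b))
    (hsimple : ∀ v ∈ (poly A b).extremePoints ℝ, (tight A b v).card = d)
    (hne : ((poly A b).extremePoints ℝ).Nonempty) (a : Fin d → ℝ) :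
    ∃ μ : Fin n → ℝ, (∀ i, 0 ≤ μ i) ∧ ∀ x, a ⬝ᵥ x = ∑ i, μ i * (A i ⬝ᵥ x) := by
  classical
  have hfin : ((poly A b).extremePoints ℝ).Finite := by
    have hinj : Set.InjOn (fun v => tight A b v) ((poly A b).extremePoints ℝ) := by
      intro v hv w hw h
      exact eq_of_tight hw (le_of_eq h.symm)
    exact Set.Finite.of_finite_image (Set.toFinite _) hinj
  obtain ⟨v, hv, hmax⟩ := Set.exists_max_image _ (fun x => a ⬝ᵥ x) hfin hne
  have hcv := hsimple v hv
  have h1 : ∀ i, ∃ u : Fin d → ℝ, i ∈ tight A b v → A i ⬝ᵥ u = -1 ∧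
      ∀ l ∈ (tight A b v).erase i, A l ⬝ᵥ u = 0 := by
    intro i
    by_cases hi : i ∈ tight A b v
    · obtain ⟨u, hu⟩ := exists_dir hv hcv hi
      exact ⟨u, fun _ => hu⟩
    · exact ⟨0, fun h => absurd h hi⟩
  choose u hu using h1
  have hau : ∀ i ∈ tight A b v, a ⬝ᵥ u i ≤ 0 := by
    intro i hi
    obtain ⟨v', hv', hne', j, -, heq⟩ := exists_nbr hbd hsimple hv hi
    obtain ⟨s, hs, hs'⟩ := on_line hv hi (hu i hi).1 (hu i hi).2 hv'.1
      (by rw [heq]; exact Finset.subset_insert _ _)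
    have hs0 : 0 < s := lt_of_le_of_ne hs fun h0 => hne' (by rw [hs', ← h0]; simp)
    have h2 := hmax v' hv'
    rw [hs', dotProduct_add, dotProduct_smul, smul_eq_mul] at h2
    by_contra hcon
    nlinarith [not_le.mp hcon]
  refine ⟨fun i => if i ∈ tight A b v then -(a ⬝ᵥ u i) else 0, ?_, ?_⟩
  · intro i
    by_cases hi : i ∈ tight A b v
    · simp only [if_pos hi]; linarith [hau i hi]
    · simp only [if_neg hi]; exact le_rfl
  · intro x
    -- x = sum over tight of -(A i x) u i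
    have hx : x = ∑ i ∈ tight A b v, (-(A i ⬝ᵥ x)) • u i := by
      rw [← sub_eq_zero]
      apply ext_ker hv
      intro l hl
      rw [dotProduct_sub, dotProduct_sum, Finset.sum_eq_single l]
      · rw [dotProduct_smul, (hu l hl).1, smul_eq_mul]; ring
      · intro i hi hil
        rw [dotProduct_smul, (hu i hi).2 l (Finset.mem_erase.mpr ⟨hil.symm, hl⟩), smul_zero]
      · intro h; exact absurd hl h
    calc a ⬝ᵥ x = ∑ i ∈ tight A b v, (-(A i ⬝ᵥ x)) * (a ⬝ᵥ u i) := by
          conv_lhs => rw [hx]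
          rw [dotProduct_sum]
          refine Finset.sum_congr rfl fun i _ => ?_
          rw [dotProduct_smul, smul_eq_mul]
      _ = ∑ i, (if i ∈ tight A b v then -(a ⬝ᵥ u i) else 0) * (A i ⬝ᵥ x) := by
          simp only [ite_mul, zero_mul]
          rw [← Finset.sum_filter, Finset.filter_mem_eq_inter, Finset.univ_inter]
          refine Finset.sum_congr rfl fun i _ => ?_
          ring

end Pool.Agent.FewFacets
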