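import Pool.Agent.FewFacets.Good

/-!
# The exit estimate
-/

namespace Pool.Agent.FewFacets

namespace Sys

variable {α σ : Type} [DecidableEq α] {S : Sys α σ}

omit [DecidableEq α] in
lemma sum_pow_card (V : Finset α) (x : ℝ) :
    ∑ W ∈ V.powerset, x ^ W.card = (1 + x) ^ V.card := by
  have := Finset.sum_pow_mul_eq_add_pow x 1 V
  rw [add_comm] at this
  rw [← this]
  refine Finset.sum_congr rfl fun W _ => ?_
  rw [one_pow, mul_one]

open Classical in
lemma exit {C : ℝ} {d : ℕ} (hd : 0 < d) (hA : ∀ d' < d, ClaimA S C d') (hC : 0 ≤ C)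
    {H V G : Finset α} {N s hi lo c₀ t : ℝ} (hk : S.k ≤ H.card + d)
    (h6 : 6 * (G.card : ℝ) ≤ N) (hN : 0 < N) (hs : 0 < s) (hrob : S.Rob H G s hi) (hVG : V ⊆ G)
    (hV2 : (V.card : ℝ) ≤ 2 * s) (hV : ∀ B, S.bas B ⊆ H ∪ (G \ V) → S.val B ≤ c₀)
    (hlo : c₀ < lo) (ht : 0 < t) (hts : 2 ^ d * t ≤ s)
    (T₀ : ℕ) (hT₀ : 0 < T₀) (hT₀' : 10 * d * (C * (N / s)) ≤ T₀)
    (hmedw : ∑ W ∈ V.powerset.filter (S.Med H V G d lo hi t), ((T₀ : ℝ) / N) ^ W.card ≤ 1 / 20)
    (hdeadw : t * ((T₀ : ℝ) / N) * (1 + (T₀ : ℝ) / N) ^ V.card ≤ 1 / 20)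
    (T : ℕ) (hT0 : 0 < T) (hT : 2 * (d * (C * (N / (2 ^ d * t)))) ≤ T)
    (B : σ) (hBlo : lo ≤ S.val B) :
    kx S.stp G N (S.al H hi) (fun _ => 1) (T₀ + T) B ≤
      1 - 2 / 5 * Real.exp (-(6 * s * T / N)) := by
  have hG0 : (0 : ℝ) ≤ G.card := by positivity
  have hGN : (G.card : ℝ) ≤ N := by linarith
  have hexp1 : Real.exp (-(6 * s * T / N)) ≤ 1 := by
    rw [Real.exp_le_one_iff]
    have : 0 ≤ 6 * s * T / N := by positivity
    linarith
  have hexp0 := Real.exp_pos (-(6 * s * T / N))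
  by_cases hal : S.al H hi B
  swap
  · rw [kx_neg _ _ hal]; linarith
  set η := 1 / 2 * Real.exp (-(6 * s * T / N)) with hη
  have hη0 : 0 ≤ η := by positivity
  have hη1 : η ≤ 1 := by rw [hη]; linarith
  have hZex : ∀ W, ∃ Z, S.Dead H V G lo t W → Z ⊆ G \ V ∧ (Z.card : ℝ) ≤ t ∧
      ∀ B, S.bas B ⊆ H ∪ W ∪ ((G \ V) \ Z) → S.val B < lo := by
    intro W
    by_cases h : S.Dead H V G lo t W
    · obtain ⟨Z, hZ⟩ := h
      exact ⟨Z, fun _ => hZ⟩
    · exact ⟨∅, fun h' => absurd h' h⟩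
  choose Zf hZf using hZex
  set x := (T₀ : ℝ) / N with hx
  have hx0 : 0 ≤ x := by positivity
  set i1 : α → σ × Finset α → ℝ := fun b y => if b ∈ S.bas y.1 ∧ b ∉ y.2 then (1 : ℝ) else 0
    with hi1
  set i2 : Finset α → σ × Finset α → ℝ := fun W y => if W ⊆ y.2 then (1 : ℝ) else 0 with hi2
  set DD := V.powerset.filter (S.Dead H V G lo t) with hDD
  set MM := V.powerset.filter (S.Med H V G d lo hi t) with hMM
  set bad : σ × Finset α → ℝ := fun y =>
    (∑ b ∈ S.bas B \ H, i1 b y) + ((∑ W ∈ MM, i2 W y) +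
      ∑ W ∈ DD, ∑ z ∈ Zf W, i2 (insert z W) y) with hbad
  have hi1n : ∀ b y, 0 ≤ i1 b y := by
    intro b y; rw [hi1]; simp only; split_ifs <;> norm_num
  have hi2n : ∀ b y, 0 ≤ i2 b y := by
    intro b y; rw [hi2]; simp only; split_ifs <;> norm_num
  have hs1n : ∀ y, 0 ≤ ∑ b ∈ S.bas B \ H, i1 b y := fun y =>
    Finset.sum_nonneg fun b _ => hi1n b y
  have hs2n : ∀ y, 0 ≤ ∑ W ∈ MM, i2 W y := fun y => Finset.sum_nonneg fun b _ => hi2n b y
  have hs3n : ∀ y, 0 ≤ ∑ W ∈ DD, ∑ z ∈ Zf W, i2 (insert z W) y := fun y =>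
    Finset.sum_nonneg fun b _ => Finset.sum_nonneg fun z _ => hi2n _ y
  -- pointwise bound
  have hpt : ∀ y : σ × Finset α, (y.2 ⊆ G ∧ S.bas y.1 ⊆ S.bas B ∪ y.2 ∧ lo ≤ S.val y.1) →
      S.al H hi y.1 → kx S.stp G N (S.al H hi) (fun _ => 1) T y.1 ≤
        (1 - η) * 1 + η * bad y := by
    rintro ⟨B', R⟩ ⟨hRG, hBR, hlo'⟩ hal'
    simp only at hRG hBR hlo' hal' ⊢
    have hle1 := kx_one_le (f := S.stp) (p := S.al H hi) (N := N) (G := G) hN hGN T B'
    by_cases hb : 1 ≤ bad (B', R)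
    · nlinarith
    rw [not_le] at hb
    have hbn : 0 ≤ bad (B', R) := by
      rw [hbad]; simp only
      linarith [hs1n (B', R), hs2n (B', R), hs3n (B', R)]
    have g1 : ∀ b ∈ S.bas B \ H, ¬ (b ∈ S.bas B' ∧ b ∉ R) := by
      intro b hb' hcon
      have h1 : i1 b (B', R) ≤ ∑ b ∈ S.bas B \ H, i1 b (B', R) :=
        Finset.single_le_sum (f := fun b => i1 b (B', R)) (fun b _ => hi1n b _) hb'
      have h2 : i1 b (B', R) = 1 := by rw [hi1]; simp only; rw [if_pos hcon]
      have := hs2n (B', R)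
      have := hs3n (B', R)
      rw [hbad] at hb
      simp only at hb
      linarith
    have g2 : ∀ W ∈ MM, ¬ W ⊆ R := by
      intro W hW hcon
      have h1 : i2 W (B', R) ≤ ∑ W ∈ MM, i2 W (B', R) :=
        Finset.single_le_sum (f := fun b => i2 b (B', R)) (fun b _ => hi2n b _) hW
      have h2 : i2 W (B', R) = 1 := by rw [hi2]; simp only; rw [if_pos hcon]
      have := hs1n (B', R)
      have := hs3n (B', R)
      rw [hbad] at hb
      simp only at hb
      linarith
    have g3 : ∀ W ∈ DD, ∀ z ∈ Zf W, ¬ insert z W ⊆ R := by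
      intro W hW z hz hcon
      have h1 : ∑ z ∈ Zf W, i2 (insert z W) (B', R) ≤
          ∑ W ∈ DD, ∑ z ∈ Zf W, i2 (insert z W) (B', R) :=
        Finset.single_le_sum (f := fun W => ∑ z ∈ Zf W, i2 (insert z W) (B', R))
          (fun b _ => Finset.sum_nonneg fun z _ => hi2n _ _) hW
      have h2 : i2 (insert z W) (B', R) ≤ ∑ z ∈ Zf W, i2 (insert z W) (B', R) :=
        Finset.single_le_sum (f := fun z => i2 (insert z W) (B', R)) (fun b _ => hi2n _ _) hz
      have h3 : i2 (insert z W) (B', R) = 1 := by rw [hi2]; simp only; rw [if_pos hcon]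
      have := hs1n (B', R)
      have := hs2n (B', R)
      rw [hbad] at hb
      simp only at hb
      linarith
    have hge := good_exit (S := S) hd hA hC hk h6 hN hs hrob hVG hV2 hV hlo ht hts Zf hZf B' R
      hal' hlo' (by
        intro a ha
        rw [Finset.mem_sdiff] at ha
        by_contra haR
        have h1 := hBR ha.1
        rw [Finset.mem_union] at h1
        rcases h1 with h1 | h1
        · exact g1 a (Finset.mem_sdiff.mpr ⟨h1, ha.2⟩) ⟨ha.1, haR⟩
        · exact haR h1) hRG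
      (fun W hWV hWR hm => g2 W (Finset.mem_filter.mpr ⟨Finset.mem_powerset.mpr hWV, hm⟩) hWR)
      (by
        intro W hWV hWR hdd
        rw [Finset.disjoint_left]
        intro z hz hzR
        exact g3 W (Finset.mem_filter.mpr ⟨Finset.mem_powerset.mpr hWV, hdd⟩) z hz
          (Finset.insert_subset hzR hWR)) T hT0 hT
    rw [← hη] at hge
    nlinarith
  -- the expectation of bad
  have hTpos : (0 : ℝ) < T₀ := by exact_mod_cast hT₀
  have hdpos : (0 : ℝ) < d := by exact_mod_cast hd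
  have b1 : ∀ b ∈ S.bas B \ H, kx (jf S.stp) G N (fun y => S.al H hi y.1) (i1 b) T₀ (B, ∅) ≤
      1 / (10 * d) := by
    intro b hb
    rw [Finset.mem_sdiff] at hb
    have h1 := kx_never (f := S.stp) (G := G) (N := N) (S.al H hi) (fun B' => b ∈ S.bas B') b hN
      hGN (by
        intro x g hg hx
        have := S.stp_sub x g hx
        rw [Finset.mem_insert] at this
        rcases this with h | h
        · exact absurd h.symm hg
        · exact h) T₀ (B, ∅)
    have h0 : i1 b = fun y : σ × Finset α => @ite _ (b ∈ S.bas y.1 ∧ b ∉ y.2)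
        (@instDecidableAnd _ _ (Classical.propDecidable _) (instDecidableNot)) (1 : ℝ) 0 := by
      funext y
      rw [hi1]
      simp only
      congr
    rw [h0]
    refine h1.trans ?_
    rw [if_pos ⟨hb.1, Finset.notMem_empty _⟩]
    have hpe : (fun x => S.al H hi x ∧ b ∈ S.bas x) = S.al (insert b H) hi := by
      funext x
      rw [eq_iff_iff]
      unfold al
      rw [Finset.insert_subset_iff]
      tauto
    rw [hpe]
    have h2 := hA (d - 1) (by omega) (insert b H) G N s hi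
      (by rw [Finset.card_insert_of_notMem hb.2]; omega) h6 hN hs
      (hrob.mono_H (Finset.subset_insert _ _)) T₀ B
    have h3 := kx_one_mul_le (f := S.stp) (G := G) (N := N) (p := S.al (insert b H) hi) hN hGN T₀ B
    rw [le_div_iff₀ (by positivity)]
    have h4 : (T₀ : ℝ) * kx S.stp G N (S.al (insert b H) hi) (fun _ => 1) T₀ B ≤ C * (N / s) :=
      h3.trans h2
    have h5 : (T₀ : ℝ) * (kx S.stp G N (S.al (insert b H) hi) (fun _ => 1) T₀ B * (10 * d)) ≤
        T₀ * 1 := by nlinarith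
    exact le_of_mul_le_mul_left h5 hTpos
  have b2 : ∀ W, kx (jf S.stp) G N (fun y => S.al H hi y.1) (i2 W) T₀ (B, ∅) ≤ x ^ W.card := by
    intro W
    have h1 := kx_rung (f := S.stp) (G := G) (N := N) (fun y => S.al H hi y.1) hN hGN W T₀ (B, ∅)
    simpa using h1
  have hcardB : ((S.bas B \ H).card : ℝ) ≤ d := by
    have h1 : (S.bas B \ H).card = (S.bas B).card - H.card := by
      rw [Finset.card_sdiff_of_subset hal.1]
    have h2 := S.card_le B
    have h3 : (S.bas B \ H).card ≤ d := by omega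
    exact_mod_cast h3
  have s1 : ∑ b ∈ S.bas B \ H, kx (jf S.stp) G N (fun y => S.al H hi y.1) (i1 b) T₀ (B, ∅) ≤
      1 / 10 := by
    calc _ ≤ ∑ b ∈ S.bas B \ H, (1 / (10 * d) : ℝ) := Finset.sum_le_sum b1
      _ = (S.bas B \ H).card * (1 / (10 * d)) := by rw [Finset.sum_const, nsmul_eq_mul]
      _ ≤ d * (1 / (10 * d)) := by gcongr
      _ = 1 / 10 := by field_simp
  have s2 : ∑ W ∈ MM, kx (jf S.stp) G N (fun y => S.al H hi y.1) (i2 W) T₀ (B, ∅) ≤ 1 / 20 :=
    (Finset.sum_le_sum fun W _ => b2 W).trans hmedw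
  have s3 : ∑ W ∈ DD, ∑ z ∈ Zf W,
      kx (jf S.stp) G N (fun y => S.al H hi y.1) (i2 (insert z W)) T₀ (B, ∅) ≤ 1 / 20 := by
    refine le_trans ?_ hdeadw
    calc _ ≤ ∑ W ∈ DD, t * x * x ^ W.card := by
          refine Finset.sum_le_sum fun W hW => ?_
          rw [hDD, Finset.mem_filter, Finset.mem_powerset] at hW
          have hz := hZf W hW.2
          calc _ ≤ ∑ z ∈ Zf W, x ^ (W.card + 1) := by
                refine Finset.sum_le_sum fun z hzW => ?_
                have hzn : z ∉ W := fun h =>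
                  (Finset.mem_sdiff.mp (hz.1 hzW)).2 (hW.1 h)
                have := b2 (insert z W)
                rwa [Finset.card_insert_of_notMem hzn] at this
            _ = (Zf W).card * x ^ (W.card + 1) := by rw [Finset.sum_const, nsmul_eq_mul]
            _ ≤ t * x ^ (W.card + 1) := by
                apply mul_le_mul_of_nonneg_right hz.2.1 (by positivity)
            _ = _ := by rw [pow_succ]; ring
      _ ≤ ∑ W ∈ V.powerset, t * x * x ^ W.card := by
          apply Finset.sum_le_sum_of_subset_of_nonneg (Finset.filter_subset _ _)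
          intro W _ _
          positivity
      _ = t * x * (1 + x) ^ V.card := by
          rw [← Finset.mul_sum, sum_pow_card]
  have hkbad : kx (jf S.stp) G N (fun y => S.al H hi y.1) bad T₀ (B, ∅) ≤ 1 / 5 := by
    rw [hbad, kx_add, kx_add, kx_sum, kx_sum, kx_sum]
    have : ∑ W ∈ DD, kx (jf S.stp) G N (fun y => S.al H hi y.1)
        (fun y => ∑ z ∈ Zf W, i2 (insert z W) y) T₀ (B, ∅) =
        ∑ W ∈ DD, ∑ z ∈ Zf W,
          kx (jf S.stp) G N (fun y => S.al H hi y.1) (i2 (insert z W)) T₀ (B, ∅) := by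
      refine Finset.sum_congr rfl fun W _ => ?_
      rw [kx_sum]
    rw [this]
    linarith
  rw [kx_time_add]
  have hproj := kx_proj (f := S.stp) (G := G) (N := N) (S.al H hi)
    (kx S.stp G N (S.al H hi) (fun _ => 1) T) T₀ (B, ∅)
  rw [← hproj]
  have hfin := kx_mono_on (f := jf S.stp) (G := G) (N := N) (p := fun y => S.al H hi y.1)
    (φ := fun y => kx S.stp G N (S.al H hi) (fun _ => 1) T y.1)
    (ψ := fun y => (1 - η) * 1 + η * bad y)
    (fun y => y.2 ⊆ G ∧ S.bas y.1 ⊆ S.bas B ∪ y.2 ∧ lo ≤ S.val y.1) hN hGN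
    (by
      rintro ⟨B', R⟩ ⟨h1, h2, h3⟩ g hg
      simp only [jf] at h1 h2 h3 ⊢
      refine ⟨Finset.insert_subset hg h1, ?_, h3.trans (S.val_le B' g)⟩
      refine (S.stp_sub B' g).trans ?_
      rw [Finset.insert_subset_iff]
      refine ⟨Finset.mem_union_right _ (Finset.mem_insert_self _ _), ?_⟩
      exact h2.trans (Finset.union_subset_union_right (Finset.subset_insert _ _)))
    (fun y hy hp => hpt y hy hp) T₀ (B, ∅)
    ⟨Finset.empty_subset _, Finset.subset_union_left, hBlo⟩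
  refine hfin.trans ?_
  rw [kx_add, kx_const_mul, kx_const_mul]
  have hk1 := kx_one_le (f := jf S.stp) (p := fun y => S.al H hi y.1) (N := N) (G := G) hN hGN T₀
    (B, ∅)
  have h1 : (1 - η) * kx (jf S.stp) G N (fun y => S.al H hi y.1) (fun _ => (1 : ℝ)) T₀ (B, ∅) ≤
      (1 - η) * 1 := mul_le_mul_of_nonneg_left hk1 (by linarith)
  have h2 : η * kx (jf S.stp) G N (fun y => S.al H hi y.1) bad T₀ (B, ∅) ≤ η * (1 / 5) :=
    mul_le_mul_of_nonneg_left hkbad hη0
  have h3 : 2 / 5 * Real.exp (-(6 * s * T / N)) = 4 / 5 * η := by rw [hη]; ring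
  rw [h3]
  linarith

end Sys

end Pool.Agent.FewFacets
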