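import Pool.Agent.FewFacets.Poly

/-!
# Lower bounds for the expected number of steps by subsolutions
-/

open scoped ENNReal Topology
open Matrix Filter Pool.Agent.Hhelper78.RandomEdge

namespace Pool.Agent.FewFacets

variable {d n : ℕ} (L : LPInstance d n)

open Classical in
/-- number of vertices of smaller value -/
noncomputable def rk (w : Vert L) : ℕ :=
  (Finset.univ.filter fun v : Vert L => L.c ⬝ᵥ v.1 < L.c ⬝ᵥ w.1).card

lemma rk_lt {v w : Vert L} (h : L.c ⬝ᵥ v.1 < L.c ⬝ᵥ w.1) : rk L v < rk L w := by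
  classical
  unfold rk
  apply Finset.card_lt_card
  rw [Finset.ssubset_iff_of_subset]
  · refine ⟨v, Finset.mem_filter.mpr ⟨Finset.mem_univ _, h⟩, ?_⟩
    rw [Finset.mem_filter]
    exact fun h => lt_irrefl _ h.2
  · intro x hx
    rw [Finset.mem_filter] at hx ⊢
    exact ⟨hx.1, hx.2.trans h⟩

lemma rk_lt_card (w : Vert L) : rk L w < Fintype.card (Vert L) := by
  classical
  unfold rk
  rw [← Finset.card_univ]
  apply Finset.card_lt_card
  rw [Finset.ssubset_iff_of_subset (Finset.subset_univ _)]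
  refine ⟨w, Finset.mem_univ _, ?_⟩
  rw [Finset.mem_filter]
  exact fun h => lt_irrefl _ h.2

lemma walk_step (t : ℕ) (F : Vert L → ℝ≥0∞) : ∑ w : Vert L, L.walk (t + 1) w.1 * F w =
    ∑ v : Vert L, L.walk t v.1 * ∑ w : Vert L, L.stepProb v.1 w.1 * F w := by
  classical
  have h1 : ∀ w : Vert L, L.walk (t + 1) w.1 = ∑ v : Vert L, L.walk t v.1 * L.stepProb v.1 w.1 := by
    intro w
    rw [LPInstance.walk]
    apply tsum_vert L (fun v => L.walk t v * L.stepProb v w.1)
    intro v hv
    rw [walk_eq_zero L t v hv, zero_mul]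
  simp only [h1, Finset.sum_mul, Finset.mul_sum]
  rw [Finset.sum_comm]
  refine Finset.sum_congr rfl fun v _ => Finset.sum_congr rfl fun w _ => ?_
  rw [mul_assoc]

lemma le_rk_of_walk (t : ℕ) (w : Vert L) (h : L.walk t w.1 ≠ 0) : t ≤ rk L w := by
  classical
  induction t generalizing w with
  | zero => exact Nat.zero_le _
  | succ t ih =>
    rw [LPInstance.walk] at h
    rw [tsum_vert L (fun v => L.walk t v * L.stepProb v w.1)
      (fun v hv => by rw [walk_eq_zero L t v hv, zero_mul])] at h
    obtain ⟨v, -, hv⟩ := Finset.exists_ne_zero_of_sum_ne_zero h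
    have h1 := left_ne_zero_of_mul hv
    have h2 := right_ne_zero_of_mul hv
    have h3 : w.1 ∈ L.improving v.1 := by
      by_contra hcon
      apply h2
      unfold LPInstance.stepProb
      rw [if_neg hcon]
    have h4 := rk_lt L (v := v) (w := w) h3.2
    have h5 := ih v h1
    omega

lemma walk_zero_sum (φ : Vert L → ℝ≥0∞) :
    ∑ w : Vert L, L.walk 0 w.1 * φ w = φ ⟨L.v₀, L.start⟩ := by
  classical
  rw [Finset.sum_eq_single (⟨L.v₀, L.start⟩ : Vert L)]
  · rw [LPInstance.walk]
    simp
  · intro w _ hw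
    rw [LPInstance.walk, if_neg, zero_mul]
    intro h0
    exact hw (Subtype.ext h0)
  · intro h0; exact absurd (Finset.mem_univ _) h0

/-- A subsolution bounds the expected number of steps from below. -/
lemma le_expectedSteps_of_sub (φ : Vert L → ℝ≥0∞)
    (h : ∀ v : Vert L, φ v ≤ ∑ w : Vert L, L.stepProb v.1 w.1 * (1 + φ w)) :
    φ ⟨L.v₀, L.start⟩ ≤ L.expectedSteps := by
  classical
  have key : ∀ T : ℕ, φ ⟨L.v₀, L.start⟩ ≤ ∑ t ∈ Finset.range T, ∑ w : Vert L, L.walk (t + 1) w.1 +
      ∑ w : Vert L, L.walk T w.1 * φ w := by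
    intro T
    induction T with
    | zero =>
      rw [Finset.sum_range_zero, zero_add, walk_zero_sum]
    | succ T ih =>
      refine ih.trans ?_
      rw [Finset.sum_range_succ, add_assoc]
      gcongr
      have h1 : ∑ w : Vert L, L.walk (T + 1) w.1 + ∑ w : Vert L, L.walk (T + 1) w.1 * φ w =
          ∑ w : Vert L, L.walk (T + 1) w.1 * (1 + φ w) := by
        rw [← Finset.sum_add_distrib]
        refine Finset.sum_congr rfl fun w _ => ?_
        rw [mul_add, mul_one]
      rw [h1, walk_step]
      refine Finset.sum_le_sum fun v _ => ?_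
      gcongr
      exact h v
  have hz : ∑ w : Vert L, L.walk (Fintype.card (Vert L)) w.1 * φ w = 0 := by
    refine Finset.sum_eq_zero fun w _ => ?_
    have : L.walk (Fintype.card (Vert L)) w.1 = 0 := by
      by_contra hcon
      have h1 := le_rk_of_walk L _ w hcon
      have h2 := rk_lt_card L w
      omega
    rw [this, zero_mul]
  have h2 := key (Fintype.card (Vert L))
  rw [hz, add_zero] at h2
  refine h2.trans ?_
  unfold LPInstance.expectedSteps
  have h3 : ∀ t, ∑' w, L.walk (t + 1) w = ∑ w : Vert L, L.walk (t + 1) w.1 := fun t =>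
    tsum_vert L (fun w => L.walk (t + 1) w) fun w hw => walk_eq_zero L (t + 1) w hw
  simp only [h3]
  exact ENNReal.sum_le_tsum _

/-- A real subsolution on the vertices. -/
lemma le_expectedSteps_real (φ : Vert L → ℝ) (h0 : ∀ v, 0 ≤ φ v)
    (hsink : ∀ v, outV L v = ∅ → φ v = 0)
    (h : ∀ v, (outV L v).card * φ v ≤ (outV L v).card + ∑ g ∈ outV L v, φ (nbV L v g)) :
    ENNReal.ofReal (φ ⟨L.v₀, L.start⟩) ≤ L.expectedSteps := by
  classical
  apply le_expectedSteps_of_sub L (fun v => ENNReal.ofReal (φ v))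
  intro v
  rw [sum_step]
  rcases Finset.eq_empty_or_nonempty (outV L v) with he | he
  · rw [hsink v he]
    simp
  · have hc : (0 : ℝ) < (outV L v).card := by exact_mod_cast Finset.card_pos.mpr he
    have h1 : ∀ g ∈ outV L v, ((outV L v).card : ℝ≥0∞)⁻¹ * (1 + ENNReal.ofReal (φ (nbV L v g))) =
        ENNReal.ofReal (((outV L v).card : ℝ)⁻¹ * (1 + φ (nbV L v g))) := by
      intro g _
      rw [ENNReal.ofReal_mul (by positivity), ENNReal.ofReal_inv_of_pos hc,
        ENNReal.ofReal_natCast, ENNReal.ofReal_add zero_le_one (h0 _), ENNReal.ofReal_one]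
    rw [Finset.sum_congr rfl h1, ← ENNReal.ofReal_sum_of_nonneg]
    · apply ENNReal.ofReal_le_ofReal
      rw [← Finset.mul_sum, Finset.sum_add_distrib, Finset.sum_const, nsmul_eq_mul, mul_one]
      rw [← div_eq_inv_mul, le_div_iff₀ hc]
      linarith [h v]
    · intro g _
      have := h0 (nbV L v g)
      positivity

end Pool.Agent.FewFacets
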