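import Pool.Agent.FewFacets.Enum
import Pool.Agent.FewFacets.Sub

/-!
# The deformed product of a polytope with a simplex: coordinates
-/

open scoped ENNReal Topology
open Matrix Filter Pool.Agent.Hhelper78.RandomEdge

namespace Pool.Agent.FewFacets

namespace Ext

variable {d n q : ℕ}

/-- the first block of coordinates -/
def XX (w : Fin (d + q) → ℝ) : Fin d → ℝ := fun i => w (Fin.castAdd q i)

/-- the second block of coordinates -/
def ZZ (w : Fin (d + q) → ℝ) : Fin q → ℝ := fun j => w (Fin.natAdd d j)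

/-- barycentric coordinates of the second block -/
def lam (w : Fin (d + q) → ℝ) : Fin (q + 1) → ℝ := Fin.cons (1 - ∑ j, ZZ w j) (ZZ w)

/-- the matrix of the deformed product -/
def eA (A : Matrix (Fin n) (Fin d) ℝ) (β : Fin (q + 1) → Fin n → ℝ) :
    Matrix (Fin (n + (q + 1))) (Fin (d + q)) ℝ :=
  fun i => Fin.addCases (motive := fun _ => Fin (d + q) → ℝ)
    (fun i => Fin.append (A i) (fun j => β j.succ i))
    (fun j => Fin.append (0 : Fin d → ℝ)
      (Fin.cases (motive := fun _ => Fin q → ℝ) (fun _ => (1 : ℝ)) (fun j' => -Pi.single j' 1) j)) i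

/-- the right-hand side of the deformed product -/
def eb (b : Fin n → ℝ) : Fin (n + (q + 1)) → ℝ :=
  Fin.append b (Fin.cons 1 (fun _ => 0))

lemma append_dot (a : Fin d → ℝ) (c : Fin q → ℝ) (w : Fin (d + q) → ℝ) :
    (Fin.append a c) ⬝ᵥ w = a ⬝ᵥ XX w + c ⬝ᵥ ZZ w := by
  unfold dotProduct XX ZZ
  rw [Fin.sum_univ_add]
  simp only [Fin.append_left, Fin.append_right]

variable {A : Matrix (Fin n) (Fin d) ℝ} {b : Fin n → ℝ} {β : Fin (q + 1) → Fin n → ℝ}

lemma lam_zero (w : Fin (d + q) → ℝ) : lam w 0 = 1 - ∑ j, ZZ w j := rfl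

lemma lam_succ (w : Fin (d + q) → ℝ) (j : Fin q) : lam w j.succ = ZZ w j := rfl

lemma lam_sum (w : Fin (d + q) → ℝ) : ∑ j, lam w j = 1 := by
  rw [Fin.sum_univ_succ, lam_zero]
  simp only [lam_succ]
  ring

lemma lam_beta (hβ : β 0 = 0) (w : Fin (d + q) → ℝ) (i : Fin n) :
    ∑ j, lam w j * β j i = ∑ j : Fin q, ZZ w j * β j.succ i := by
  rw [Fin.sum_univ_succ, hβ]
  simp [lam_succ]

lemma row_left (w : Fin (d + q) → ℝ) (i : Fin n) :
    eA A β (Fin.castAdd (q + 1) i) ⬝ᵥ w = A i ⬝ᵥ XX w + ∑ j : Fin q, ZZ w j * β j.succ i := by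
  unfold eA
  rw [Fin.addCases_left, append_dot]
  congr 1
  unfold dotProduct
  refine Finset.sum_congr rfl fun j _ => mul_comm _ _

lemma row_zero (w : Fin (d + q) → ℝ) :
    eA A β (Fin.natAdd n (0 : Fin (q + 1))) ⬝ᵥ w = ∑ j, ZZ w j := by
  unfold eA
  rw [Fin.addCases_right, append_dot]
  simp [dotProduct]

lemma row_succ (w : Fin (d + q) → ℝ) (j : Fin q) :
    eA A β (Fin.natAdd n j.succ) ⬝ᵥ w = -ZZ w j := by
  unfold eA
  rw [Fin.addCases_right, append_dot]
  simp

lemma eb_left (i : Fin n) : eb (q := q) b (Fin.castAdd (q + 1) i) = b i := by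
  unfold eb
  rw [Fin.append_left]

lemma slack_right (w : Fin (d + q) → ℝ) (j : Fin (q + 1)) :
    eb (q := q) b (Fin.natAdd n j) - eA A β (Fin.natAdd n j) ⬝ᵥ w = lam w j := by
  induction j using Fin.cases with
  | zero =>
    rw [row_zero, lam_zero]
    unfold eb
    rw [Fin.append_right, Fin.cons_zero]
  | succ j =>
    rw [row_succ, lam_succ]
    unfold eb
    rw [Fin.append_right, Fin.cons_succ]
    ring

lemma mem_poly (hβ : β 0 = 0) (w : Fin (d + q) → ℝ) :
    w ∈ poly (eA A β) (eb b) ↔
      (∀ i, A i ⬝ᵥ XX w + ∑ j, lam w j * β j i ≤ b i) ∧ ∀ j, 0 ≤ lam w j := by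
  constructor
  · intro h
    refine ⟨fun i => ?_, fun j => ?_⟩
    · have := h (Fin.castAdd (q + 1) i)
      rw [row_left, eb_left] at this
      rw [lam_beta hβ]
      exact this
    · rw [← slack_right (A := A) (b := b) (β := β)]
      exact sub_nonneg.mpr (h _)
  · rintro ⟨h1, h2⟩ i
    induction i using Fin.addCases with
    | left i =>
      have := h1 i
      rw [lam_beta hβ] at this
      rw [row_left, eb_left]
      exact this
    | right j =>
      have := h2 j
      rw [← slack_right (A := A) (b := b) (β := β)] at this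
      exact sub_nonneg.mp this

lemma tight_left (hβ : β 0 = 0) (w : Fin (d + q) → ℝ) (i : Fin n) :
    Fin.castAdd (q + 1) i ∈ tight (eA A β) (eb b) w ↔
      A i ⬝ᵥ XX w + ∑ j, lam w j * β j i = b i := by
  rw [mem_tight, row_left, eb_left, lam_beta hβ]

lemma tight_right (w : Fin (d + q) → ℝ) (j : Fin (q + 1)) :
    Fin.natAdd n j ∈ tight (eA A β) (eb b) w ↔ lam w j = 0 := by
  rw [mem_tight, ← slack_right (A := A) (b := b) (β := β), sub_eq_zero]
  exact eq_comm

/-- the point with first block `x` and second block the vertex `j` of the simplex -/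
def mk (x : Fin d → ℝ) (j : Fin (q + 1)) : Fin (d + q) → ℝ :=
  Fin.append x (fun j' => if j = j'.succ then 1 else 0)

lemma XX_mk (x : Fin d → ℝ) (j : Fin (q + 1)) : XX (mk x j) = x := by
  funext i
  unfold XX mk
  rw [Fin.append_left]

lemma ZZ_mk (x : Fin d → ℝ) (j : Fin (q + 1)) (j' : Fin q) :
    ZZ (mk x j) j' = if j = j'.succ then 1 else 0 := by
  unfold ZZ mk
  rw [Fin.append_right]

lemma lam_mk (x : Fin d → ℝ) (j j' : Fin (q + 1)) :
    lam (mk x j) j' = if j = j' then 1 else 0 := by
  induction j' using Fin.cases with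
  | zero =>
    rw [lam_zero]
    simp only [ZZ_mk]
    induction j using Fin.cases with
    | zero =>
      rw [if_pos rfl]
      have : ∑ x : Fin q, (if (0 : Fin (q + 1)) = x.succ then (1 : ℝ) else 0) = 0 :=
        Finset.sum_eq_zero fun x _ => if_neg (Fin.succ_ne_zero x).symm
      rw [this, sub_zero]
    | succ j =>
      rw [if_neg (Fin.succ_ne_zero j)]
      have : ∑ x : Fin q, (if j.succ = x.succ then (1 : ℝ) else 0) = 1 := by
        rw [Finset.sum_eq_single j]
        · rw [if_pos rfl]
        · intro x _ hx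
          rw [if_neg]
          intro h
          exact hx (Fin.succ_injective _ h).symm
        · intro h; exact absurd (Finset.mem_univ _) h
      rw [this, sub_self]
  | succ j' =>
    rw [lam_succ, ZZ_mk]

lemma sum_lam_mk (x : Fin d → ℝ) (j : Fin (q + 1)) (i : Fin n) :
    ∑ j', lam (mk x j) j' * β j' i = β j i := by
  simp only [lam_mk, ite_mul, one_mul, zero_mul]
  rw [Finset.sum_ite_eq]
  simp

lemma dot_mk (c : Fin d → ℝ) (γ : Fin (q + 1) → ℝ) (hγ : γ 0 = 0) (x : Fin d → ℝ)
    (j : Fin (q + 1)) :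
    (Fin.append c (fun j' : Fin q => γ j'.succ)) ⬝ᵥ mk x j = c ⬝ᵥ x + γ j := by
  rw [append_dot, XX_mk]
  congr 1
  unfold dotProduct
  simp only [ZZ_mk]
  induction j using Fin.cases with
  | zero =>
    rw [hγ]
    refine Finset.sum_eq_zero fun x _ => ?_
    rw [if_neg (Fin.succ_ne_zero x).symm, mul_zero]
  | succ j =>
    rw [Finset.sum_eq_single j]
    · rw [if_pos rfl, mul_one]
    · intro x _ hx
      rw [if_neg, mul_zero]
      intro h
      exact hx (Fin.succ_injective _ h).symm
    · intro h; exact absurd (Finset.mem_univ _) h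

/-- A vector whose barycentric increments vanish except at one place is zero in the second block. -/
lemma ZZ_eq_zero {u : Fin (d + q) → ℝ} {j : Fin (q + 1)}
    (h : ∀ j', j' ≠ j → eA A β (Fin.natAdd n j') ⬝ᵥ u = 0) : ∀ j', ZZ u j' = 0 := by
  induction j using Fin.cases with
  | zero =>
    intro j'
    have := h j'.succ (Fin.succ_ne_zero j')
    rw [row_succ] at this
    linarith
  | succ j =>
    intro j'
    by_cases hj : j' = j
    · subst hj
      have h0 := h 0 (Fin.succ_ne_zero j').symm
      rw [row_zero, Finset.sum_eq_single j'] at h0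
      · exact h0
      · intro x _ hx
        have := h x.succ (fun h => hx (Fin.succ_injective _ h))
        rw [row_succ] at this
        linarith
      · intro h; exact absurd (Finset.mem_univ _) h
    · have := h j'.succ (fun h => hj (Fin.succ_injective _ h))
      rw [row_succ] at this
      linarith

lemma eq_zero_of_blocks {u : Fin (d + q) → ℝ} (h1 : XX u = 0) (h2 : ∀ j, ZZ u j = 0) : u = 0 := by
  funext i
  induction i using Fin.addCases with
  | left i => exact congrFun h1 i
  | right j => exact h2 j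

end Ext

end Pool.Agent.FewFacets
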