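import Pool.Agent.FewFacets.ExtA

/-!
# The deformed product of a polytope with a simplex: vertices
-/

open scoped ENNReal Topology
open Matrix Filter Pool.Agent.Hhelper78.RandomEdge

namespace Pool.Agent.FewFacets

namespace Ext

variable {d n q : ℕ} (L : LPInstance d n) (β : Fin (q + 1) → Fin n → ℝ)

/-- edge directions at a vertex -/
noncomputable def dirV (v : Vert L) : Fin n → Fin d → ℝ := (exists_dirs L v).choose

lemma dir_self (v : Vert L) {i : Fin n} (hi : i ∈ tight L.A L.b v.1) :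
    L.A i ⬝ᵥ dirV L v i = -1 := ((exists_dirs L v).choose_spec.1 i hi).1

lemma dir_ne (v : Vert L) {i l : Fin n} (hi : i ∈ tight L.A L.b v.1)
    (hl : l ∈ tight L.A L.b v.1) (h : l ≠ i) : L.A l ⬝ᵥ dirV L v i = 0 :=
  ((exists_dirs L v).choose_spec.1 i hi).2 l (Finset.mem_erase.mpr ⟨h, hl⟩)

lemma dir_c (v : Vert L) {i : Fin n} (hi : i ∈ tight L.A L.b v.1) :
    L.c ⬝ᵥ dirV L v i ≠ 0 := by
  by_cases h : i ∈ outV L v
  · exact ((exists_dirs L v).choose_spec.2.1 i h).ne'
  · exact ((exists_dirs L v).choose_spec.2.2 i hi h).ne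

/-- the perturbed vertex -/
noncomputable def xv (v : Vert L) (j : Fin (q + 1)) : Fin d → ℝ :=
  v.1 + ∑ i ∈ tight L.A L.b v.1, β j i • dirV L v i

lemma dot_xv (a : Fin d → ℝ) (v : Vert L) (j : Fin (q + 1)) :
    a ⬝ᵥ xv L β v j = a ⬝ᵥ v.1 + ∑ i ∈ tight L.A L.b v.1, β j i * (a ⬝ᵥ dirV L v i) := by
  unfold xv
  rw [dotProduct_add, dotProduct_sum]
  congr 1
  refine Finset.sum_congr rfl fun i _ => ?_
  rw [dotProduct_smul, smul_eq_mul]

lemma row_xv (v : Vert L) (j : Fin (q + 1)) {l : Fin n} (hl : l ∈ tight L.A L.b v.1) :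
    L.A l ⬝ᵥ xv L β v j = L.b l - β j l := by
  rw [dot_xv, Finset.sum_eq_single l]
  · rw [dir_self L v hl, mem_tight.mp hl]; ring
  · intro i hi hil
    rw [dir_ne L v hi hl hil.symm, mul_zero]
  · intro h; exact absurd hl h

/-- The smallness conditions for the deformation. -/
structure Small (γ : Fin (q + 1) → ℝ) (x₀ : Fin d → ℝ) : Prop where
  hq : 0 < q
  b0 : β 0 = 0
  g0 : γ 0 = 0
  slack : ∀ (v : Vert L) (l : Fin n), l ∉ tight L.A L.b v.1 → ∀ j, L.A l ⬝ᵥ xv L β v j + β j l < L.b l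
  mono : ∀ v w : Vert L, L.c ⬝ᵥ v.1 < L.c ⬝ᵥ w.1 → ∀ j,
    L.c ⬝ᵥ xv L β v j < L.c ⬝ᵥ xv L β w j
  int1 : ∀ l j, L.A l ⬝ᵥ x₀ + β j l < L.b l
  int2 : ∀ l j j', L.A l ⬝ᵥ x₀ + (2 * β j' l - β j l) ≤ L.b l
  tie : ∀ (v : Vert L) j j', j ≠ j' → L.c ⬝ᵥ xv L β v j + γ j ≠ L.c ⬝ᵥ xv L β v j' + γ j'

variable {L β} {γ : Fin (q + 1) → ℝ} {x₀ : Fin d → ℝ} (hS : Small L β γ x₀)

/-- the vertices of the deformed product -/
noncomputable def pt (L : LPInstance d n) (β : Fin (q + 1) → Fin n → ℝ) (v : Vert L)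
    (j : Fin (q + 1)) : Fin (d + q) → ℝ := mk (xv L β v j) j

include hS

lemma pt_left (v : Vert L) (j : Fin (q + 1)) (i : Fin n) :
    Fin.castAdd (q + 1) i ∈ tight (eA L.A β) (eb L.b) (pt L β v j) ↔ i ∈ tight L.A L.b v.1 := by
  rw [tight_left hS.b0, pt, XX_mk, sum_lam_mk]
  by_cases hi : i ∈ tight L.A L.b v.1
  · rw [row_xv L β v j hi]
    simp [hi]
  · simp only [hi, iff_false]
    exact (hS.slack v i hi j).ne

omit hS in
lemma pt_right (v : Vert L) (j j' : Fin (q + 1)) :
    Fin.natAdd n j' ∈ tight (eA L.A β) (eb L.b) (pt L β v j) ↔ j' ≠ j := by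
  rw [tight_right, pt, lam_mk]
  by_cases h : j = j'
  · simp [h]
  · simp [h, Ne.symm h]

lemma tight_pt (v : Vert L) (j : Fin (q + 1)) :
    tight (eA L.A β) (eb L.b) (pt L β v j) =
      (tight L.A L.b v.1).map (Fin.castAddEmb (q + 1)) ∪
        (Finset.univ.erase j).map (Fin.natAddEmb n) := by
  ext i
  rw [Finset.mem_union, Finset.mem_map, Finset.mem_map]
  induction i using Fin.addCases with
  | left i =>
    rw [pt_left hS]
    constructor
    · intro h
      exact Or.inl ⟨i, h, rfl⟩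
    · rintro (⟨i', h, h'⟩ | ⟨j', h, h'⟩)
      · have : i' = i := by
          apply Fin.castAdd_injective n (q + 1)
          exact h'
        rwa [← this]
      · exfalso
        have := congrArg Fin.val h'
        simp at this
        omega
  | right j' =>
    rw [pt_right]
    constructor
    · intro h
      exact Or.inr ⟨j', Finset.mem_erase.mpr ⟨h, Finset.mem_univ _⟩, rfl⟩
    · rintro (⟨i', h, h'⟩ | ⟨j'', h, h'⟩)
      · exfalso
        have := congrArg Fin.val h'
        simp at this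
        omega
      · have : j'' = j' := by
          apply Fin.natAdd_injective (q + 1) n
          exact h'
        rw [← this]
        exact (Finset.mem_erase.mp h).1

lemma card_pt (v : Vert L) (j : Fin (q + 1)) :
    (tight (eA L.A β) (eb L.b) (pt L β v j)).card = d + q := by
  rw [tight_pt hS, Finset.card_union_of_disjoint, Finset.card_map, Finset.card_map,
    L.simple _ v.2, Finset.card_erase_of_mem (Finset.mem_univ _), Finset.card_univ,
    Fintype.card_fin, Nat.add_sub_cancel]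
  rw [Finset.disjoint_left]
  intro a ha hb
  rw [Finset.mem_map] at ha hb
  obtain ⟨i, -, rfl⟩ := ha
  obtain ⟨j', -, h'⟩ := hb
  have := congrArg Fin.val h'
  simp at this
  omega

lemma pt_mem (v : Vert L) (j : Fin (q + 1)) : pt L β v j ∈ poly (eA L.A β) (eb L.b) := by
  rw [mem_poly hS.b0]
  refine ⟨fun i => ?_, fun j' => ?_⟩
  · rw [pt, XX_mk, sum_lam_mk]
    by_cases hi : i ∈ tight L.A L.b v.1
    · rw [row_xv L β v j hi]
      linarith
    · exact (hS.slack v i hi j).le
  · rw [pt, lam_mk]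
    split_ifs <;> norm_num

lemma pt_ext (v : Vert L) (j : Fin (q + 1)) :
    pt L β v j ∈ (poly (eA L.A β) (eb L.b)).extremePoints ℝ := by
  apply ker_ext (pt_mem hS v j)
  intro u hu
  have hZ : ∀ j', ZZ u j' = 0 := ZZ_eq_zero (A := L.A) (β := β) (j := j) fun j' hj' =>
    hu _ ((pt_right v j j').mpr hj')
  apply eq_zero_of_blocks _ hZ
  apply ext_ker v.2
  intro i hi
  have := hu _ ((pt_left hS v j i).mpr hi)
  rw [row_left] at this
  have h0 : ∑ j : Fin q, ZZ u j * β j.succ i = 0 :=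
    Finset.sum_eq_zero fun j _ => by rw [hZ j, zero_mul]
  rwa [h0, add_zero] at this

lemma pt_inj {v v' : Vert L} {j j' : Fin (q + 1)} (h : pt L β v j = pt L β v' j') :
    v = v' ∧ j = j' := by
  have hj : j = j' := by
    by_contra hne
    have h1 : Fin.natAdd n j ∈ tight (eA L.A β) (eb L.b) (pt L β v' j') :=
      (pt_right v' j' j).mpr hne
    rw [← h] at h1
    exact (pt_right v j j).mp h1 rfl
  refine ⟨?_, hj⟩
  subst hj
  apply Subtype.ext
  apply eq_of_tight v'.2
  intro i hi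
  rw [← pt_left hS v j i, h, pt_left hS]
  exact hi

/-- neighbours in the first factor -/
lemma pt_nbV (v : Vert L) (j : Fin (q + 1)) {i : Fin n} (hi : i ∈ tight L.A L.b v.1) :
    pt L β (nbV L v i) j ≠ pt L β v j ∧
    (tight (eA L.A β) (eb L.b) (pt L β v j)).erase (Fin.castAdd (q + 1) i) ⊆
      tight (eA L.A β) (eb L.b) (pt L β (nbV L v i) j) := by
  constructor
  · intro h
    have h1 := (pt_inj hS h).1
    exact (nb_spec L v i hi).1 (congrArg Subtype.val h1)
  · intro a ha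
    rw [Finset.mem_erase] at ha
    induction a using Fin.addCases with
    | left i' =>
      rw [pt_left hS]
      apply erase_sub_nb L v i hi
      rw [Finset.mem_erase]
      refine ⟨fun h => ha.1 (by rw [h]), (pt_left hS v j i').mp ha.2⟩
    | right j' =>
      rw [pt_right]
      exact (pt_right v j j').mp ha.2

/-- neighbours in the second factor -/
lemma pt_nbJ (v : Vert L) {j j' : Fin (q + 1)} (hj : j' ≠ j) :
    pt L β v j' ≠ pt L β v j ∧
    (tight (eA L.A β) (eb L.b) (pt L β v j)).erase (Fin.natAdd n j') ⊆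
      tight (eA L.A β) (eb L.b) (pt L β v j') := by
  constructor
  · intro h
    exact hj (pt_inj hS h).2
  · intro a ha
    rw [Finset.mem_erase] at ha
    induction a using Fin.addCases with
    | left i' =>
      rw [pt_left hS]
      exact (pt_left hS v j i').mp ha.2
    | right j'' =>
      rw [pt_right]
      intro h
      exact ha.1 (by rw [h])

/-- all vertices -/
lemma ext_eq {w : Fin (d + q) → ℝ} (hw : w ∈ (poly (eA L.A β) (eb L.b)).extremePoints ℝ) :
    ∃ v j, w = pt L β v j := by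
  have h := mem_of_closed (A := eA L.A β) (b := eb L.b)
    (S := Set.range fun p : Vert L × Fin (q + 1) => pt L β p.1 p.2) (Set.finite_range _)
    ⟨_, ⟨(⟨L.v₀, L.start⟩, 0), rfl⟩⟩ ?_ ?_ ?_ hw
  · obtain ⟨p, hp⟩ := h
    exact ⟨p.1, p.2, hp.symm⟩
  · rintro _ ⟨p, rfl⟩
    exact pt_ext hS p.1 p.2
  · rintro _ ⟨p, rfl⟩
    exact card_pt hS p.1 p.2
  · rintro _ ⟨⟨v, j⟩, rfl⟩ a ha
    simp only at ha ⊢
    induction a using Fin.addCases with
    | left i =>
      rw [pt_left hS] at ha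
      exact ⟨_, ⟨(nbV L v i, j), rfl⟩, pt_nbV hS v j ha⟩
    | right j' =>
      rw [pt_right] at ha
      exact ⟨_, ⟨(v, j'), rfl⟩, pt_nbJ hS v ha⟩

end Ext

end Pool.Agent.FewFacets
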