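import Pool.Agent.FewFacets.ExtB

/-!
# The deformed product of a polytope with a simplex: the instance
-/

open scoped ENNReal Topology
open Matrix Filter Pool.Agent.Hhelper78.RandomEdge

namespace Pool.Agent.FewFacets

namespace Ext

variable {d n q : ℕ} {L : LPInstance d n} {β : Fin (q + 1) → Fin n → ℝ}
  {γ : Fin (q + 1) → ℝ} {x₀ : Fin d → ℝ} (hS : Small L β γ x₀)

lemma row_left_mk {A : Matrix (Fin n) (Fin d) ℝ} (hβ : β 0 = 0) (x : Fin d → ℝ)
    (j : Fin (q + 1)) (i : Fin n) :
    eA A β (Fin.castAdd (q + 1) i) ⬝ᵥ mk x j = A i ⬝ᵥ x + β j i := by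
  rw [row_left, ← lam_beta hβ, XX_mk, sum_lam_mk]

/-- the height of the element `j` at `v` -/
noncomputable def hgt (L : LPInstance d n) (β : Fin (q + 1) → Fin n → ℝ) (γ : Fin (q + 1) → ℝ)
    (v : Vert L) (j : Fin (q + 1)) : ℝ := L.c ⬝ᵥ xv L β v j + γ j

open Classical in
/-- the elements above `j` at `v` -/
noncomputable def Up (L : LPInstance d n) (β : Fin (q + 1) → Fin n → ℝ) (γ : Fin (q + 1) → ℝ)
    (v : Vert L) (j : Fin (q + 1)) : Finset (Fin (q + 1)) :=
  Finset.univ.filter fun j' => hgt L β γ v j < hgt L β γ v j'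

include hS

lemma bounded : Bornology.IsBounded (poly (eA L.A β) (eb L.b)) := by
  classical
  have hdual := fun a => exists_dual_rep L.bounded L.simple ⟨L.v₀, L.start⟩ a
  choose μ hμ0 hμ using hdual
  set B : Fin n → ℝ := fun i => L.b i + ∑ j, |β j i| with hB
  set hi' : Fin d → ℝ := fun l => ∑ i, μ (Pi.single l 1) i * B i with hhi
  set lo' : Fin d → ℝ := fun l => -∑ i, μ (Pi.single l (-1)) i * B i with hlo
  have hsub : poly (eA L.A β) (eb L.b) ⊆
      Set.Icc (Fin.append lo' (fun _ => (0 : ℝ)) : Fin (d + q) → ℝ)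
        (Fin.append hi' (fun _ => (1 : ℝ))) := by
    intro w hw
    rw [mem_poly hS.b0] at hw
    have hl1 : ∀ j, lam w j ≤ 1 := by
      intro j
      rw [← lam_sum w]
      exact Finset.single_le_sum (f := lam w) (fun j _ => hw.2 j) (Finset.mem_univ j)
    have hrow : ∀ i, L.A i ⬝ᵥ XX w ≤ B i := by
      intro i
      have h1 := hw.1 i
      have h2 : -∑ j, |β j i| ≤ ∑ j, lam w j * β j i := by
        rw [← Finset.sum_neg_distrib]
        refine Finset.sum_le_sum fun j _ => ?_
        have h3 := hw.2 j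
        have h4 := hl1 j
        have h5 := neg_abs_le (β j i)
        have h6 := abs_nonneg (β j i)
        nlinarith
      rw [hB]
      simp only
      linarith
    constructor
    · intro a
      induction a using Fin.addCases with
      | left l =>
        rw [Fin.append_left, hlo]
        have h1 := hμ (Pi.single l (-1)) (XX w)
        rw [single_dotProduct] at h1
        have h2 : ∑ i, μ (Pi.single l (-1)) i * (L.A i ⬝ᵥ XX w) ≤
            ∑ i, μ (Pi.single l (-1)) i * B i :=
          Finset.sum_le_sum fun i _ => mul_le_mul_of_nonneg_left (hrow i) (hμ0 _ i)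
        have h3 : w (Fin.castAdd q l) = XX w l := rfl
        rw [h3]
        simp only
        linarith
      | right j =>
        rw [Fin.append_right]
        exact hw.2 j.succ
    · intro a
      induction a using Fin.addCases with
      | left l =>
        rw [Fin.append_left, hhi]
        have h1 := hμ (Pi.single l 1) (XX w)
        rw [single_dotProduct] at h1
        have h2 : ∑ i, μ (Pi.single l 1) i * (L.A i ⬝ᵥ XX w) ≤
            ∑ i, μ (Pi.single l 1) i * B i :=
          Finset.sum_le_sum fun i _ => mul_le_mul_of_nonneg_left (hrow i) (hμ0 _ i)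
        have h3 : w (Fin.castAdd q l) = XX w l := rfl
        rw [h3]
        simp only
        linarith
      | right j =>
        rw [Fin.append_right]
        exact hl1 j.succ
  exact (Metric.isBounded_Icc _ _).subset hsub

lemma fullDim : (interior (poly (eA L.A β) (eb L.b))).Nonempty := by
  have hq1 : (0 : ℝ) < q + 1 := by positivity
  set w : Fin (d + q) → ℝ := Fin.append x₀ (fun _ => 1 / ((q : ℝ) + 1)) with hw
  have hX : XX w = x₀ := by
    funext i
    unfold XX
    rw [hw, Fin.append_left]
  have hZ : ∀ j, ZZ w j = 1 / ((q : ℝ) + 1) := by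
    intro j
    unfold ZZ
    rw [hw, Fin.append_right]
  have hlam : ∀ j, lam w j = 1 / ((q : ℝ) + 1) := by
    intro j
    induction j using Fin.cases with
    | zero =>
      rw [lam_zero]
      simp only [hZ]
      rw [Finset.sum_const, Finset.card_univ, Fintype.card_fin, nsmul_eq_mul]
      field_simp
      ring
    | succ j => rw [lam_succ, hZ]
  have hopen : IsOpen {w : Fin (d + q) → ℝ | ∀ i, eA L.A β i ⬝ᵥ w < eb L.b i} := by
    rw [Set.ofPred_forall]
    refine isOpen_iInter_of_finite fun i => ?_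
    exact isOpen_lt (by unfold dotProduct; fun_prop) continuous_const
  refine ⟨w, ?_⟩
  rw [mem_interior]
  refine ⟨_, fun w hw i => (hw i).le, hopen, ?_⟩
  intro i
  induction i using Fin.addCases with
  | left i =>
    rw [row_left, eb_left, ← lam_beta hS.b0, hX]
    simp only [hlam]
    have h1 : ∑ j : Fin (q + 1), 1 / ((q : ℝ) + 1) * (L.A i ⬝ᵥ x₀ + β j i) <
        ∑ _j : Fin (q + 1), 1 / ((q : ℝ) + 1) * L.b i := by
      apply Finset.sum_lt_sum_of_nonempty Finset.univ_nonempty
      intro j _
      exact mul_lt_mul_of_pos_left (hS.int1 i j) (by positivity)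
    rw [Finset.sum_const, Finset.card_univ, Fintype.card_fin, nsmul_eq_mul] at h1
    simp only [mul_add, Finset.sum_add_distrib, Finset.sum_const, Finset.card_univ,
      Fintype.card_fin, nsmul_eq_mul] at h1
    push_cast at h1
    have h2 : ((q : ℝ) + 1) * (1 / ((q : ℝ) + 1) * (L.A i ⬝ᵥ x₀)) = L.A i ⬝ᵥ x₀ := by
      field_simp
    have h3 : ((q : ℝ) + 1) * (1 / ((q : ℝ) + 1) * L.b i) = L.b i := by
      field_simp
    rw [h2, h3] at h1
    exact h1
  | right j =>
    have := slack_right (A := L.A) (b := L.b) (β := β) w j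
    rw [hlam] at this
    have h1 : 0 < 1 / ((q : ℝ) + 1) := by positivity
    rw [← this] at h1
    exact sub_pos.mp h1

lemma irredundant (i : Fin (n + (q + 1))) : ∃ x, (∀ j, j ≠ i → eA L.A β j ⬝ᵥ x ≤ eb L.b j) ∧
    eb L.b i < eA L.A β i ⬝ᵥ x := by
  induction i using Fin.addCases with
  | left i =>
    obtain ⟨x, hx, hxi⟩ := L.irredundant i
    refine ⟨mk x 0, fun a ha => ?_, ?_⟩
    · induction a using Fin.addCases with
      | left l =>
        rw [row_left_mk hS.b0, eb_left, hS.b0]
        have := hx l (fun h => ha (by rw [h]))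
        simpa using this
      | right j =>
        have h1 := slack_right (A := L.A) (b := L.b) (β := β) (mk x 0) j
        have h2 : 0 ≤ lam (mk x (0 : Fin (q + 1))) j := by
          rw [lam_mk]; split_ifs <;> norm_num
        rw [← h1] at h2
        exact sub_nonneg.mp h2
    · rw [row_left_mk hS.b0, eb_left, hS.b0]
      simpa using hxi
  | right j =>
    have hq := hS.hq
    obtain ⟨j₁, hj₁⟩ : ∃ j₁ : Fin (q + 1), j₁ ≠ j := by
      by_cases h : j = 0
      · exact ⟨⟨1, by omega⟩, by rw [h]; intro h'; exact absurd (congrArg Fin.val h') (by simp)⟩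
      · exact ⟨0, fun h' => h h'.symm⟩
    refine ⟨(2 : ℝ) • mk x₀ j₁ - mk x₀ j, fun a ha => ?_, ?_⟩
    · rw [dotProduct_sub, dotProduct_smul, smul_eq_mul]
      induction a using Fin.addCases with
      | left l =>
        rw [row_left_mk hS.b0, row_left_mk hS.b0, eb_left]
        have := hS.int2 l j j₁
        linarith
      | right j' =>
        have h1 := slack_right (A := L.A) (b := L.b) (β := β) (mk x₀ j₁) j'
        have h2 := slack_right (A := L.A) (b := L.b) (β := β) (mk x₀ j) j'
        rw [lam_mk] at h1 h2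
        have h3 : j ≠ j' := fun h => ha (by rw [h])
        rw [if_neg h3] at h2
        have h4 : (0 : ℝ) ≤ if j₁ = j' then 1 else 0 := by split_ifs <;> norm_num
        linarith
    · rw [dotProduct_sub, dotProduct_smul, smul_eq_mul]
      have h1 := slack_right (A := L.A) (b := L.b) (β := β) (mk x₀ j₁) j
      have h2 := slack_right (A := L.A) (b := L.b) (β := β) (mk x₀ j) j
      rw [lam_mk] at h1 h2
      rw [if_neg hj₁] at h1
      rw [if_pos rfl] at h2
      linarith

/-- the value at a vertex -/
lemma val_pt (v : Vert L) (j : Fin (q + 1)) :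
    (Fin.append L.c (fun j' : Fin q => γ j'.succ)) ⬝ᵥ pt L β v j = L.c ⬝ᵥ xv L β v j + γ j := by
  rw [pt, dot_mk _ _ hS.g0]

lemma nb_unique' (v : Vert L) (j : Fin (q + 1)) {a : Fin (n + (q + 1))}
    {w w' : Fin (d + q) → ℝ} (ha : a ∈ tight (eA L.A β) (eb L.b) (pt L β v j))
    (hw : w ∈ (poly (eA L.A β) (eb L.b)).extremePoints ℝ)
    (hw' : w' ∈ (poly (eA L.A β) (eb L.b)).extremePoints ℝ) (hne : w ≠ pt L β v j)
    (hne' : w' ≠ pt L β v j)
    (h : (tight (eA L.A β) (eb L.b) (pt L β v j)).erase a ⊆ tight (eA L.A β) (eb L.b) w)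
    (h' : (tight (eA L.A β) (eb L.b) (pt L β v j)).erase a ⊆ tight (eA L.A β) (eb L.b) w') :
    w = w' :=
  nbr_unique (pt_ext hS v j) (card_pt hS v j) ha hw hw' hne hne' h h'

lemma generic (v w : Fin (d + q) → ℝ) (h : Adj (poly (eA L.A β) (eb L.b)) v w) :
    (Fin.append L.c (fun j' : Fin q => γ j'.succ)) ⬝ᵥ v ≠
      (Fin.append L.c (fun j' : Fin q => γ j'.succ)) ⬝ᵥ w := by
  obtain ⟨v', j, rfl⟩ := ext_eq hS h.1
  obtain ⟨a, ha, hsub⟩ := tight_of_adj (card_pt hS v' j) h
  induction a using Fin.addCases with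
  | left i =>
    have hi := (pt_left hS v' j i).mp ha
    have h1 := pt_nbV hS v' j hi
    have h2 := nb_unique' hS v' j ha h.2.1 (pt_ext hS _ _) h.2.2.1.symm h1.1 hsub h1.2
    rw [h2, val_pt hS, val_pt hS]
    have h3 := L.generic _ _ (adj_nb L v' i hi)
    rcases lt_or_gt_of_ne h3 with h4 | h4
    · have := hS.mono v' (nbV L v' i) h4 j
      intro h5; linarith
    · have := hS.mono (nbV L v' i) v' h4 j
      intro h5; linarith
  | right j' =>
    have hj := (pt_right v' j j').mp ha
    have h1 := pt_nbJ hS v' hj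
    have h2 := nb_unique' hS v' j ha h.2.1 (pt_ext hS _ _) h.2.2.1.symm h1.1 hsub h1.2
    rw [h2, val_pt hS, val_pt hS]
    exact hS.tie v' j j' hj.symm

omit hS in
/-- The instance. -/
noncomputable def inst (hS : Small L β γ x₀) : LPInstance (d + q) (n + (q + 1)) where
  A := eA L.A β
  b := eb L.b
  c := Fin.append L.c (fun j' : Fin q => γ j'.succ)
  v₀ := pt L β ⟨L.v₀, L.start⟩ 0
  bounded := bounded hS
  fullDim := fullDim hS
  irredundant := irredundant hS
  simple := by
    intro w hw
    obtain ⟨v, j, rfl⟩ := ext_eq hS hw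
    exact card_pt hS v j
  generic := generic hS
  start := pt_ext hS _ _

omit hS in
/-- the vertex `(v, j)` -/
noncomputable def vt (hS : Small L β γ x₀) (v : Vert L) (j : Fin (q + 1)) : Vert (inst hS) :=
  ⟨pt L β v j, pt_ext hS v j⟩

lemma nbV_left (v : Vert L) (j : Fin (q + 1)) {i : Fin n} (hi : i ∈ tight L.A L.b v.1) :
    nbV (inst hS) (vt hS v j) (Fin.castAdd (q + 1) i) = vt hS (nbV L v i) j := by
  have h1 := pt_nbV hS v j hi
  exact nb_eq (inst hS) (vt hS v j) (vt hS (nbV L v i) j) (Fin.castAdd (q + 1) i)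
    ((pt_left hS v j i).mpr hi) h1.1 h1.2

lemma nbV_right (v : Vert L) {j j' : Fin (q + 1)} (hj : j' ≠ j) :
    nbV (inst hS) (vt hS v j) (Fin.natAdd n j') = vt hS v j' := by
  have h1 := pt_nbJ hS v hj
  exact nb_eq (inst hS) (vt hS v j) (vt hS v j') (Fin.natAdd n j')
    ((pt_right v j j').mpr hj) h1.1 h1.2

lemma outV_eq (v : Vert L) (j : Fin (q + 1)) :
    outV (inst hS) (vt hS v j) =
      (outV L v).map (Fin.castAddEmb (q + 1)) ∪ (Up L β γ v j).map (Fin.natAddEmb n) := by
  classical
  ext a
  rw [Finset.mem_union, Finset.mem_map, Finset.mem_map, mem_outV]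
  have hval : ∀ v' j', (inst hS).c ⬝ᵥ (vt hS v' j').1 = hgt L β γ v' j' := fun v' j' =>
    val_pt hS v' j'
  induction a using Fin.addCases with
  | left i =>
    have hin : Fin.castAdd (q + 1) i ∈ tight (inst hS).A (inst hS).b (vt hS v j).1 ↔
        i ∈ tight L.A L.b v.1 := pt_left hS v j i
    rw [hin]
    constructor
    · rintro ⟨h1, h2⟩
      refine Or.inl ⟨i, ?_, rfl⟩
      rw [mem_outV]
      refine ⟨h1, ?_⟩
      rw [nbV_left hS v j h1, hval, hval] at h2
      have h3 := L.generic _ _ (adj_nb L v i h1)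
      rcases lt_or_gt_of_ne h3 with h4 | h4
      · exact h4
      · have := hS.mono (nbV L v i) v h4 j
        unfold hgt at h2
        linarith
    · rintro (⟨i', h, h'⟩ | ⟨j', h, h'⟩)
      · have : i' = i := by
          apply Fin.castAdd_injective n (q + 1)
          exact h'
        subst this
        rw [mem_outV] at h
        refine ⟨h.1, ?_⟩
        rw [nbV_left hS v j h.1, hval, hval]
        have := hS.mono v (nbV L v i') h.2 j
        unfold hgt
        linarith
      · exfalso
        have := congrArg Fin.val h'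
        simp at this
        omega
  | right j' =>
    have hin : Fin.natAdd n j' ∈ tight (inst hS).A (inst hS).b (vt hS v j).1 ↔
        j' ≠ j := pt_right v j j'
    rw [hin]
    constructor
    · rintro ⟨h1, h2⟩
      refine Or.inr ⟨j', ?_, rfl⟩
      rw [nbV_right hS v h1, hval, hval] at h2
      exact Finset.mem_filter.mpr ⟨Finset.mem_univ _, h2⟩
    · rintro (⟨i', h, h'⟩ | ⟨j'', h, h'⟩)
      · exfalso
        have := congrArg Fin.val h'
        simp at this
        omega
      · have : j'' = j' := by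
          apply Fin.natAdd_injective (q + 1) n
          exact h'
        subst this
        have h2 := (Finset.mem_filter.mp h).2
        have h3 : j'' ≠ j := by
          rintro rfl
          exact lt_irrefl _ h2
        refine ⟨h3, ?_⟩
        rw [nbV_right hS v h3, hval, hval]
        exact h2

/-- **Subsolutions for the deformed product.** -/
theorem inst_lower (φ : Vert L → Fin (q + 1) → ℝ) (h0 : ∀ v j, 0 ≤ φ v j)
    (hsink : ∀ v j, outV L v = ∅ → Up L β γ v j = ∅ → φ v j = 0)
    (h : ∀ v j, ((outV L v).card + (Up L β γ v j).card : ℝ) * φ v j ≤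
      (outV L v).card + (Up L β γ v j).card + ∑ g ∈ outV L v, φ (nbV L v g) j +
        ∑ j' ∈ Up L β γ v j, φ v j') :
    ENNReal.ofReal (φ ⟨L.v₀, L.start⟩ 0) ≤ (inst hS).expectedSteps := by
  classical
  have hex : ∀ p : Vert (inst hS), ∃ vj : Vert L × Fin (q + 1), p = vt hS vj.1 vj.2 := by
    intro p
    obtain ⟨v, j, hp⟩ := ext_eq hS p.2
    exact ⟨(v, j), Subtype.ext hp⟩
  choose g hg using hex
  set φ' : Vert (inst hS) → ℝ := fun p => φ (g p).1 (g p).2 with hφ'
  have hφ : ∀ v j, φ' (vt hS v j) = φ v j := by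
    intro v j
    have h1 := hg (vt hS v j)
    have h2 := pt_inj hS (congrArg Subtype.val h1)
    rw [hφ']
    simp only
    rw [← h2.1, ← h2.2]
  have hdisj : ∀ v j, Disjoint ((outV L v).map (Fin.castAddEmb (q + 1)))
      ((Up L β γ v j).map (Fin.natAddEmb n)) := by
    intro v j
    rw [Finset.disjoint_left]
    intro a ha hb
    rw [Finset.mem_map] at ha hb
    obtain ⟨i, -, rfl⟩ := ha
    obtain ⟨j', -, h'⟩ := hb
    have := congrArg Fin.val h'
    simp at this
    omega
  have hcard : ∀ v j, ((outV (inst hS) (vt hS v j)).card : ℝ) =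
      (outV L v).card + (Up L β γ v j).card := by
    intro v j
    rw [outV_eq, Finset.card_union_of_disjoint (hdisj v j), Finset.card_map, Finset.card_map]
    push_cast
    ring
  have hmain := le_expectedSteps_real (inst hS) φ' (fun p => h0 _ _) ?_ ?_
  · have h1 : (⟨(inst hS).v₀, (inst hS).start⟩ : Vert (inst hS)) =
        vt hS ⟨L.v₀, L.start⟩ 0 := rfl
    rw [h1, hφ] at hmain
    exact hmain
  · intro p hp
    have h1 := hg p
    rw [h1, hφ]
    apply hsink
    · rw [h1, outV_eq, Finset.union_eq_empty, Finset.map_eq_empty] at hp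
      exact hp.1
    · rw [h1, outV_eq, Finset.union_eq_empty, Finset.map_eq_empty, Finset.map_eq_empty] at hp
      exact hp.2
  · intro p
    have h1 := hg p
    set v := (g p).1
    set j := (g p).2
    rw [h1, hφ, hcard]
    have h2 : ∑ a ∈ outV (inst hS) (vt hS v j), φ' (nbV (inst hS) (vt hS v j) a) =
        ∑ i ∈ outV L v, φ (nbV L v i) j + ∑ j' ∈ Up L β γ v j, φ v j' := by
      rw [outV_eq, Finset.sum_union (hdisj v j), Finset.sum_map, Finset.sum_map]
      congr 1
      · refine Finset.sum_congr rfl fun i hi => ?_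
        have h3 : (Fin.castAddEmb (q + 1)) i = Fin.castAdd (q + 1) i := rfl
        rw [h3, nbV_left hS v j ((mem_outV L).mp hi).1, hφ]
      · refine Finset.sum_congr rfl fun j' hj' => ?_
        have h3 : (Fin.natAddEmb n) j' = Fin.natAdd n j' := rfl
        have h4 : j' ≠ j := by
          rintro rfl
          exact lt_irrefl _ (Finset.mem_filter.mp hj').2
        rw [h3, nbV_right hS v h4, hφ]
    rw [h2]
    have := h v j
    linarith

end Ext

end Pool.Agent.FewFacets
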