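import Pool.Agent.FewFacets.Hold

/-!
# Exit from a good configuration
-/

namespace Pool.Agent.FewFacets

namespace Sys

variable {α σ : Type} [DecidableEq α] {S : Sys α σ}

/-- `W` is dead: few elements of `G \ V` block all states with basis in `H ∪ W ∪ (G \ V)` of value
at least `lo`. -/
def Dead (S : Sys α σ) (H V G : Finset α) (lo t : ℝ) (W : Finset α) : Prop :=
  ∃ Z, Z ⊆ G \ V ∧ (Z.card : ℝ) ≤ t ∧
    ∀ B, S.bas B ⊆ H ∪ W ∪ ((G \ V) \ Z) → S.val B < lo

/-- `W` is medium: neither dead nor strong. -/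
def Med (S : Sys α σ) (H V G : Finset α) (d : ℕ) (lo hi t : ℝ) (W : Finset α) : Prop :=
  ¬ S.Dead H V G lo t W ∧ ¬ S.Rob (H ∪ W) (G \ V) (2 ^ (d + 1) * t) hi

lemma one_sub_pow_ge {y : ℝ} (h0 : 0 ≤ y) (h1 : y ≤ 1 / 2) (T : ℕ) :
    Real.exp (-(2 * y * T)) ≤ (1 - y) ^ T := by
  have h2 : Real.exp (-(2 * y)) ≤ 1 - y := by
    rw [Real.exp_neg, inv_le_comm₀ (Real.exp_pos _) (by linarith)]
    have h3 := Real.add_one_le_exp (2 * y)
    refine le_trans ?_ h3
    rw [inv_eq_one_div, div_le_iff₀ (by linarith)]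
    nlinarith
  calc Real.exp (-(2 * y * T)) = Real.exp (-(2 * y)) ^ T := by
        rw [← Real.exp_nat_mul]; congr 1; ring
    _ ≤ _ := pow_le_pow_left₀ (Real.exp_pos _).le h2 T

lemma good_exit {C : ℝ} {d : ℕ} (hd : 0 < d) (hA : ∀ d' < d, ClaimA S C d') (hC : 0 ≤ C)
    {H V G : Finset α} {N s hi lo c₀ t : ℝ} (hk : S.k ≤ H.card + d)
    (h6 : 6 * (G.card : ℝ) ≤ N) (hN : 0 < N) (hs : 0 < s) (hrob : S.Rob H G s hi) (hVG : V ⊆ G)
    (hV2 : (V.card : ℝ) ≤ 2 * s) (hV : ∀ B, S.bas B ⊆ H ∪ (G \ V) → S.val B ≤ c₀)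
    (hlo : c₀ < lo) (ht : 0 < t) (hts : 2 ^ d * t ≤ s) (Zf : Finset α → Finset α)
    (hZf : ∀ W, S.Dead H V G lo t W → Zf W ⊆ G \ V ∧ ((Zf W).card : ℝ) ≤ t ∧
      ∀ B, S.bas B ⊆ H ∪ W ∪ ((G \ V) \ Zf W) → S.val B < lo)
    (B : σ) (R : Finset α) (hB : S.al H hi B) (hBlo : lo ≤ S.val B) (hBR : S.bas B \ H ⊆ R)
    (hRG : R ⊆ G) (hmed : ∀ W, W ⊆ V → W ⊆ R → ¬ S.Med H V G d lo hi t W)
    (hdead : ∀ W, W ⊆ V → W ⊆ R → S.Dead H V G lo t W → Disjoint (Zf W) R)
    (T : ℕ) (hT0 : 0 < T) (hT : 2 * (d * (C * (N / (2 ^ d * t)))) ≤ T) :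
    kx S.stp G N (S.al H hi) (fun _ => 1) T B ≤ 1 - 1 / 2 * Real.exp (-(6 * s * T / N)) := by
  classical
  have hGN : (G.card : ℝ) < N ∨ N ≤ G.card := lt_or_ge _ _
  have hG0 : (0 : ℝ) ≤ G.card := by positivity
  have hGN : (G.card : ℝ) < N := by
    rcases hGN with h | h
    · exact h
    · linarith
  -- s ≤ N / 6
  have hsG : s ≤ G.card := by
    refine (rob_viol hrob hB).trans ?_
    exact_mod_cast Finset.card_le_card Finset.inter_subset_right
  set W0 := S.fr H V B with hW0
  have hW0V : W0 ⊆ V := fun a ha => (mem_fr.mp ha).2.2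
  have hW0R : W0 ⊆ R := fun a ha => hBR (Finset.mem_sdiff.mpr ⟨(mem_fr.mp ha).1, (mem_fr.mp ha).2.1⟩)
  have hW0d : W0.card ≤ d := card_fr hk hB.1
  set D := W0.powerset.filter fun W => S.Dead H V G lo t W with hD
  set Z := D.biUnion Zf with hZ
  have hZG : Z ⊆ G \ V := by
    rw [hZ, Finset.biUnion_subset]
    intro W hW
    exact (hZf W (Finset.mem_filter.mp hW).2).1
  have hZc : (Z.card : ℝ) ≤ 2 ^ d * t := by
    have h1 : (Z.card : ℝ) ≤ ∑ W ∈ D, ((Zf W).card : ℝ) := by
      exact_mod_cast Finset.card_biUnion_le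
    have h2 : ∑ W ∈ D, ((Zf W).card : ℝ) ≤ D.card * t := by
      rw [← nsmul_eq_mul]
      exact Finset.sum_le_card_nsmul D _ t fun W hW => (hZf W (Finset.mem_filter.mp hW).2).2.1
    have h3 : (D.card : ℝ) ≤ 2 ^ d := by
      have h4 : D.card ≤ 2 ^ d := by
        calc D.card ≤ W0.powerset.card := Finset.card_filter_le _ _
          _ = 2 ^ W0.card := Finset.card_powerset _
          _ ≤ 2 ^ d := Nat.pow_le_pow_right (by norm_num) hW0d
      exact_mod_cast h4
    nlinarith
  set Y := V ∪ Z with hY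
  have hYG : Y ⊆ G := Finset.union_subset hVG (hZG.trans Finset.sdiff_subset)
  have hYc : (Y.card : ℝ) ≤ 3 * s := by
    have : (Y.card : ℝ) ≤ V.card + Z.card := by exact_mod_cast Finset.card_union_le V Z
    linarith
  have hY0 : (0 : ℝ) ≤ Y.card := by positivity
  have hGY : ((G \ Y).card : ℝ) = G.card - Y.card := by
    rw [Finset.card_sdiff_of_subset hYG, Nat.cast_sub (Finset.card_le_card hYG)]
  have hYcG : (Y.card : ℝ) ≤ G.card := by exact_mod_cast Finset.card_le_card hYG
  have hN2 : 0 < N - Y.card := by linarith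
  have hVZ : G \ Y = (G \ V) \ Z := by
    rw [hY, Finset.sdiff_union_distrib]
    ext a
    simp only [Finset.mem_inter, Finset.mem_sdiff]
    tauto
  have hpow : (0 : ℝ) < 2 ^ d := by positivity
  have hhold := hold (S := S) hd hA hC (H := H) (V := V) (G₂ := G \ Y) (K := S.bas B ∪ (G \ Y))
    (N₂ := N - Y.card) (σ' := 2 ^ d * t) (hi := hi) (lo := lo) hk (by rw [hGY]; linarith) hN2
    (by positivity) Finset.subset_union_right
    (by
      rw [Finset.disjoint_left]
      intro a ha h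
      exact (Finset.mem_sdiff.mp ha).2 (Finset.mem_union_left _ h))
    (by
      intro B₂ hK hH hl hh
      set W := S.fr H V B₂ with hW
      have hWW0 : W ⊆ W0 := by
        intro a ha
        rw [hW, mem_fr] at ha
        rw [hW0, mem_fr]
        refine ⟨?_, ha.2⟩
        have h1 := hK ha.1
        rw [Finset.mem_union] at h1
        rcases h1 with h1 | h1
        · exact h1
        · exact absurd (Finset.mem_union_left Z ha.2.2) (Finset.mem_sdiff.mp h1).2
      have hWV := hWW0.trans hW0V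
      have hWR := hWW0.trans hW0R
      have hnd : ¬ S.Dead H V G lo t W := by
        intro hdd
        have h1 := (hZf W hdd).2.2 B₂ (by
          intro a ha
          by_cases haH : a ∈ H
          · exact Finset.mem_union_left _ (Finset.mem_union_left _ haH)
          by_cases haV : a ∈ V
          · refine Finset.mem_union_left _ (Finset.mem_union_right _ ?_)
            rw [hW, mem_fr]
            exact ⟨ha, haH, haV⟩
          refine Finset.mem_union_right _ ?_
          have h2 := hK ha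
          rw [Finset.mem_union] at h2
          rw [Finset.mem_sdiff, Finset.mem_sdiff]
          rcases h2 with h2 | h2
          · have h3 : a ∈ R := hBR (Finset.mem_sdiff.mpr ⟨h2, haH⟩)
            refine ⟨⟨hRG h3, haV⟩, fun h4 => ?_⟩
            exact Finset.disjoint_left.mp (hdead W hWV hWR hdd) h4 h3
          · rw [Finset.mem_sdiff] at h2
            refine ⟨⟨h2.1, haV⟩, fun h4 => h2.2 ?_⟩
            refine Finset.mem_union_right _ ?_
            rw [hZ, Finset.mem_biUnion]
            exact ⟨W, Finset.mem_filter.mpr ⟨Finset.mem_powerset.mpr hWW0, hdd⟩, h4⟩)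
        linarith
      refine ⟨?_, ?_⟩
      · rw [Finset.nonempty_iff_ne_empty]
        intro h0
        apply hnd
        refine ⟨∅, Finset.empty_subset _, by simpa using ht.le, fun B₃ hB₃ => ?_⟩
        refine lt_of_le_of_lt (hV B₃ ?_) hlo
        rw [h0, Finset.union_empty, Finset.sdiff_empty] at hB₃
        exact hB₃
      · have h1 : S.Rob (H ∪ W) (G \ V) (2 ^ (d + 1) * t) hi := by
          by_contra h2
          exact hmed W hWV hWR ⟨hnd, h2⟩
        have h2 := h1.sdiff hZG
        rw [← hVZ] at h2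
        intro Z' hZ'
        have h3 := h2 Z' hZ'
        have h4 : (2 : ℝ) ^ (d + 1) * t = 2 ^ d * t + 2 ^ d * t := by rw [pow_succ]; ring
        linarith)
    T B Finset.subset_union_left hBlo
  have h1 : acc S.stp (G \ Y) (N - Y.card) (S.al H hi) (fun _ => 1) T B ≤ T / 2 := by
    refine hhold.trans ?_
    have h2 : (W0.card : ℝ) ≤ d := by exact_mod_cast hW0d
    have h3 : C * ((N - Y.card) / (2 ^ d * t)) ≤ C * (N / (2 ^ d * t)) := by
      gcongr
      linarith
    have h4 : 0 ≤ C * ((N - Y.card) / (2 ^ d * t)) := by positivity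
    have h5 : (W0.card : ℝ) * (C * ((N - Y.card) / (2 ^ d * t))) ≤ d * (C * (N / (2 ^ d * t))) := by
      apply mul_le_mul h2 h3 h4 (by positivity)
    linarith
  have h2 := kx_one_mul_le (f := S.stp) (G := G \ Y) (N := N - Y.card) (p := S.al H hi) hN2
    (by rw [hGY]; linarith) T B
  have hTpos : (0 : ℝ) < T := by exact_mod_cast hT0
  have h3 : kx S.stp (G \ Y) (N - Y.card) (S.al H hi) (fun _ => (1 : ℝ)) T B ≤ 1 / 2 := by
    have h4 := h2.trans h1
    by_contra hcon
    nlinarith [not_le.mp hcon]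
  have h4 := kx_hold (f := S.stp) (G := G) (N := N) (p := S.al H hi) Y hYG hGN T B
  have h5 : Real.exp (-(6 * s * T / N)) ≤ ((N - Y.card) / N) ^ T := by
    have e1 : (N - Y.card) / N = 1 - Y.card / N := by
      rw [sub_div, div_self hN.ne']
    have h6' : Y.card / N ≤ 1 / 2 := by
      rw [div_le_iff₀ hN]; linarith
    have h7 := one_sub_pow_ge (y := Y.card / N) (by positivity) h6' T
    rw [e1]
    refine le_trans ?_ h7
    rw [Real.exp_le_exp]
    have h8 : 2 * (Y.card / N) * T ≤ 6 * s * T / N := by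
      rw [show 2 * ((Y.card : ℝ) / N) * T = 2 * Y.card * T / N by ring]
      apply div_le_div_of_nonneg_right _ hN.le
      apply mul_le_mul_of_nonneg_right _ hTpos.le
      linarith
    linarith
  have h6' : 1 / 2 * Real.exp (-(6 * s * T / N)) ≤
      ((N - Y.card) / N) ^ T *
        (1 - kx S.stp (G \ Y) (N - Y.card) (S.al H hi) (fun _ => (1 : ℝ)) T B) := by
    rw [mul_comm]
    apply mul_le_mul h5 (by linarith) (by norm_num)
    exact le_trans (Real.exp_pos _).le h5
  linarith

end Sys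

end Pool.Agent.FewFacets
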