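import Pool.Agent.FewFacets.Params

/-!
# The growth step of the lower bound
-/

open scoped ENNReal Topology
open Matrix Filter Pool.Agent.Hhelper78.RandomEdge

namespace Pool.Agent.FewFacets

/-- The expected number of steps as a function on the vertices. -/
theorem exists_exp {d n : ℕ} (L : LPInstance d n) : ∃ φ : Vert L → ℝ, (∀ v, 0 ≤ φ v) ∧
    (∀ v, outV L v = ∅ → φ v = 0) ∧
    (∀ v, (outV L v).card * φ v = (outV L v).card + ∑ g ∈ outV L v, φ (nbV L v g)) ∧
    L.expectedSteps ≤ ENNReal.ofReal (φ ⟨L.v₀, L.start⟩) := by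
  classical
  have hex : ∃ φ : Vert L → ℝ, (∀ v, 0 ≤ φ v) ∧ (∀ v, outV L v = ∅ → φ v = 0) ∧
      (∀ v, (outV L v).card * φ v = (outV L v).card + ∑ g ∈ outV L v, φ (nbV L v g)) := by
    -- recursion on the rank from above
    have hrec : ∀ N : ℕ, ∃ φ : Vert L → ℝ, (∀ v, 0 ≤ φ v) ∧ (∀ v, outV L v = ∅ → φ v = 0) ∧
        (∀ v, Fintype.card (Vert L) ≤ rk L v + N → (outV L v).card * φ v =
          (outV L v).card + ∑ g ∈ outV L v, φ (nbV L v g)) := by
      intro N
      induction N with
      | zero =>
        refine ⟨fun _ => 0, fun _ => le_rfl, fun _ _ => rfl, fun v hv => ?_⟩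
        have := rk_lt_card L v
        omega
      | succ N ih =>
        obtain ⟨φ, h0, h1, h2⟩ := ih
        refine ⟨fun v => if (outV L v).card = 0 then 0 else
          1 + (∑ g ∈ outV L v, φ (nbV L v g)) / (outV L v).card, ?_, ?_, ?_⟩
        · intro v
          simp only
          split_ifs
          · exact le_rfl
          · have : 0 ≤ ∑ g ∈ outV L v, φ (nbV L v g) := Finset.sum_nonneg fun g _ => h0 _
            positivity
        · intro v hv
          simp only
          rw [if_pos (by rw [hv, Finset.card_empty])]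
        · intro v hv
          by_cases hc : (outV L v).card = 0
          · rw [Finset.card_eq_zero] at hc
            simp [hc]
          · simp only
            rw [if_neg hc]
            have hc' : ((outV L v).card : ℝ) ≠ 0 := by exact_mod_cast hc
            have hs : ∑ g ∈ outV L v, (if (outV L (nbV L v g)).card = 0 then (0 : ℝ) else
                1 + (∑ g' ∈ outV L (nbV L v g), φ (nbV L (nbV L v g) g')) /
                  (outV L (nbV L v g)).card) = ∑ g ∈ outV L v, φ (nbV L v g) := by
              refine Finset.sum_congr rfl fun g hg => ?_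
              have hr := rk_lt L (v := v) (w := nbV L v g) ((mem_outV L).mp hg).2
              have h3 := h2 (nbV L v g) (by omega)
              by_cases hc2 : (outV L (nbV L v g)).card = 0
              · rw [if_pos hc2]
                exact (h1 _ (Finset.card_eq_zero.mp hc2)).symm
              · rw [if_neg hc2]
                have hc3 : ((outV L (nbV L v g)).card : ℝ) ≠ 0 := by exact_mod_cast hc2
                field_simp
                linarith
            rw [hs]
            field_simp
    obtain ⟨φ, h0, h1, h2⟩ := hrec (Fintype.card (Vert L))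
    exact ⟨φ, h0, h1, fun v => h2 v (by omega)⟩
  obtain ⟨φ, h0, h1, h2⟩ := hex
  refine ⟨φ, h0, h1, h2, ?_⟩
  refine expectedSteps_le_of_super L (fun v => ENNReal.ofReal (φ v)) ?_
  intro v
  rw [sum_step]
  have hv := h2 v
  rcases Finset.eq_empty_or_nonempty (outV L v) with he | he
  · rw [he]
    simp
  · have hc : (0 : ℝ) < (outV L v).card := by exact_mod_cast Finset.card_pos.mpr he
    have h3 : ∀ g ∈ outV L v, ((outV L v).card : ℝ≥0∞)⁻¹ * (1 + ENNReal.ofReal (φ (nbV L v g))) =
        ENNReal.ofReal (((outV L v).card : ℝ)⁻¹ * (1 + φ (nbV L v g))) := by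
      intro g _
      rw [ENNReal.ofReal_mul (by positivity), ENNReal.ofReal_inv_of_pos hc,
        ENNReal.ofReal_natCast, ENNReal.ofReal_add zero_le_one (h0 _), ENNReal.ofReal_one]
    rw [Finset.sum_congr rfl h3, ← ENNReal.ofReal_sum_of_nonneg]
    · apply ENNReal.ofReal_le_ofReal
      rw [← Finset.mul_sum, Finset.sum_add_distrib, Finset.sum_const, nsmul_eq_mul, mul_one, ← hv]
      rw [← mul_assoc, inv_mul_cancel₀ hc.ne', one_mul]
    · intro g _
      have := h0 (nbV L v g)
      positivity

/-- Sums over the ranks in a finite set. -/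
lemma sum_rank {N : ℕ} (f : ℕ → ℝ) (S : Finset (Fin N)) :
    ∑ x ∈ S, f ((S.filter fun y => x < y).card) = ∑ r ∈ Finset.range S.card, f r := by
  classical
  induction S using Finset.induction_on_min with
  | empty => simp
  | insert a s ha ih =>
    have hn : a ∉ s := fun h => lt_irrefl _ (ha a h)
    rw [Finset.sum_insert hn, Finset.card_insert_of_notMem hn, Finset.sum_range_succ, ← ih,
      add_comm]
    congr 1
    · refine Finset.sum_congr rfl fun x hx => ?_
      congr 2
      rw [Finset.filter_insert, if_neg (not_lt.mpr (ha x hx).le)]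
    · congr 1
      rw [Finset.filter_insert, if_neg (lt_irrefl a), Finset.filter_true_of_mem ha]

/-- expected number of records before an independent event of weight `ρ` -/
noncomputable def psi (ρ r : ℕ) : ℝ := ∑ i ∈ Finset.range r, 1 / ((i : ℝ) + 1 + ρ)

lemma psi_nonneg (ρ r : ℕ) : 0 ≤ psi ρ r :=
  Finset.sum_nonneg fun i _ => by positivity

lemma psi_id (ρ r : ℕ) : ((ρ : ℝ) + r) * psi ρ r = r + ∑ i ∈ Finset.range r, psi ρ i := by
  induction r with
  | zero => simp [psi]
  | succ r ih =>
    rw [Finset.sum_range_succ, ← add_assoc]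
    have h1 : psi ρ (r + 1) = psi ρ r + 1 / ((r : ℝ) + 1 + ρ) := by
      unfold psi
      rw [Finset.sum_range_succ]
    rw [h1]
    push_cast
    have h2 : ((ρ : ℝ) + (r + 1)) * (psi ρ r + 1 / ((r : ℝ) + 1 + ρ)) =
        (ρ + r) * psi ρ r + psi ρ r + 1 := by
      have : (r : ℝ) + 1 + ρ ≠ 0 := by positivity
      field_simp
      ring
    rw [h2]
    linarith

lemma psi_anti {ρ ρ' : ℕ} (h : ρ ≤ ρ') (r : ℕ) : psi ρ' r ≤ psi ρ r := by
  unfold psi
  refine Finset.sum_le_sum fun i _ => ?_
  have : (ρ : ℝ) ≤ ρ' := by exact_mod_cast h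
  apply one_div_le_one_div_of_le (by positivity)
  linarith

lemma psi_ge (ρ r : ℕ) : Real.log (((r : ℝ) + ρ + 1) / (ρ + 1)) ≤ psi ρ r := by
  induction r with
  | zero =>
    have : ((0 : ℕ) : ℝ) + ρ + 1 = ρ + 1 := by push_cast; ring
    rw [this, div_self (by positivity), Real.log_one]
    exact psi_nonneg _ _
  | succ r ih =>
    have h1 : psi ρ (r + 1) = psi ρ r + 1 / ((r : ℝ) + 1 + ρ) := by
      unfold psi
      rw [Finset.sum_range_succ]
    rw [h1]
    push_cast
    have h2 : ((r : ℝ) + 1 + ρ + 1) / (ρ + 1) =
        (((r : ℝ) + ρ + 1) / (ρ + 1)) * (((r : ℝ) + 1 + ρ + 1) / (r + 1 + ρ)) := by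
      have : (r : ℝ) + 1 + ρ ≠ 0 := by positivity
      have : (ρ : ℝ) + 1 ≠ 0 := by positivity
      field_simp
      ring
    rw [h2, Real.log_mul (by positivity) (by positivity)]
    have h3 : Real.log (((r : ℝ) + 1 + ρ + 1) / (r + 1 + ρ)) ≤ 1 / ((r : ℝ) + 1 + ρ) := by
      have h4 := Real.log_le_sub_one_of_pos (x := ((r : ℝ) + 1 + ρ + 1) / (r + 1 + ρ))
        (by positivity)
      have h5 : ((r : ℝ) + 1 + ρ + 1) / (r + 1 + ρ) - 1 = 1 / ((r : ℝ) + 1 + ρ) := by
        field_simp
        ring
      linarith
    linarith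

open Ext

/-- the group of a vertex -/
lemma exists_labels {d n q m : ℕ} (L : LPInstance d n) (hd : 0 < d)
    (hq : Fintype.card (Vert L) * m ≤ q) : ∃ Y : Fin (q + 1) → Fin n → ℝ, Y 0 = 0 ∧
      ∀ v : Vert L, (Finset.univ.filter fun j => Y j = yv L v).card = m := by
  classical
  have hemb : Nonempty ((Vert L × Fin m) ↪ Fin q) := by
    apply Function.Embedding.nonempty_of_card_le
    rw [Fintype.card_prod, Fintype.card_fin, Fintype.card_fin]
    exact hq
  obtain ⟨e⟩ := hemb
  refine ⟨Fin.cases 0 (fun j => if h : ∃ p, e p = j then yv L h.choose.1 else 0), rfl, ?_⟩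
  intro v
  have hset : (Finset.univ.filter fun j : Fin (q + 1) =>
      (Fin.cases (motive := fun _ => Fin n → ℝ) 0
        (fun j => if h : ∃ p, e p = j then yv L h.choose.1 else 0) j) = yv L v) =
      (Finset.univ : Finset (Fin m)).image fun i => (e (v, i)).succ := by
    ext j
    rw [Finset.mem_filter, Finset.mem_image]
    induction j using Fin.cases with
    | zero =>
      constructor
      · rintro ⟨-, h⟩
        exact absurd h.symm (yv_ne_zero L hd v)
      · rintro ⟨i, -, h⟩
        exact absurd h (Fin.succ_ne_zero _)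
    | succ j =>
      constructor
      · rintro ⟨-, h⟩
        simp only [Fin.cases_succ] at h
        by_cases hp : ∃ p, e p = j
        · rw [dif_pos hp] at h
          have h1 := yv_inj L h
          refine ⟨hp.choose.2, Finset.mem_univ _, ?_⟩
          congr 1
          rw [← h1]
          exact hp.choose_spec
        · rw [dif_neg hp] at h
          exact absurd h.symm (yv_ne_zero L hd v)
      · rintro ⟨i, -, h⟩
        refine ⟨Finset.mem_univ _, ?_⟩
        have h1 : e (v, i) = j := Fin.succ_injective _ h
        simp only [Fin.cases_succ]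
        have hp : ∃ p, e p = j := ⟨_, h1⟩
        rw [dif_pos hp]
        have h2 : hp.choose = (v, i) := e.injective (hp.choose_spec.trans h1.symm)
        rw [h2]
  rw [hset, Finset.card_image_of_injective, Finset.card_univ, Fintype.card_fin]
  intro i i' h
  have h1 := e.injective (Fin.succ_injective _ h)
  exact (Prod.ext_iff.mp h1).2

/-- **Growth step.** -/
theorem grow {d n q m : ℕ} (L : LPInstance d n) (hd : 0 < d) (hq0 : 0 < q) (hm : 0 < m)
    (hq : Fintype.card (Vert L) * m ≤ q) {x : ℝ}
    (hx : ENNReal.ofReal x ≤ L.expectedSteps) :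
    ∃ L' : LPInstance (d + q) (n + (q + 1)),
      ENNReal.ofReal (psi d m / 2 * (x + 1)) ≤ L'.expectedSteps := by
  classical
  obtain ⟨E, hE0, hE1, hE2, hE3⟩ := exists_exp L
  obtain ⟨Y, hY0, hYm⟩ := exists_labels L hd hq
  obtain ⟨β, γ, x₀, hS, htop⟩ := exists_params L hq0 Y hY0
  set g := psi d m / 2 with hg
  have hg0 : 0 ≤ g := by rw [hg]; have := psi_nonneg d m; positivity
  have hρ : ∀ v : Vert L, (outV L v).card ≤ d := by
    intro v
    have h1 := Finset.card_le_card (s := outV L v) (t := tight L.A L.b v.1)
      fun i hi => ((mem_outV L).mp hi).1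
    rwa [L.simple _ v.2] at h1
  have hne : ∀ v : Vert L, ∀ i ∈ outV L v, nbV L v i ≠ v := by
    intro v i hi h
    have h1 := ((mem_outV L).mp hi).2
    rw [h] at h1
    exact lt_irrefl _ h1
  -- the sets above
  have hup1 : ∀ v j, Y j = yv L v → Up L β γ v j =
      (Finset.univ.filter fun j' => Y j' = yv L v).filter fun j' => j < j' := by
    intro v j hj
    ext j'
    rw [Finset.mem_filter, Finset.mem_filter, Up, Finset.mem_filter]
    constructor
    · rintro ⟨-, h⟩
      by_contra hcon
      have h1 : Y j' ≠ yv L v ∨ j' < j := by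
        by_contra h2
        rw [not_or, not_not, not_lt] at h2
        rcases h2.2.lt_or_eq with h3 | h3
        · exact hcon ⟨⟨Finset.mem_univ _, h2.1⟩, h3⟩
        · rw [h3] at h
          exact lt_irrefl _ h
      have h2 := htop v j j' hj h1
      exact lt_asymm h h2
    · rintro ⟨⟨-, h1⟩, h2⟩
      exact ⟨Finset.mem_univ _, htop v j' j h1 (Or.inr h2)⟩
  have hup2 : ∀ v j, Y j ≠ yv L v → (Finset.univ.filter fun j' => Y j' = yv L v) ⊆
      Up L β γ v j := by
    intro v j hj j' hj'
    rw [Finset.mem_filter] at hj'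
    exact Finset.mem_filter.mpr ⟨Finset.mem_univ _, htop v j' j hj'.2 (Or.inl hj)⟩
  set φ : Vert L → Fin (q + 1) → ℝ := fun v j => g * E v +
    (if Y j = yv L v then psi (outV L v).card (Up L β γ v j).card else g) with hφ
  have hφge : ∀ v j, g * E v ≤ φ v j := by
    intro v j
    rw [hφ]
    simp only
    split_ifs
    · have := psi_nonneg (outV L v).card (Up L β γ v j).card
      linarith
    · linarith
  have hφ0 : ∀ v j, 0 ≤ φ v j := fun v j => (mul_nonneg hg0 (hE0 v)).trans (hφge v j)
  -- sums of ranks
  have hranks : ∀ (v : Vert L) (S : Finset (Fin (q + 1))), (∀ j ∈ S, Y j = yv L v) →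
      (∀ j ∈ S, Up L β γ v j = S.filter fun j' => j < j') →
      ∑ j ∈ S, φ v j = S.card * (g * E v) +
        ∑ r ∈ Finset.range S.card, psi (outV L v).card r := by
    intro v S h1 h2
    rw [← sum_rank (fun r => psi (outV L v).card r) S, ← nsmul_eq_mul, ← Finset.sum_const,
      ← Finset.sum_add_distrib]
    refine Finset.sum_congr rfl fun j hj => ?_
    rw [hφ]
    simp only
    rw [if_pos (h1 j hj), h2 j hj]
  have hmain := inst_lower hS φ hφ0 ?_ ?_
  · refine ⟨inst hS, le_trans (ENNReal.ofReal_le_ofReal ?_) hmain⟩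
    have hxE : x ≤ E ⟨L.v₀, L.start⟩ := by
      have h1 := hx.trans hE3
      rwa [ENNReal.ofReal_le_ofReal_iff (hE0 _)] at h1
    rw [hφ]
    simp only
    rw [if_neg (by rw [hY0]; exact (yv_ne_zero L hd _).symm)]
    have := mul_le_mul_of_nonneg_left hxE hg0
    linarith
  · intro v j h1 h2
    have h3 : Y j = yv L v := by
      by_contra hcon
      have h4 := hup2 v j hcon
      rw [h2, Finset.subset_empty] at h4
      have h5 := hYm v
      rw [h4, Finset.card_empty] at h5
      omega
    rw [hφ]
    simp only
    rw [if_pos h3, hE1 v h1, h2]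
    simp [psi]
  · intro v j
    set ρ := (outV L v).card with hρdef
    have hE := hE2 v
    rw [← hρdef] at hE
    have hgE : (ρ : ℝ) * (g * E v) = g * ρ + g * ∑ i ∈ outV L v, E (nbV L v i) := by
      have := congrArg (fun z => g * z) hE
      linarith
    by_cases hj : Y j = yv L v
    · -- correct label
      set S := Up L β γ v j with hS'
      have hS1 : S = (Finset.univ.filter fun j' => Y j' = yv L v).filter fun j' => j < j' :=
        hup1 v j hj
      have hsum := hranks v S (by
        intro j' hj'
        rw [hS1, Finset.mem_filter, Finset.mem_filter] at hj'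
        exact hj'.1.2) (by
        intro j' hj'
        rw [hS1, Finset.mem_filter, Finset.mem_filter] at hj'
        rw [hup1 v j' hj'.1.2, hS1]
        ext j''
        simp only [Finset.mem_filter, Finset.mem_univ, true_and]
        constructor
        · rintro ⟨h1, h2⟩
          exact ⟨⟨h1, hj'.2.trans h2⟩, h2⟩
        · rintro ⟨⟨h1, -⟩, h2⟩
          exact ⟨h1, h2⟩)
      have hnb : ∑ i ∈ outV L v, φ (nbV L v i) j =
          g * ∑ i ∈ outV L v, E (nbV L v i) + ρ * g := by
        rw [Finset.mul_sum, hρdef, ← nsmul_eq_mul, ← Finset.sum_const, ← Finset.sum_add_distrib]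
        refine Finset.sum_congr rfl fun i hi => ?_
        rw [hφ]
        simp only
        rw [if_neg]
        intro h
        rw [hj] at h
        exact hne v i hi (yv_inj L h).symm
      have hφv : φ v j = g * E v + psi ρ S.card := by
        rw [hφ]
        simp only
        rw [if_pos hj]
      rw [hφv, hnb, hsum]
      have hid := psi_id ρ S.card
      have hρ0 : (0 : ℝ) ≤ ρ := by positivity
      have e1 : ((ρ : ℝ) + S.card) * (g * E v + psi ρ S.card) =
          ρ * (g * E v) + S.card * (g * E v) + (ρ + S.card) * psi ρ S.card := by ring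
      rw [e1, hid, hgE]
      linarith
    · -- wrong label
      set U := Up L β γ v j with hU
      set G := Finset.univ.filter fun j' => Y j' = yv L v with hG
      have hGU : G ⊆ U := hup2 v j hj
      have hGm : G.card = m := hYm v
      have hsumG := hranks v G (by
        intro j' hj'
        rw [hG, Finset.mem_filter] at hj'
        exact hj'.2) (by
        intro j' hj'
        have h1 := hj'
        rw [hG, Finset.mem_filter] at h1
        exact hup1 v j' h1.2)
      have hsumB : ∑ j' ∈ U \ G, φ v j' = (U \ G).card * (g * E v + g) := by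
        rw [← nsmul_eq_mul, ← Finset.sum_const]
        refine Finset.sum_congr rfl fun j' hj' => ?_
        rw [Finset.mem_sdiff, hG, Finset.mem_filter, not_and] at hj'
        rw [hφ]
        simp only
        rw [if_neg (hj'.2 (Finset.mem_univ _))]
      have hsumU : ∑ j' ∈ U, φ v j' = ∑ j' ∈ U \ G, φ v j' + ∑ j' ∈ G, φ v j' :=
        (Finset.sum_sdiff hGU).symm
      have hcardU : (U.card : ℝ) = (U \ G).card + m := by
        have := Finset.card_sdiff_add_card_eq_card hGU
        rw [hGm] at this
        exact_mod_cast this.symm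
      have hnb : g * ∑ i ∈ outV L v, E (nbV L v i) ≤ ∑ i ∈ outV L v, φ (nbV L v i) j := by
        rw [Finset.mul_sum]
        exact Finset.sum_le_sum fun i _ => hφge _ _
      have hφv : φ v j = g * E v + g := by
        rw [hφ]
        simp only
        rw [if_neg hj]
      rw [hφv, hsumU, hsumB, hsumG, hGm, hcardU]
      have hid := psi_id ρ m
      have hanti := psi_anti (hρ v) m
      rw [← hρdef] at hanti
      have h2g : 2 * g ≤ psi ρ m := by rw [hg]; linarith
      have hρ0 : (0 : ℝ) ≤ ρ := by positivity
      have hm0 : (0 : ℝ) ≤ m := by positivity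
      have h3 : (ρ + m) * (2 * g) ≤ (ρ + m) * psi ρ m := mul_le_mul_of_nonneg_left h2g (by positivity)
      have hB0 : (0 : ℝ) ≤ (U \ G).card := by positivity
      have h4 : 0 ≤ (m : ℝ) * g := by positivity
      have e1 : ((ρ : ℝ) + ((U \ G).card + m)) * (g * E v + g) =
          ρ * (g * E v) + m * (g * E v) + (U \ G).card * (g * E v + g) + (ρ + m) * g := by ring
      rw [e1, hgE]
      linarith

end Pool.Agent.FewFacets
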