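import Pool.Agent.FewFacets.Sys

/-!
# The hold phase
-/

namespace Pool.Agent.FewFacets

namespace Sys

variable {α σ : Type} [DecidableEq α] {S : Sys α σ}

/-- The main claim with constant `C` for `d` free elements. -/
def ClaimA (S : Sys α σ) (C : ℝ) (d : ℕ) : Prop :=
  ∀ (H G : Finset α) (N s c : ℝ), S.k ≤ H.card + d → 6 * (G.card : ℝ) ≤ N → 0 < N → 0 < s →
    S.Rob H G s c → ∀ T B, acc S.stp G N (S.al H c) (fun _ => 1) T B ≤ C * (N / s)

/-- The free basis elements in `V`. -/
def fr (S : Sys α σ) (H V : Finset α) (B : σ) : Finset α := (S.bas B \ H) ∩ V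

lemma mem_fr {H V : Finset α} {B : σ} {a : α} :
    a ∈ S.fr H V B ↔ a ∈ S.bas B ∧ a ∉ H ∧ a ∈ V := by
  simp [fr, and_assoc]

lemma card_fr {H V : Finset α} {B : σ} {d : ℕ} (hk : S.k ≤ H.card + d) (hH : H ⊆ S.bas B) :
    (S.fr H V B).card ≤ d := by
  have h1 : Disjoint H (S.fr H V B) := by
    rw [Finset.disjoint_left]
    intro a ha h
    exact (mem_fr.mp h).2.1 ha
  have h2 : H ∪ S.fr H V B ⊆ S.bas B :=
    Finset.union_subset hH fun a ha => (mem_fr.mp ha).1
  have h3 := Finset.card_le_card h2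
  rw [Finset.card_union_of_disjoint h1] at h3
  have h4 := S.card_le B
  omega

/-- During a hold phase with at most `d` free elements of `V` the life is short. -/
lemma hold {C : ℝ} {d : ℕ} (hd : 0 < d) (hA : ∀ d' < d, ClaimA S C d') (hC : 0 ≤ C)
    {H V G₂ K : Finset α} {N₂ σ' hi lo : ℝ} (hk : S.k ≤ H.card + d)
    (h6 : 6 * (G₂.card : ℝ) ≤ N₂) (hN₂ : 0 < N₂) (hσ : 0 < σ') (hGK : G₂ ⊆ K)
    (hGV : Disjoint G₂ V)
    (hyp : ∀ B, S.bas B ⊆ K → H ⊆ S.bas B → lo ≤ S.val B → S.val B ≤ hi →
      (S.fr H V B).Nonempty ∧ S.Rob (H ∪ S.fr H V B) G₂ σ' hi)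
    (T : ℕ) (B : σ) (hBK : S.bas B ⊆ K) (hlo : lo ≤ S.val B) :
    acc S.stp G₂ N₂ (S.al H hi) (fun _ => 1) T B ≤ (S.fr H V B).card * (C * (N₂ / σ')) := by
  have hG : (G₂.card : ℝ) ≤ N₂ := by
    have : (0 : ℝ) ≤ G₂.card := by positivity
    linarith
  have hQ0 : 0 ≤ C * (N₂ / σ') := by positivity
  induction hn : (S.fr H V B).card using Nat.strong_induction_on generalizing B T with
  | _ n ih =>
    by_cases hal : S.al H hi B
    · obtain ⟨hne, hrob⟩ := hyp B hBK hal.1 hlo hal.2
      have hn1 : 1 ≤ n := by rw [← hn]; exact Finset.card_pos.mpr hne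
      set W := S.fr H V B with hW
      have hdec := acc_decomp (f := S.stp) (G := G₂) (N := N₂) (p := S.al H hi)
        (p' := S.al (H ∪ W) hi) (q := fun _ => 1) (M := ((n : ℝ) - 1) * (C * (N₂ / σ')))
        (fun y => S.bas y ⊆ K ∧ lo ≤ S.val y ∧ S.fr H V y ⊆ W) hN₂ hG
        (fun y hy => ⟨Finset.subset_union_left.trans hy.1, hy.2⟩) ?_ ?_ ?_ T B
        ⟨hBK, hlo, Finset.Subset.refl _⟩
      · refine hdec.trans ?_
        have h1 := hA (d - n) (by omega) (H ∪ W) G₂ N₂ σ' hi ?_ h6 hN₂ hσ hrob T B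
        · have : (n : ℝ) * (C * (N₂ / σ')) =
              C * (N₂ / σ') + ((n : ℝ) - 1) * (C * (N₂ / σ')) := by ring
          rw [this]
          linarith
        · have h2 : Disjoint H W := by
            rw [Finset.disjoint_left]
            intro a ha h
            exact (mem_fr.mp h).2.1 ha
          rw [Finset.card_union_of_disjoint h2, hn]
          omega
      · rintro y ⟨h1, h2, h3⟩ g hg
        refine ⟨?_, h2.trans (S.val_le y g), ?_⟩
        · exact (S.stp_sub y g).trans (Finset.insert_subset (hGK hg) h1)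
        · intro a ha
          rw [mem_fr] at ha
          apply h3
          rw [mem_fr]
          refine ⟨?_, ha.2⟩
          have h4 := S.stp_sub y g ha.1
          rw [Finset.mem_insert] at h4
          rcases h4 with h4 | h4
          · subst h4
            exact absurd ha.2.2 (Finset.disjoint_left.mp hGV hg)
          · exact h4
      · rintro y ⟨h1, h2, h3⟩ h4 h5 T'
        have h6' : (S.fr H V y).card < n := by
          rw [← hn]
          apply Finset.card_lt_card
          refine Finset.ssubset_iff_subset_ne.mpr ⟨h3, fun h => h4 ?_⟩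
          refine ⟨Finset.union_subset h5.1 ?_, h5.2⟩
          rw [← h]
          exact fun a ha => (mem_fr.mp ha).1
        have h7 := ih _ h6' T' y h1 h2 rfl
        refine h7.trans (mul_le_mul_of_nonneg_right ?_ hQ0)
        have : ((S.fr H V y).card : ℝ) + 1 ≤ n := by exact_mod_cast h6'
        linarith
      · apply mul_nonneg _ hQ0
        have : (1 : ℝ) ≤ n := by exact_mod_cast hn1
        linarith
    · rw [acc_neg _ _ hal]
      positivity

end Sys

end Pool.Agent.FewFacets
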