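import Pool.Agent.FewFacets.Ops

/-!
# The process together with the set of elements that have rung
-/

namespace Pool.Agent.FewFacets

variable {α X : Type*} [DecidableEq α]

/-- The process with its record of rings. -/
def jf (f : X → α → X) : X × Finset α → α → X × Finset α :=
  fun y g => (f y.1 g, insert g y.2)

variable {f : X → α → X} {G : Finset α} {N : ℝ}

lemma kx_proj (p : X → Prop) (φ : X → ℝ) (T : ℕ) (y : X × Finset α) :
    kx (jf f) G N (fun y => p y.1) (fun y => φ y.1) T y = kx f G N p φ T y.1 := by
  induction T generalizing y with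
  | zero =>
    by_cases hp : p y.1
    · rw [kx_zero_pos _ hp]; exact kx_zero_pos _ hp
    · rw [kx_neg _ _ hp]; exact kx_neg _ _ hp
  | succ T ih =>
    by_cases hp : p y.1
    · rw [kx_pos _ _ hp]
      rw [kx_pos (p := fun y : X × Finset α => p y.1) _ _ hp]
      unfold avg
      simp only [ih]
      rfl
    · rw [kx_neg _ _ hp]; exact kx_neg _ _ hp

lemma pow_add_ge {y h : ℝ} (hy : 0 ≤ y) (hh : 0 ≤ h) (m : ℕ) :
    y ^ (m + 1) + (m + 1) * h * y ^ m ≤ (y + h) ^ (m + 1) := by
  induction m with
  | zero => simp
  | succ m ih =>
    have h1 : (y + h) ^ (m + 1 + 1) = (y + h) ^ (m + 1) * (y + h) := pow_succ _ _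
    have h2 : (y ^ (m + 1) + (m + 1) * h * y ^ m) * (y + h) ≤ (y + h) ^ (m + 1) * (y + h) :=
      mul_le_mul_of_nonneg_right ih (by linarith)
    rw [h1]
    push_cast
    have h3 : 0 ≤ (m + 1 : ℝ) * h * h * y ^ m := by positivity
    have h4 : (y ^ (m + 1) + (m + 1) * h * y ^ m) * (y + h) =
        y ^ (m + 1 + 1) + ((m : ℝ) + 1 + 1) * h * y ^ (m + 1) + (m + 1 : ℝ) * h * h * y ^ m := by
      ring
    linarith

open Classical in
/-- The probability that all elements of `W` have rung. -/
lemma kx_rung (p : X × Finset α → Prop) (hN : 0 < N) (hG : (G.card : ℝ) ≤ N) (W : Finset α)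
    (T : ℕ) (y : X × Finset α) :
    kx (jf f) G N p (fun y => if W ⊆ y.2 then (1 : ℝ) else 0) T y ≤
      (T / N) ^ (W \ y.2).card := by
  induction T generalizing y with
  | zero =>
    by_cases hp : p y
    · rw [kx_zero_pos _ hp]
      by_cases h : W ⊆ y.2
      · rw [if_pos h, Finset.sdiff_eq_empty_iff_subset.mpr h]
        simp
      · rw [if_neg h]
        positivity
    · rw [kx_neg _ _ hp]
      positivity
  | succ T ih =>
    by_cases hp : p y
    · rw [kx_pos _ _ hp]
      set m := (W \ y.2).card with hm
      have hT0 : (0 : ℝ) ≤ T / N := by positivity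
      rcases Nat.eq_zero_or_pos m with h0 | h0
      · rw [h0, pow_zero]
        have := avg_mono (f := jf f) (x := y)
          (φ := kx (jf f) G N p (fun y => if W ⊆ y.2 then (1 : ℝ) else 0) T)
          (ψ := fun _ => 1) hN hG (fun g _ => ?_) ?_
        · rwa [avg_const _ _ hN] at this
        · refine (ih _).trans (le_of_eq ?_)
          have : W \ (jf f y g).2 = ∅ := by
            rw [Finset.sdiff_eq_empty_iff_subset]
            have h1 : W ⊆ y.2 := by
              rw [← Finset.sdiff_eq_empty_iff_subset, ← Finset.card_eq_zero, ← hm]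
              exact h0
            exact h1.trans (Finset.subset_insert _ _)
          rw [this]
          simp
        · refine (ih _).trans (le_of_eq ?_)
          rw [← hm, h0, pow_zero]
      · obtain ⟨m', hm'⟩ : ∃ m', m = m' + 1 := ⟨m - 1, by omega⟩
        have hb : ∀ g ∈ G, kx (jf f) G N p (fun y => if W ⊆ y.2 then (1 : ℝ) else 0) T (jf f y g) ≤
            (T / N) ^ m + if g ∈ W \ y.2 then (T / N) ^ m' else 0 := by
          intro g _
          refine (ih _).trans ?_
          by_cases hg : g ∈ W \ y.2
          · have hs : W \ (jf f y g).2 = (W \ y.2).erase g := by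
              ext a
              simp only [jf, Finset.mem_sdiff, Finset.mem_insert, Finset.mem_erase]
              tauto
            rw [if_pos hg, hs, Finset.card_erase_of_mem hg, ← hm, hm', Nat.add_sub_cancel]
            have : 0 ≤ (T / N) ^ (m' + 1) := by positivity
            linarith
          · have hs : W \ (jf f y g).2 = W \ y.2 := by
              ext a
              simp only [jf, Finset.mem_sdiff, Finset.mem_insert]
              constructor
              · rintro ⟨h1, h2⟩
                exact ⟨h1, fun h => h2 (Or.inr h)⟩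
              · rintro ⟨h1, h2⟩
                refine ⟨h1, fun h => ?_⟩
                rcases h with h | h
                · subst h
                  exact hg (Finset.mem_sdiff.mpr ⟨h1, h2⟩)
                · exact h2 h
            rw [if_neg hg, hs, ← hm, add_zero]
        have hsum : ∑ g ∈ G, kx (jf f) G N p (fun y => if W ⊆ y.2 then (1 : ℝ) else 0) T (jf f y g)
            ≤ G.card * (T / N) ^ m + m * (T / N) ^ m' := by
          refine (Finset.sum_le_sum hb).trans ?_
          rw [Finset.sum_add_distrib, Finset.sum_const, nsmul_eq_mul, ← Finset.sum_filter,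
            Finset.sum_const, nsmul_eq_mul]
          have h1 : ((G.filter fun g => g ∈ W \ y.2).card : ℝ) ≤ m := by
            rw [hm]
            have : (G.filter fun g => g ∈ W \ y.2) ⊆ W \ y.2 := by
              intro g hg
              exact (Finset.mem_filter.mp hg).2
            exact_mod_cast Finset.card_le_card this
          have h2 : 0 ≤ (T / N) ^ m' := by positivity
          nlinarith
        have h3 : (N - G.card) * kx (jf f) G N p (fun y => if W ⊆ y.2 then (1 : ℝ) else 0) T y ≤
            (N - G.card) * (T / N) ^ m :=
          mul_le_mul_of_nonneg_left (ih y) (by linarith)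
        unfold avg
        have h4 := pow_add_ge hT0 (h := 1 / N) (by positivity) m'
        have h5 : ((T + 1 : ℕ) : ℝ) / N = T / N + 1 / N := by
          push_cast; ring
        rw [h5, hm']
        rw [hm'] at hsum h3
        push_cast at hsum
        refine le_trans ?_ h4
        rw [div_le_iff₀ hN]
        have h6 : ((T / N) ^ (m' + 1) + (m' + 1) * (1 / N) * (T / N) ^ m') * N =
            N * (T / N) ^ (m' + 1) + (m' + 1) * (T / N) ^ m' := by
          field_simp
        rw [h6]
        linarith
    · rw [kx_neg _ _ hp]
      positivity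

open Classical in
/-- If `s` can only become true when `b` rings, then `s` true and `b` not having rung means that
`s` held all the time. -/
lemma kx_never (p s : X → Prop) (b : α) (hN : 0 < N) (hG : (G.card : ℝ) ≤ N)
    (hs : ∀ x g, g ≠ b → s (f x g) → s x) (T : ℕ) (y : X × Finset α) :
    kx (jf f) G N (fun y => p y.1) (fun y => if s y.1 ∧ b ∉ y.2 then (1 : ℝ) else 0) T y ≤
      if s y.1 ∧ b ∉ y.2 then kx f G N (fun x => p x ∧ s x) (fun _ => 1) T y.1 else 0 := by
  induction T generalizing y with
  | zero =>
    by_cases hp : p y.1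
    · rw [kx_zero_pos (p := fun y : X × Finset α => p y.1) _ hp]
      by_cases h : s y.1 ∧ b ∉ y.2
      · rw [if_pos h, if_pos h, kx_zero_pos _ ⟨hp, h.1⟩]
      · rw [if_neg h, if_neg h]
    · rw [kx_neg (p := fun y : X × Finset α => p y.1) _ _ hp, kx_neg _ _ (fun h => hp h.1)]
      simp
  | succ T ih =>
    by_cases hp : p y.1
    · rw [kx_pos (p := fun y : X × Finset α => p y.1) _ _ hp]
      by_cases h : s y.1 ∧ b ∉ y.2
      · rw [if_pos h, kx_pos _ _ ⟨hp, h.1⟩]
        unfold avg
        have h1 : ∀ g ∈ G, kx (jf f) G N (fun y => p y.1)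
            (fun y => if s y.1 ∧ b ∉ y.2 then (1 : ℝ) else 0) T (jf f y g) ≤
            kx f G N (fun x => p x ∧ s x) (fun _ => 1) T (f y.1 g) := by
          intro g _
          refine (ih _).trans ?_
          split_ifs
          · exact le_rfl
          · exact kx_nonneg hN hG (fun _ => zero_le_one) _ _
        have h2 := ih y
        rw [if_pos h] at h2
        have h3 := Finset.sum_le_sum h1
        have h4 := mul_le_mul_of_nonneg_left h2 (show 0 ≤ N - (G.card : ℝ) by linarith)
        gcongr
      · rw [if_neg h]
        have := avg_mono (f := jf f) (x := y)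
          (φ := kx (jf f) G N (fun y => p y.1)
            (fun y => if s y.1 ∧ b ∉ y.2 then (1 : ℝ) else 0) T)
          (ψ := fun _ => 0) hN hG (fun g _ => ?_) ?_
        · rwa [avg_const _ _ hN] at this
        · refine (ih _).trans ?_
          rw [if_neg]
          rintro ⟨h1, h2⟩
          simp only [jf, Finset.mem_insert, not_or] at h1 h2
          exact h ⟨hs _ _ (fun h => h2.1 h.symm) h1, h2.2⟩
        · refine (ih _).trans ?_
          rw [if_neg h]
    · rw [kx_neg (p := fun y : X × Finset α => p y.1) _ _ hp, kx_neg _ _ (fun h => hp h.1)]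
      simp

end Pool.Agent.FewFacets
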