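import Pool.Agent.FewFacets.Pivots

/-!
# The expected number of pivots as a function on the states
-/

open Filter Topology

namespace Pool.Agent.FewFacets

namespace Sys

variable {α σ : Type} [DecidableEq α] [Fintype α]

/-- A bounded solution of the recursion of the expected number of pivots. -/
theorem exists_sol [Finite σ] (S : Sys α σ) {J : ℕ} (hJ : Fintype.card α < 2 ^ J)
    (hJ1 : 1 ≤ J) : ∃ φ : σ → ℝ, (∀ B, 0 ≤ φ B) ∧ (∀ B, φ B ≤ cG S.k * (J : ℝ) ^ S.k) ∧
      ∀ B, (S.viol B).card * φ B = (S.viol B).card + ∑ g ∈ S.viol B, φ (S.stp B g) := by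
  classical
  set N : ℝ := 6 * Fintype.card α + 1 with hNdef
  have hn0 : (0 : ℝ) ≤ Fintype.card α := by positivity
  have hN : 0 < N := by positivity
  have hn6 : 6 * (Fintype.card α : ℝ) ≤ N := by linarith
  have hn' : ((Finset.univ : Finset α).card : ℝ) ≤ N := by rw [Finset.card_univ]; linarith
  obtain ⟨c, hc⟩ := (Set.finite_range S.val).bddAbove
  have hc' : ∀ B, S.val B ≤ c := fun B => hc ⟨B, rfl⟩
  have hal : ∀ B, S.al ∅ c B := fun B => ⟨Finset.empty_subset _, hc' B⟩
  set a : ℕ → σ → ℝ := fun T => acc S.stp Finset.univ N (S.al ∅ c) (S.pq N) T with ha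
  have hmono : ∀ B, Monotone fun T => a T B := fun B =>
    monotone_nat_of_le_succ fun T => acc_mono_time hN hn' (pq_nonneg hN) T B
  have hR := claimR (S := S) hN hn6 hJ hJ1 S.k ∅ c (by simp)
  have hbd : ∀ B, BddAbove (Set.range fun T => a T B) := by
    intro B
    refine ⟨cG S.k * (J : ℝ) ^ S.k, ?_⟩
    rintro _ ⟨T, rfl⟩
    exact hR T B
  set φ : σ → ℝ := fun B => ⨆ T, a T B with hφ
  have hlim : ∀ B, Tendsto (fun T => a T B) atTop (𝓝 (φ B)) := fun B =>
    tendsto_atTop_ciSup (hmono B) (hbd B)
  refine ⟨φ, ?_, ?_, ?_⟩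
  · intro B
    exact (acc_nonneg hN hn' (pq_nonneg hN) 0 B).trans (le_ciSup (hbd B) 0)
  · intro B
    exact ciSup_le fun T => hR T B
  · intro B
    have h1 : Tendsto (fun T => a (T + 1) B) atTop (𝓝 (φ B)) :=
      (hlim B).comp (tendsto_add_atTop_nat 1)
    have h2 : (fun T => a (T + 1) B) = fun T => S.pq N B + avg S.stp Finset.univ N (a T) B := by
      funext T
      exact acc_pos _ _ (hal B)
    rw [h2] at h1
    have h3 : Tendsto (fun T => S.pq N B + avg S.stp Finset.univ N (a T) B) atTop
        (𝓝 (S.pq N B + avg S.stp Finset.univ N φ B)) := by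
      unfold avg
      apply Tendsto.const_add
      apply Tendsto.div_const
      apply Tendsto.add
      · exact tendsto_finsetSum _ fun g _ => hlim _
      · exact (hlim B).const_mul _
    have h4 := tendsto_nhds_unique h1 h3
    unfold pq avg at h4
    have h5 : ∑ g : α, φ (S.stp B g) = ∑ g ∈ S.viol B, φ (S.stp B g) +
        (Fintype.card α - (S.viol B).card) * φ B := by
      rw [← Finset.sum_add_sum_compl (S.viol B)]
      congr 1
      have : ∀ g ∈ (S.viol B)ᶜ, φ (S.stp B g) = φ B := by
        intro g hg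
        rw [Finset.mem_compl] at hg
        rw [S.stp_self B g hg]
      rw [Finset.sum_congr rfl this, Finset.sum_const, nsmul_eq_mul, Finset.card_compl,
        Nat.cast_sub (Finset.card_le_univ _)]
    rw [h5, Finset.card_univ] at h4
    field_simp at h4
    linarith

end Sys

end Pool.Agent.FewFacets
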