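import Pool.Agent.FewFacets.Grow

/-!
# The lower bound of order `log ^ k`
-/

open scoped ENNReal Topology
open Matrix Filter Pool.Agent.Hhelper78.RandomEdge

namespace Pool.Agent.FewFacets

open Ext

/-- the zero-dimensional instance -/
noncomputable def pointInst : LPInstance 0 0 where
  A := fun i => i.elim0
  b := fun i => i.elim0
  c := 0
  v₀ := 0
  bounded := (Set.toFinite _).isBounded
  fullDim := by
    have : poly (fun i : Fin 0 => (i.elim0 : Fin 0 → ℝ)) (fun i => i.elim0) = Set.univ := by
      ext x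
      simp [poly]
    rw [this, interior_univ]
    exact ⟨0, trivial⟩
  irredundant := fun i => i.elim0
  simple := by
    intro v _
    rw [Finset.card_eq_zero, Finset.eq_empty_iff_forall_notMem]
    exact fun i => i.elim0
  generic := by
    intro v w h
    exact absurd (Subsingleton.elim v w) h.2.2.1
  start := by
    refine ⟨fun i => i.elim0, ?_⟩
    intro x _ y _ _
    exact Subsingleton.elim _ _

/-- Simplices. -/
theorem base (q : ℕ) (hq : 0 < q) : ∃ L : LPInstance (0 + q) (0 + (q + 1)),
    ENNReal.ofReal (Real.log q) ≤ L.expectedSteps := by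
  classical
  obtain ⟨β, γ, x₀, hS, htop⟩ := exists_params pointInst hq (fun _ => 0) rfl
  have hout : ∀ v : Vert pointInst, outV pointInst v = ∅ := by
    intro v
    rw [Finset.eq_empty_iff_forall_notMem]
    exact fun i => i.elim0
  have hY : ∀ v : Vert pointInst, (0 : Fin 0 → ℝ) = yv pointInst v := fun v =>
    Subsingleton.elim _ _
  have hup : ∀ (v : Vert pointInst) (j : Fin (q + 1)), Up pointInst β γ v j =
      Finset.univ.filter fun j' => j < j' := by
    intro v j
    ext j'
    rw [Up, Finset.mem_filter, Finset.mem_filter]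
    constructor
    · rintro ⟨-, h⟩
      refine ⟨Finset.mem_univ _, ?_⟩
      by_contra hcon
      rcases (not_lt.mp hcon).lt_or_eq with h1 | h1
      · exact lt_asymm h (htop v j j' (hY v) (Or.inr h1))
      · rw [h1] at h
        exact lt_irrefl _ h
    · rintro ⟨-, h⟩
      exact ⟨Finset.mem_univ _, htop v j' j (hY v) (Or.inr h)⟩
  have hmain := inst_lower hS (fun v j => psi 0 (Up pointInst β γ v j).card)
    (fun v j => psi_nonneg _ _) ?_ ?_
  · refine ⟨inst hS, le_trans (ENNReal.ofReal_le_ofReal ?_) hmain⟩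
    rw [hup]
    have hc : (Finset.univ.filter fun j' : Fin (q + 1) => 0 < j').card = q := by
      have h1 : (Finset.univ.filter fun j' : Fin (q + 1) => 0 < j') =
          Finset.univ.erase 0 := by
        ext j
        rw [Finset.mem_filter, Finset.mem_erase, Fin.pos_iff_ne_zero]
        tauto
      rw [h1, Finset.card_erase_of_mem (Finset.mem_univ _), Finset.card_univ, Fintype.card_fin,
        Nat.add_sub_cancel]
    rw [hc]
    refine le_trans ?_ (psi_ge 0 q)
    apply Real.log_le_log
    · exact_mod_cast hq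
    · push_cast
      rw [add_zero, zero_add, div_one]
      linarith
  · intro v j _ h
    rw [h]
    simp [psi]
  · intro v j
    rw [hout v]
    simp only [Finset.card_empty, Finset.sum_empty]
    have hsum : ∑ j' ∈ Up pointInst β γ v j, psi 0 (Up pointInst β γ v j').card =
        ∑ r ∈ Finset.range (Up pointInst β γ v j).card, psi 0 r := by
      rw [← sum_rank (fun r => psi 0 r) (Up pointInst β γ v j)]
      refine Finset.sum_congr rfl fun j' hj' => ?_
      congr 2
      rw [hup, Finset.mem_filter] at hj'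
      rw [hup, hup]
      ext j''
      simp only [Finset.mem_filter, Finset.mem_univ, true_and]
      constructor
      · intro h
        exact ⟨hj'.2.trans h, h⟩
      · exact fun h => h.2
    rw [hsum]
    have hid := psi_id 0 (Up pointInst β γ v j).card
    push_cast at hid ⊢
    linarith

/-- The number of vertices. -/
lemma card_vert_le {d k : ℕ} (L : LPInstance d (d + k)) :
    Fintype.card (Vert L) ≤ (d + k) ^ k := by
  classical
  have h1 : Fintype.card (Vert L) ≤ (Finset.powersetCard k
      (Finset.univ : Finset (Fin (d + k)))).card := by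
    rw [← Finset.card_univ]
    apply Finset.card_le_card_of_injOn fun v => (tight L.A L.b v.1)ᶜ
    · intro v _
      rw [Finset.mem_coe, Finset.mem_powersetCard]
      refine ⟨Finset.subset_univ _, ?_⟩
      rw [Finset.card_compl, Fintype.card_fin, L.simple _ v.2]
      omega
    · intro v _ w _ h
      simp only [compl_inj_iff] at h
      exact Subtype.ext (eq_of_tight w.2 (le_of_eq h.symm))
  refine h1.trans ?_
  rw [Finset.card_powersetCard, Finset.card_univ, Fintype.card_fin]
  exact Nat.choose_le_pow _ _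

/-- **Lower bound.** -/
theorem lower (k : ℕ) : ∃ c : ℝ, 0 < c ∧ ∃ D : ℕ, ∀ d ≥ D,
    ∃ L : LPInstance d (d + (k + 1)),
      ENNReal.ofReal (c * Real.log d ^ (k + 1)) ≤ L.expectedSteps := by
  induction k with
  | zero =>
    refine ⟨1, one_pos, 1, fun d hd => ?_⟩
    have h := base d hd
    rw [Nat.zero_add, Nat.zero_add] at h
    simpa using h
  | succ k ih =>
    obtain ⟨c, hc, D, hD⟩ := ih
    set K := k + 1 with hK
    set a := 2 * K + 5 with ha
    refine ⟨c / 2 * (1 / (2 * a)) ^ (K + 1), by positivity, 2 ^ (a * (D + K + 1)),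
      fun d hd => ?_⟩
    have hd0 : 0 < d := lt_of_lt_of_le (by positivity) hd
    set e := Nat.log 2 d / a with he
    have ha0 : 0 < a := by omega
    have hlog : a * (D + K + 1) ≤ Nat.log 2 d :=
      (Nat.le_log_iff_pow_le (by norm_num) hd0.ne').mpr hd
    have he1 : D + K + 1 ≤ e := by
      rw [he, Nat.le_div_iff_mul_le ha0, mul_comm]
      exact hlog
    set d₁ := 2 ^ e with hd₁
    have hd₁e : e < d₁ := Nat.lt_two_pow_self
    have hd₁D : D ≤ d₁ := by omega
    have hd₁K : K ≤ d₁ := by omega
    have hd₁2 : 2 ≤ d₁ := by omega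
    have hpow : d₁ ^ a ≤ d := by
      rw [hd₁, ← pow_mul]
      refine le_trans (Nat.pow_le_pow_right (by norm_num) ?_) (Nat.pow_log_le_self 2 hd0.ne')
      exact Nat.div_mul_le_self _ _
    obtain ⟨L, hL⟩ := hD d₁ hd₁D
    have hcard := card_vert_le L
    -- sizes
    have hsize : (d₁ + K) ^ K * (d₁ + 1) ^ 2 + d₁ ≤ d := by
      refine le_trans ?_ hpow
      have h1 : (d₁ + K) ^ K ≤ (d₁ ^ 2) ^ K := by
        apply Nat.pow_le_pow_left
        nlinarith
      have h2 : (d₁ + 1) ^ 2 ≤ (d₁ ^ 2) ^ 2 := by
        apply Nat.pow_le_pow_left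
        nlinarith
      have h3 : (d₁ + K) ^ K * (d₁ + 1) ^ 2 ≤ (d₁ ^ 2) ^ K * (d₁ ^ 2) ^ 2 :=
        Nat.mul_le_mul h1 h2
      have h4 : (d₁ ^ 2) ^ K * (d₁ ^ 2) ^ 2 = d₁ ^ (2 * K + 4) := by ring
      have h5 : d₁ ^ a = d₁ * d₁ ^ (2 * K + 4) := by
        rw [ha, ← pow_succ']
      have h6 : d₁ ≤ d₁ ^ (2 * K + 4) := Nat.le_self_pow (by omega) _
      rw [h5]
      rw [h4] at h3
      nlinarith
    have hq : Fintype.card (Vert L) * (d₁ + 1) ^ 2 ≤ d - d₁ := by
      have := Nat.mul_le_mul_right ((d₁ + 1) ^ 2) hcard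
      omega
    have hq0 : 0 < d - d₁ := by
      have h1 : 0 < (d₁ + K) ^ K * (d₁ + 1) ^ 2 := by positivity
      omega
    obtain ⟨L', hL'⟩ := grow L (by omega) hq0 (by positivity) hq hL
    have hex : ∃ L' : LPInstance (d₁ + (d - d₁)) (d₁ + K + (d - d₁ + 1)),
        ENNReal.ofReal (psi d₁ ((d₁ + 1) ^ 2) / 2 * (c * Real.log d₁ ^ K + 1)) ≤
          L'.expectedSteps := ⟨L', hL'⟩
    have e1 : d₁ + (d - d₁) = d := by omega
    have e2 : d₁ + K + (d - d₁ + 1) = d + (K + 1) := by omega
    rw [e1, e2] at hex
    obtain ⟨L'', hL''⟩ := hex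
    refine ⟨L'', le_trans (ENNReal.ofReal_le_ofReal ?_) hL''⟩
    -- real inequality
    have hlogd₁ : 0 < Real.log d₁ := by
      apply Real.log_pos
      exact_mod_cast (by omega : 1 < d₁)
    have hpsi : Real.log d₁ ≤ psi d₁ ((d₁ + 1) ^ 2) := by
      refine le_trans ?_ (psi_ge _ _)
      apply Real.log_le_log (by positivity)
      rw [le_div_iff₀ (by positivity)]
      push_cast
      nlinarith
    have hlogd : Real.log d / (2 * a) ≤ Real.log d₁ := by
      rw [div_le_iff₀ (by positivity)]
      have h1 : d < 2 ^ (Nat.log 2 d + 1) := Nat.lt_pow_succ_log_self (by norm_num) _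
      have h2 : Nat.log 2 d < a * (e + 1) := by
        rw [he]
        exact Nat.lt_mul_div_succ _ ha0
      have h3 : Nat.log 2 d + 1 ≤ a * (e + e) := by
        have : a * (e + 1) ≤ a * (e + e) := Nat.mul_le_mul_left _ (by omega)
        omega
      have h4 : Real.log d ≤ (Nat.log 2 d + 1 : ℕ) * Real.log 2 := by
        rw [← Real.log_pow]
        apply Real.log_le_log (by exact_mod_cast hd0)
        exact_mod_cast h1.le
      have h5 : Real.log d₁ = e * Real.log 2 := by
        rw [hd₁]
        push_cast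
        rw [Real.log_pow]
      have h6 : ((Nat.log 2 d + 1 : ℕ) : ℝ) ≤ a * (e + e) := by exact_mod_cast h3
      have h7 : 0 < Real.log 2 := Real.log_pos (by norm_num)
      rw [h5]
      have h8 := mul_le_mul_of_nonneg_right h6 h7.le
      linarith
    have hd1 : 0 ≤ Real.log d := Real.log_natCast_nonneg d
    have h9 : (Real.log d / (2 * a)) ^ (K + 1) ≤ Real.log d₁ ^ (K + 1) := by
      apply pow_le_pow_left₀ (by positivity) hlogd
    calc c / 2 * (1 / (2 * (a : ℝ))) ^ (K + 1) * Real.log d ^ (K + 1) =
        c / 2 * (Real.log d / (2 * a)) ^ (K + 1) := by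
          rw [mul_assoc, ← mul_pow]
          congr 2
          ring
      _ ≤ c / 2 * Real.log d₁ ^ (K + 1) := by gcongr
      _ = Real.log d₁ / 2 * (c * Real.log d₁ ^ K) := by rw [pow_succ]; ring
      _ ≤ psi d₁ ((d₁ + 1) ^ 2) / 2 * (c * Real.log d₁ ^ K + 1) := by
          apply mul_le_mul
          · linarith
          · linarith
          · positivity
          · have := psi_nonneg d₁ ((d₁ + 1) ^ 2)
            positivity

end Pool.Agent.FewFacets
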