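import Mathlib

/-!
# Driven processes with rings

A process with state space `X` is driven by rings of elements of a finite set `G`: in each tick
every `g` of `G` rings with probability `1 / N`, and nothing rings with probability
`(N - |G|) / N`. All expectations are written as finite recursions.
-/

namespace Pool.Agent.FewFacets

variable {α X : Type*}

/-- Expectation after one tick. -/
noncomputable def avg (f : X → α → X) (G : Finset α) (N : ℝ) (φ : X → ℝ) (x : X) : ℝ :=
  ((∑ g ∈ G, φ (f x g)) + (N - G.card) * φ x) / N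

open Classical in
/-- Expected total cost up to time `T`, while `p` has held without interruption. -/
noncomputable def acc (f : X → α → X) (G : Finset α) (N : ℝ) (p : X → Prop) (q : X → ℝ) :
    ℕ → X → ℝ
  | 0, _ => 0
  | T + 1, x => if p x then q x + avg f G N (acc f G N p q T) x else 0

open Classical in
/-- Expectation of `φ` at time `T` on the event that `p` holds at the times `0, …, T`. -/
noncomputable def kx (f : X → α → X) (G : Finset α) (N : ℝ) (p : X → Prop) (φ : X → ℝ) :
    ℕ → X → ℝ
  | 0, x => if p x then φ x else 0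
  | T + 1, x => if p x then avg f G N (kx f G N p φ T) x else 0

section avg

variable {f : X → α → X} {G : Finset α} {N : ℝ}

lemma avg_mono {φ ψ : X → ℝ} {x : X} (hN : 0 < N) (hG : (G.card : ℝ) ≤ N)
    (h : ∀ g ∈ G, φ (f x g) ≤ ψ (f x g)) (hx : φ x ≤ ψ x) : avg f G N φ x ≤ avg f G N ψ x := by
  unfold avg
  have h1 := Finset.sum_le_sum h
  have h2 : (N - G.card) * φ x ≤ (N - G.card) * ψ x :=
    mul_le_mul_of_nonneg_left hx (by linarith)
  gcongr

lemma avg_const (c : ℝ) (x : X) (hN : 0 < N) : avg f G N (fun _ => c) x = c := by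
  unfold avg
  rw [Finset.sum_const, nsmul_eq_mul]
  field_simp
  ring

lemma avg_add (φ ψ : X → ℝ) (x : X) :
    avg f G N (fun y => φ y + ψ y) x = avg f G N φ x + avg f G N ψ x := by
  unfold avg
  rw [Finset.sum_add_distrib]
  ring

lemma avg_const_mul (c : ℝ) (φ : X → ℝ) (x : X) :
    avg f G N (fun y => c * φ y) x = c * avg f G N φ x := by
  unfold avg
  rw [← Finset.mul_sum]
  ring

lemma avg_add_const (φ : X → ℝ) (c : ℝ) (x : X) (hN : 0 < N) :
    avg f G N (fun y => φ y + c) x = avg f G N φ x + c := by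
  rw [avg_add, avg_const c x hN]

lemma avg_nonneg {φ : X → ℝ} {x : X} (hN : 0 < N) (hG : (G.card : ℝ) ≤ N)
    (h : ∀ y, 0 ≤ φ y) : 0 ≤ avg f G N φ x := by
  have := avg_mono (f := f) (φ := fun _ => 0) (ψ := φ) (x := x) hN hG (fun g _ => h _) (h x)
  rwa [avg_const 0 x hN] at this

lemma avg_sum {ι : Type*} (s : Finset ι) (φ : ι → X → ℝ) (x : X) :
    avg f G N (fun y => ∑ i ∈ s, φ i y) x = ∑ i ∈ s, avg f G N (φ i) x := by
  unfold avg
  rw [Finset.sum_comm, Finset.mul_sum, ← Finset.sum_add_distrib, Finset.sum_div]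

end avg

section basic

variable {f : X → α → X} {G : Finset α} {N : ℝ}

lemma acc_zero (p : X → Prop) (q : X → ℝ) (x : X) : acc f G N p q 0 x = 0 := rfl

lemma acc_pos {p : X → Prop} (q : X → ℝ) (T : ℕ) {x : X} (h : p x) :
    acc f G N p q (T + 1) x = q x + avg f G N (acc f G N p q T) x := by
  rw [acc, if_pos h]

lemma acc_neg {p : X → Prop} (q : X → ℝ) (T : ℕ) {x : X} (h : ¬ p x) :
    acc f G N p q T x = 0 := by
  cases T with
  | zero => rfl
  | succ T => rw [acc, if_neg h]

lemma kx_zero_pos {p : X → Prop} (φ : X → ℝ) {x : X} (h : p x) :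
    kx f G N p φ 0 x = φ x := by
  rw [kx, if_pos h]

lemma kx_pos {p : X → Prop} (φ : X → ℝ) (T : ℕ) {x : X} (h : p x) :
    kx f G N p φ (T + 1) x = avg f G N (kx f G N p φ T) x := by
  rw [kx, if_pos h]

lemma kx_neg {p : X → Prop} (φ : X → ℝ) (T : ℕ) {x : X} (h : ¬ p x) :
    kx f G N p φ T x = 0 := by
  cases T with
  | zero => rw [kx, if_neg h]
  | succ T => rw [kx, if_neg h]

lemma acc_nonneg {p : X → Prop} {q : X → ℝ} (hN : 0 < N) (hG : (G.card : ℝ) ≤ N)
    (hq : ∀ y, 0 ≤ q y) (T : ℕ) (x : X) : 0 ≤ acc f G N p q T x := by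
  induction T generalizing x with
  | zero => exact le_rfl
  | succ T ih =>
    by_cases h : p x
    · rw [acc_pos q T h]
      have := avg_nonneg (f := f) (x := x) hN hG (φ := acc f G N p q T) (fun y => ih y)
      linarith [hq x]
    · rw [acc_neg q _ h]

lemma acc_mono_pred {p p' : X → Prop} {q : X → ℝ} (hN : 0 < N) (hG : (G.card : ℝ) ≤ N)
    (hq : ∀ y, 0 ≤ q y) (hp : ∀ y, p y → p' y) (T : ℕ) (x : X) :
    acc f G N p q T x ≤ acc f G N p' q T x := by
  induction T generalizing x with
  | zero => exact le_rfl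
  | succ T ih =>
    by_cases h : p x
    · rw [acc_pos q T h, acc_pos q T (hp x h)]
      have := avg_mono (f := f) (x := x) hN hG (fun g _ => ih (f x g)) (ih x)
      linarith
    · rw [acc_neg q _ h]
      exact acc_nonneg hN hG hq _ _

lemma acc_mono_time {p : X → Prop} {q : X → ℝ} (hN : 0 < N) (hG : (G.card : ℝ) ≤ N)
    (hq : ∀ y, 0 ≤ q y) (T : ℕ) (x : X) :
    acc f G N p q T x ≤ acc f G N p q (T + 1) x := by
  induction T generalizing x with
  | zero => exact acc_nonneg hN hG hq _ _
  | succ T ih =>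
    by_cases h : p x
    · rw [acc_pos q T h, acc_pos q (T + 1) h]
      have := avg_mono (f := f) (x := x) hN hG (fun g _ => ih (f x g)) (ih x)
      linarith
    · rw [acc_neg q _ h, acc_neg q _ h]

lemma kx_mono_on {p : X → Prop} {φ ψ : X → ℝ} (Q : X → Prop) (hN : 0 < N)
    (hG : (G.card : ℝ) ≤ N) (hQ : ∀ y, Q y → ∀ g ∈ G, Q (f y g))
    (h : ∀ y, Q y → p y → φ y ≤ ψ y) (T : ℕ) (x : X) (hx : Q x) :
    kx f G N p φ T x ≤ kx f G N p ψ T x := by
  induction T generalizing x with
  | zero =>
    by_cases hp : p x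
    · rw [kx_zero_pos _ hp, kx_zero_pos _ hp]
      exact h x hx hp
    · rw [kx_neg _ _ hp, kx_neg _ _ hp]
  | succ T ih =>
    by_cases hp : p x
    · rw [kx_pos _ T hp, kx_pos _ T hp]
      exact avg_mono hN hG (fun g hg => ih (f x g) (hQ x hx g hg)) (ih x hx)
    · rw [kx_neg _ _ hp, kx_neg _ _ hp]

lemma kx_add (p : X → Prop) (φ ψ : X → ℝ) (T : ℕ) (x : X) :
    kx f G N p (fun y => φ y + ψ y) T x = kx f G N p φ T x + kx f G N p ψ T x := by
  induction T generalizing x with
  | zero =>
    by_cases hp : p x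
    · simp only [kx_zero_pos _ hp]
    · simp only [kx_neg _ _ hp, add_zero]
  | succ T ih =>
    by_cases hp : p x
    · rw [kx_pos _ T hp, kx_pos _ T hp, kx_pos _ T hp, ← avg_add]
      congr 1
      funext y
      exact ih y
    · simp only [kx_neg _ _ hp, add_zero]

lemma kx_const_mul (p : X → Prop) (c : ℝ) (φ : X → ℝ) (T : ℕ) (x : X) :
    kx f G N p (fun y => c * φ y) T x = c * kx f G N p φ T x := by
  induction T generalizing x with
  | zero =>
    by_cases hp : p x
    · simp only [kx_zero_pos _ hp]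
    · simp only [kx_neg _ _ hp, mul_zero]
  | succ T ih =>
    by_cases hp : p x
    · rw [kx_pos _ T hp, kx_pos _ T hp, ← avg_const_mul]
      congr 1
      funext y
      exact ih y
    · simp only [kx_neg _ _ hp, mul_zero]

lemma kx_zero_fun (p : X → Prop) (T : ℕ) (x : X) :
    kx f G N p (fun _ => (0 : ℝ)) T x = 0 := by
  have := kx_const_mul (f := f) (G := G) (N := N) p 0 (fun _ => (0 : ℝ)) T x
  simpa using this

lemma kx_sum {ι : Type*} (p : X → Prop) (s : Finset ι) (φ : ι → X → ℝ) (T : ℕ) (x : X) :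
    kx f G N p (fun y => ∑ i ∈ s, φ i y) T x = ∑ i ∈ s, kx f G N p (φ i) T x := by
  classical
  induction s using Finset.induction_on with
  | empty => simpa using kx_zero_fun (f := f) (G := G) (N := N) p T x
  | insert i s hi ih =>
    rw [Finset.sum_insert hi, ← ih, ← kx_add]
    congr 1
    funext y
    rw [Finset.sum_insert hi]

lemma kx_nonneg {p : X → Prop} {φ : X → ℝ} (hN : 0 < N) (hG : (G.card : ℝ) ≤ N)
    (h : ∀ y, 0 ≤ φ y) (T : ℕ) (x : X) : 0 ≤ kx f G N p φ T x := by
  have := kx_mono_on (f := f) (p := p) (φ := fun _ => (0 : ℝ)) (ψ := φ) (fun _ => True) hN hG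
    (fun _ _ _ _ => trivial) (fun y _ _ => h y) T x trivial
  rwa [kx_zero_fun] at this

lemma kx_one_le {p : X → Prop} (hN : 0 < N) (hG : (G.card : ℝ) ≤ N) (T : ℕ) (x : X) :
    kx f G N p (fun _ => (1 : ℝ)) T x ≤ 1 := by
  induction T generalizing x with
  | zero =>
    by_cases hp : p x
    · rw [kx_zero_pos _ hp]
    · rw [kx_neg _ _ hp]; norm_num
  | succ T ih =>
    by_cases hp : p x
    · rw [kx_pos _ T hp]
      have := avg_mono (f := f) (φ := kx f G N p (fun _ => (1 : ℝ)) T) (ψ := fun _ => 1) (x := x)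
        hN hG (fun g _ => ih _) (ih x)
      rwa [avg_const 1 x hN] at this
    · rw [kx_neg _ _ hp]; norm_num

/-- Markov property. -/
lemma kx_time_add (p : X → Prop) (φ : X → ℝ) (S T : ℕ) (x : X) :
    kx f G N p φ (S + T) x = kx f G N p (kx f G N p φ T) S x := by
  induction S generalizing x with
  | zero =>
    rw [Nat.zero_add]
    by_cases hp : p x
    · rw [kx_zero_pos _ hp]
    · rw [kx_neg _ _ hp, kx_neg _ _ hp]
  | succ S ih =>
    rw [show S + 1 + T = (S + T) + 1 by ring]
    by_cases hp : p x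
    · rw [kx_pos _ _ hp, kx_pos _ _ hp]
      congr 1
      funext y
      exact ih y
    · rw [kx_neg _ _ hp, kx_neg _ _ hp]

lemma acc_time_add (p : X → Prop) (q : X → ℝ) (S T : ℕ) (x : X) :
    acc f G N p q (S + T) x = acc f G N p q S x + kx f G N p (acc f G N p q T) S x := by
  induction S generalizing x with
  | zero =>
    rw [Nat.zero_add, acc_zero, zero_add]
    by_cases hp : p x
    · rw [kx_zero_pos _ hp]
    · rw [kx_neg _ _ hp, acc_neg _ _ hp]
  | succ S ih =>
    rw [show S + 1 + T = (S + T) + 1 by ring]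
    by_cases hp : p x
    · rw [acc_pos _ _ hp, acc_pos _ _ hp, kx_pos _ _ hp, add_assoc, ← avg_add]
      congr 2
      funext y
      exact ih y
    · rw [acc_neg _ _ hp, acc_neg _ _ hp, kx_neg _ _ hp, add_zero]

/-- Markov inequality for the survival time. -/
lemma kx_one_mul_le {p : X → Prop} (hN : 0 < N) (hG : (G.card : ℝ) ≤ N) (T : ℕ) (x : X) :
    (T : ℝ) * kx f G N p (fun _ => (1 : ℝ)) T x ≤ acc f G N p (fun _ => 1) T x := by
  induction T generalizing x with
  | zero => simp [acc_zero]
  | succ T ih =>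
    by_cases hp : p x
    · have h1 := kx_one_le (f := f) (p := p) hN hG (T + 1) x
      rw [acc_pos _ _ hp]
      have h2 := avg_mono (f := f) (x := x)
        (φ := fun y => (T : ℝ) * kx f G N p (fun _ => (1 : ℝ)) T y)
        (ψ := acc f G N p (fun _ => 1) T) hN hG (fun g _ => ih _) (ih x)
      rw [avg_const_mul, ← kx_pos _ _ hp] at h2
      push_cast
      linarith
    · rw [kx_neg _ _ hp, acc_neg _ _ hp, mul_zero]

/-- Survival over a fixed time has probability at most `1 - δ`: the expected life is at most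
`T / δ`. -/
lemma acc_le_of_kx {p : X → Prop} {δ : ℝ} (hN : 0 < N) (hG : (G.card : ℝ) ≤ N) (hδ : 0 < δ)
    (T : ℕ) (hT : 0 < T) (h : ∀ y, kx f G N p (fun _ => (1 : ℝ)) T y ≤ 1 - δ)
    (S : ℕ) (x : X) : acc f G N p (fun _ => 1) S x ≤ T / δ := by
  have hT0 : ∀ y, acc f G N p (fun _ => 1) T y ≤ T := by
    clear h hT
    induction T with
    | zero => intro y; rw [acc_zero]; simp
    | succ T ih =>
      intro y
      by_cases hp : p y
      · rw [acc_pos _ _ hp]
        have h2 := avg_mono (f := f) (x := y) (φ := acc f G N p (fun _ => 1) T)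
          (ψ := fun _ => (T : ℝ)) hN hG (fun g _ => ih _) (ih y)
        rw [avg_const _ _ hN] at h2
        push_cast
        linarith
      · rw [acc_neg _ _ hp]; positivity
  have key : ∀ m : ℕ, ∀ y, acc f G N p (fun _ => 1) (m * T) y ≤ T / δ := by
    intro m
    induction m with
    | zero =>
      intro y
      rw [Nat.zero_mul, acc_zero]
      positivity
    | succ m ih =>
      intro y
      rw [Nat.succ_mul, Nat.add_comm, acc_time_add]
      have h1 : kx f G N p (acc f G N p (fun _ => 1) (m * T)) T y ≤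
          kx f G N p (fun _ => (T / δ) * 1) T y :=
        kx_mono_on (fun _ => True) hN hG (fun _ _ _ _ => trivial)
          (fun z _ _ => by rw [mul_one]; exact ih z) T y trivial
      rw [kx_const_mul] at h1
      have h2 : (T / δ) * kx f G N p (fun _ => (1 : ℝ)) T y ≤ (T / δ) * (1 - δ) :=
        mul_le_mul_of_nonneg_left (h y) (by positivity)
      have h3 : (T : ℝ) / δ * (1 - δ) = T / δ - T := by
        field_simp
      linarith [hT0 y]
  have hmono : Monotone fun S => acc f G N p (fun _ => 1) S x :=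
    monotone_nat_of_le_succ fun S => acc_mono_time hN hG (fun _ => zero_le_one) S x
  refine (hmono (Nat.le_mul_of_pos_right S hT)).trans (key S x)

/-- Decomposition: while `p'` holds, and afterwards at most `M`. -/
lemma acc_decomp {p p' : X → Prop} {q : X → ℝ} {M : ℝ} (Q : X → Prop) (hN : 0 < N)
    (hG : (G.card : ℝ) ≤ N) (hpp : ∀ y, p' y → p y)
    (hQ : ∀ y, Q y → ∀ g ∈ G, Q (f y g))
    (h : ∀ y, Q y → ¬ p' y → p y → ∀ T, acc f G N p q T y ≤ M) (hM : 0 ≤ M)
    (T : ℕ) (x : X) (hx : Q x) :
    acc f G N p q T x ≤ acc f G N p' q T x + M := by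
  induction T generalizing x with
  | zero => rw [acc_zero, acc_zero]; linarith
  | succ T ih =>
    by_cases hp' : p' x
    · rw [acc_pos _ _ hp', acc_pos _ _ (hpp x hp')]
      have := avg_mono (f := f) (x := x) (φ := acc f G N p q T)
        (ψ := fun y => acc f G N p' q T y + M) hN hG
        (fun g hg => ih (f x g) (hQ x hx g hg)) (ih x hx)
      rw [avg_add_const _ _ _ hN] at this
      linarith
    · by_cases hp : p x
      · have := h x hx hp' hp (T + 1)
        rw [acc_neg _ _ hp']
        linarith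
      · rw [acc_neg _ _ hp, acc_neg _ _ hp']
        linarith

/-- If every ring that moves the state kills it, the accumulated cost is the geometric one. -/
lemma acc_geom {p : X → Prop} {q : X → ℝ} {M : ℝ} (hN : 0 < N) (hG : (G.card : ℝ) ≤ N)
    (x : X) (V : Finset α) (hV : V ⊆ G) (h1 : ∀ g ∈ V, ¬ p (f x g))
    (h2 : ∀ g ∈ G, g ∉ V → f x g = x) (hM : 0 ≤ M) (hq : q x * N ≤ V.card * M)
    (T : ℕ) : acc f G N p q T x ≤ M := by
  classical
  induction T with
  | zero => rw [acc_zero]; exact hM
  | succ T ih =>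
    by_cases hp : p x
    · rw [acc_pos _ _ hp]
      unfold avg
      have h3 : ∑ g ∈ G, acc f G N p q T (f x g) ≤ (G.card - V.card) * M := by
        rw [← Finset.sum_sdiff hV]
        have e1 : ∑ g ∈ V, acc f G N p q T (f x g) = 0 :=
          Finset.sum_eq_zero fun g hg => acc_neg _ _ (h1 g hg)
        have e2 : ∑ g ∈ G \ V, acc f G N p q T (f x g) ≤ ∑ _g ∈ G \ V, M := by
          refine Finset.sum_le_sum fun g hg => ?_
          rw [Finset.mem_sdiff] at hg
          rw [h2 g hg.1 hg.2]
          exact ih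
        rw [Finset.sum_const, nsmul_eq_mul, Finset.card_sdiff_of_subset hV,
          Nat.cast_sub (Finset.card_le_card hV)] at e2
        linarith
      have h4 : (N - G.card) * acc f G N p q T x ≤ (N - G.card) * M :=
        mul_le_mul_of_nonneg_left ih (by linarith)
      have h5 : ((∑ g ∈ G, acc f G N p q T (f x g)) + (N - G.card) * acc f G N p q T x) / N ≤
          ((G.card - V.card) * M + (N - G.card) * M) / N := by
        gcongr
      have h6 : q x ≤ V.card * M / N := by
        rw [le_div_iff₀ hN]; exact hq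
      have h7 : ((G.card - V.card) * M + (N - G.card) * M) / N = M - V.card * M / N := by
        field_simp
        ring
      linarith
    · rw [acc_neg _ _ hp]
      exact hM

/-- Holding still the elements of `Y`. -/
lemma kx_hold [DecidableEq α] {p : X → Prop} (Y : Finset α) (hY : Y ⊆ G)
    (hG : (G.card : ℝ) < N) (T : ℕ) (x : X) :
    ((N - Y.card) / N) ^ T * (1 - kx f (G \ Y) (N - Y.card) p (fun _ => (1 : ℝ)) T x) ≤
      1 - kx f G N p (fun _ => (1 : ℝ)) T x := by
  have hc : (Y.card : ℝ) ≤ G.card := by exact_mod_cast Finset.card_le_card hY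
  have hY0 : (0 : ℝ) ≤ Y.card := by positivity
  have hN : 0 < N := by linarith
  have hN' : 0 < N - Y.card := by linarith
  have hr : (N - Y.card) / N ≤ 1 := by
    rw [div_le_one hN]; linarith
  have hr0 : 0 ≤ (N - Y.card) / N := by positivity
  have hG' : ((G \ Y).card : ℝ) = G.card - Y.card := by
    rw [Finset.card_sdiff_of_subset hY, Nat.cast_sub (Finset.card_le_card hY)]
  induction T generalizing x with
  | zero =>
    rw [pow_zero, one_mul]
    by_cases hp : p x
    · rw [kx_zero_pos _ hp, kx_zero_pos _ hp]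
    · rw [kx_neg _ _ hp, kx_neg _ _ hp]
  | succ T ih =>
    by_cases hp : p x
    · rw [kx_pos _ _ hp, kx_pos _ _ hp]
      set r := (N - Y.card) / N with hrdef
      have e1 : 1 - avg f G N (kx f G N p (fun _ => (1 : ℝ)) T) x =
          avg f G N (fun y => 1 - kx f G N p (fun _ => (1 : ℝ)) T y) x := by
        have : (fun y => 1 - kx f G N p (fun _ => (1 : ℝ)) T y) =
            fun y => (-1) * kx f G N p (fun _ => (1 : ℝ)) T y + 1 := by
          funext y; ring
        rw [this, avg_add_const _ _ _ hN, avg_const_mul]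
        ring
      have e2 : 1 - avg f (G \ Y) (N - Y.card)
            (kx f (G \ Y) (N - Y.card) p (fun _ => (1 : ℝ)) T) x =
          avg f (G \ Y) (N - Y.card)
            (fun y => 1 - kx f (G \ Y) (N - Y.card) p (fun _ => (1 : ℝ)) T y) x := by
        have : (fun y => 1 - kx f (G \ Y) (N - Y.card) p (fun _ => (1 : ℝ)) T y) =
            fun y => (-1) * kx f (G \ Y) (N - Y.card) p (fun _ => (1 : ℝ)) T y + 1 := by
          funext y; ring
        rw [this, avg_add_const _ _ _ hN', avg_const_mul]
        ring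
      rw [e1, e2]
      unfold avg
      rw [hG', show N - (Y.card : ℝ) - (G.card - Y.card) = N - G.card by ring]
      set a : X → ℝ := fun y => 1 - kx f G N p (fun _ => (1 : ℝ)) T y with ha
      set b : X → ℝ := fun y => 1 - kx f (G \ Y) (N - Y.card) p (fun _ => (1 : ℝ)) T y with hb
      have ha0 : ∀ y, 0 ≤ a y := fun y => by
        rw [ha]; simp only; linarith [kx_one_le (f := f) (p := p) hN hG.le T y]
      have h3 : r ^ T * ∑ g ∈ G \ Y, b (f x g) ≤ ∑ g ∈ G, a (f x g) := by
        rw [Finset.mul_sum]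
        calc ∑ g ∈ G \ Y, r ^ T * b (f x g) ≤ ∑ g ∈ G \ Y, a (f x g) :=
              Finset.sum_le_sum fun g _ => ih (f x g)
          _ ≤ ∑ g ∈ G, a (f x g) := by
              apply Finset.sum_le_sum_of_subset_of_nonneg Finset.sdiff_subset
              exact fun g _ _ => ha0 _
      have h4 : (N - G.card) * (r ^ T * b x) ≤ (N - G.card) * a x :=
        mul_le_mul_of_nonneg_left (ih x) (by linarith)
      have h5 : r ^ (T + 1) * (((∑ g ∈ G \ Y, b (f x g)) + (N - G.card) * b x) / (N - Y.card)) =
          (r ^ T * ∑ g ∈ G \ Y, b (f x g) + (N - G.card) * (r ^ T * b x)) / N := by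
        rw [pow_succ, hrdef]
        field_simp
      rw [h5]
      gcongr
    · rw [kx_neg _ _ hp, kx_neg _ _ hp, sub_zero, mul_one]
      exact pow_le_one₀ hr0 hr

end basic

end Pool.Agent.FewFacets
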