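import Pool.Agent.FewFacets.ExtC

/-!
# Choice of the deformation
-/

open scoped ENNReal Topology
open Matrix Filter Pool.Agent.Hhelper78.RandomEdge

namespace Pool.Agent.FewFacets

namespace Ext

variable {d n q : ℕ} (L : LPInstance d n)

lemma exists_strict : ∃ x₀ : Fin d → ℝ, ∀ l, L.A l ⬝ᵥ x₀ < L.b l := by
  obtain ⟨x₀, hx₀⟩ := L.fullDim
  refine ⟨x₀, fun l => ?_⟩
  obtain ⟨x, -, hx⟩ := L.irredundant l
  have hv := L.start.1 l
  set u := x - L.v₀ with hu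
  have hpos : 0 < L.A l ⬝ᵥ u := by
    rw [hu, dotProduct_sub]; linarith
  have hcont : Tendsto (fun t : ℝ => x₀ + t • u) (𝓝[>] 0) (𝓝 x₀) := by
    have h1 : Continuous fun t : ℝ => x₀ + t • u := by fun_prop
    have h2 := h1.tendsto 0
    simp only [zero_smul, add_zero] at h2
    exact h2.mono_left nhdsWithin_le_nhds
  have h3 : ∀ᶠ t in 𝓝[>] (0 : ℝ), x₀ + t • u ∈ poly L.A L.b :=
    hcont.eventually (mem_interior_iff_mem_nhds.mp hx₀)
  obtain ⟨t, ht, ht0⟩ := (h3.and self_mem_nhdsWithin).exists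
  have h4 := ht l
  rw [dotProduct_add, dotProduct_smul, smul_eq_mul] at h4
  have h5 : 0 < t := ht0
  nlinarith

lemma ev_lt {a b K : ℝ} (h : a < b) : ∀ᶠ ε in 𝓝[>] (0 : ℝ), a + ε * K < b := by
  have h1 : Continuous fun ε : ℝ => a + ε * K := by fun_prop
  have h2 := h1.tendsto 0
  simp only [zero_mul, add_zero] at h2
  exact (h2.mono_left nhdsWithin_le_nhds).eventually (gt_mem_nhds h)

/-- the dual vector of a vertex -/
noncomputable def yv (v : Vert L) : Fin n → ℝ := fun i =>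
  if i ∈ tight L.A L.b v.1 then -(L.c ⬝ᵥ dirV L v i) else 0

lemma yv_inj {v w : Vert L} (h : yv L v = yv L w) : v = w := by
  apply Subtype.ext
  apply eq_of_tight w.2
  intro i hi
  by_contra hcon
  have h1 := congrFun h i
  unfold yv at h1
  rw [if_neg hcon, if_pos hi] at h1
  have := dir_c L w hi
  apply this
  linarith

lemma yv_ne_zero (hd : 0 < d) (v : Vert L) : yv L v ≠ 0 := by
  intro h
  have h1 := L.simple _ v.2
  have h2 : (tight L.A L.b v.1).Nonempty := by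
    rw [← Finset.card_pos, h1]; exact hd
  obtain ⟨i, hi⟩ := h2
  have h3 := congrFun h i
  unfold yv at h3
  rw [if_pos hi] at h3
  have := dir_c L v hi
  apply this
  simp only [Pi.zero_apply] at h3
  linarith

/-- the deformation vectors -/
noncomputable def bet (Y : Fin (q + 1) → Fin n → ℝ) (ε : ℝ) : Fin (q + 1) → Fin n → ℝ :=
  fun j i => ε * (-2 * Y j i)

/-- the costs -/
noncomputable def gam (Y : Fin (q + 1) → Fin n → ℝ) (ε δ : ℝ) : Fin (q + 1) → ℝ :=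
  fun j => -ε * (Y j ⬝ᵥ Y j) + δ * (j : ℕ)

lemma dot_xv_bet (Y : Fin (q + 1) → Fin n → ℝ) (ε : ℝ) (a : Fin d → ℝ) (v : Vert L)
    (j : Fin (q + 1)) : a ⬝ᵥ xv L (bet Y ε) v j = a ⬝ᵥ v.1 +
      ε * ∑ i ∈ tight L.A L.b v.1, (-2 * Y j i) * (a ⬝ᵥ dirV L v i) := by
  rw [dot_xv]
  congr 1
  rw [Finset.mul_sum]
  refine Finset.sum_congr rfl fun i _ => ?_
  unfold bet
  ring

lemma hgt_eq (Y : Fin (q + 1) → Fin n → ℝ) (ε δ : ℝ) (v : Vert L) (j : Fin (q + 1)) :
    hgt L (bet Y ε) (gam Y ε δ) v j = L.c ⬝ᵥ v.1 + ε * (yv L v ⬝ᵥ yv L v) -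
      ε * ((yv L v - Y j) ⬝ᵥ (yv L v - Y j)) + δ * (j : ℕ) := by
  unfold hgt
  rw [dot_xv_bet]
  have h1 : ∑ i ∈ tight L.A L.b v.1, (-2 * Y j i) * (L.c ⬝ᵥ dirV L v i) =
      2 * (Y j ⬝ᵥ yv L v) := by
    unfold dotProduct yv
    rw [Finset.mul_sum]
    simp only [mul_ite, mul_zero]
    rw [← Finset.sum_filter, Finset.filter_mem_eq_inter, Finset.univ_inter]
    refine Finset.sum_congr rfl fun i _ => ?_
    unfold dotProduct
    ring
  rw [h1]
  unfold gam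
  have h2 : (yv L v - Y j) ⬝ᵥ (yv L v - Y j) =
      yv L v ⬝ᵥ yv L v - 2 * (Y j ⬝ᵥ yv L v) + Y j ⬝ᵥ Y j := by
    rw [sub_dotProduct, dotProduct_sub, dotProduct_sub, dotProduct_comm (yv L v) (Y j)]
    ring
  rw [h2]
  ring

/-- **Choice of the parameters.** -/
theorem exists_params (hq : 0 < q) (Y : Fin (q + 1) → Fin n → ℝ) (hY : Y 0 = 0) :
    ∃ (β : Fin (q + 1) → Fin n → ℝ) (γ : Fin (q + 1) → ℝ) (x₀ : Fin d → ℝ), Small L β γ x₀ ∧
      ∀ (v : Vert L) (j j' : Fin (q + 1)), Y j = yv L v → (Y j' ≠ yv L v ∨ j' < j) →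
        hgt L β γ v j' < hgt L β γ v j := by
  obtain ⟨x₀, hx₀⟩ := exists_strict L
  have e1 : ∀ᶠ ε in 𝓝[>] (0 : ℝ), ∀ (v : Vert L) (l : Fin n) (j : Fin (q + 1)),
      l ∉ tight L.A L.b v.1 → L.A l ⬝ᵥ xv L (bet Y ε) v j + bet Y ε j l < L.b l := by
    rw [eventually_all]; intro v
    rw [eventually_all]; intro l
    rw [eventually_all]; intro j
    by_cases h : l ∈ tight L.A L.b v.1
    · exact Eventually.of_forall fun ε h' => absurd h h'
    · have h1 : L.A l ⬝ᵥ v.1 < L.b l :=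
        lt_of_le_of_ne (v.2.1 l) fun h' => h (mem_tight.mpr h')
      filter_upwards [ev_lt (K := (∑ i ∈ tight L.A L.b v.1, (-2 * Y j i) *
        (L.A l ⬝ᵥ dirV L v i)) + (-2 * Y j l)) h1] with ε hε _
      rw [dot_xv_bet]
      unfold bet
      linarith
  have e2 : ∀ᶠ ε in 𝓝[>] (0 : ℝ), ∀ (v w : Vert L) (j : Fin (q + 1)),
      L.c ⬝ᵥ v.1 < L.c ⬝ᵥ w.1 → L.c ⬝ᵥ xv L (bet Y ε) v j < L.c ⬝ᵥ xv L (bet Y ε) w j := by
    rw [eventually_all]; intro v
    rw [eventually_all]; intro w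
    rw [eventually_all]; intro j
    by_cases h : L.c ⬝ᵥ v.1 < L.c ⬝ᵥ w.1
    · filter_upwards [ev_lt (K := (∑ i ∈ tight L.A L.b v.1, (-2 * Y j i) *
        (L.c ⬝ᵥ dirV L v i)) - (∑ i ∈ tight L.A L.b w.1, (-2 * Y j i) *
        (L.c ⬝ᵥ dirV L w i))) h] with ε hε _
      rw [dot_xv_bet, dot_xv_bet]
      linarith
    · exact Eventually.of_forall fun ε h' => absurd h' h
  have e3 : ∀ᶠ ε in 𝓝[>] (0 : ℝ), ∀ (l : Fin n) (j : Fin (q + 1)),
      L.A l ⬝ᵥ x₀ + bet Y ε j l < L.b l := by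
    rw [eventually_all]; intro l
    rw [eventually_all]; intro j
    filter_upwards [ev_lt (K := -2 * Y j l) (hx₀ l)] with ε hε
    unfold bet
    exact hε
  have e4 : ∀ᶠ ε in 𝓝[>] (0 : ℝ), ∀ (l : Fin n) (j j' : Fin (q + 1)),
      L.A l ⬝ᵥ x₀ + (2 * bet Y ε j' l - bet Y ε j l) ≤ L.b l := by
    rw [eventually_all]; intro l
    rw [eventually_all]; intro j
    rw [eventually_all]; intro j'
    filter_upwards [ev_lt (K := 2 * (-2 * Y j' l) - (-2 * Y j l)) (hx₀ l)] with ε hε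
    unfold bet
    linarith
  obtain ⟨ε, ⟨⟨⟨h1, h2⟩, h3⟩, h4⟩, hε⟩ := ((((e1.and e2).and e3).and e4).and
    self_mem_nhdsWithin).exists
  have hε0 : 0 < ε := hε
  have f1 : ∀ᶠ δ in 𝓝[>] (0 : ℝ), ∀ (v : Vert L) (j j' : Fin (q + 1)), j ≠ j' →
      hgt L (bet Y ε) (gam Y ε δ) v j ≠ hgt L (bet Y ε) (gam Y ε δ) v j' := by
    rw [eventually_all]; intro v
    rw [eventually_all]; intro j
    rw [eventually_all]; intro j'
    by_cases hjj : j = j'
    · exact Eventually.of_forall fun ε h' => absurd hjj h'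
    set a := (yv L v - Y j) ⬝ᵥ (yv L v - Y j) with ha
    set a' := (yv L v - Y j') ⬝ᵥ (yv L v - Y j') with ha'
    have hjv : ((j : ℕ) : ℝ) ≠ ((j' : ℕ) : ℝ) := by
      intro h
      apply hjj
      apply Fin.ext
      exact_mod_cast h
    rcases lt_trichotomy a a' with h | h | h
    · have h5 : ε * a < ε * a' := mul_lt_mul_of_pos_left h hε0
      filter_upwards [ev_lt (K := (j' : ℝ) - (j : ℝ)) h5] with δ hδ _
      rw [hgt_eq, hgt_eq, ← ha, ← ha']
      intro h6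
      have h7 : ε * a + δ * ((j' : ℝ) - (j : ℝ)) = ε * a' := by linarith
      linarith
    · filter_upwards [self_mem_nhdsWithin] with δ hδ _
      have hδ0 : 0 < δ := hδ
      rw [hgt_eq, hgt_eq, ← ha, ← ha', h]
      intro h6
      have h7 : δ * ((j : ℕ) : ℝ) = δ * ((j' : ℕ) : ℝ) := by linarith
      exact hjv (mul_left_cancel₀ hδ0.ne' h7)
    · have h5 : ε * a' < ε * a := mul_lt_mul_of_pos_left h hε0
      filter_upwards [ev_lt (K := (j : ℝ) - (j' : ℝ)) h5] with δ hδ _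
      rw [hgt_eq, hgt_eq, ← ha, ← ha']
      intro h6
      have h7 : ε * a' + δ * ((j : ℝ) - (j' : ℝ)) = ε * a := by linarith
      linarith
  have f2 : ∀ᶠ δ in 𝓝[>] (0 : ℝ), ∀ (v : Vert L) (j j' : Fin (q + 1)), Y j = yv L v →
      (Y j' ≠ yv L v ∨ j' < j) →
        hgt L (bet Y ε) (gam Y ε δ) v j' < hgt L (bet Y ε) (gam Y ε δ) v j := by
    rw [eventually_all]; intro v
    rw [eventually_all]; intro j
    rw [eventually_all]; intro j'
    by_cases hj : Y j = yv L v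
    swap
    · exact Eventually.of_forall fun ε h' => absurd h' hj
    by_cases hj' : Y j' = yv L v
    · filter_upwards [self_mem_nhdsWithin] with δ hδ _ h
      have hδ0 : 0 < δ := hδ
      rcases h with h | h
      · exact absurd hj' h
      · rw [hgt_eq, hgt_eq, hj, hj']
        have h5 : ((j' : ℕ) : ℝ) < ((j : ℕ) : ℝ) := by exact_mod_cast h
        have := mul_lt_mul_of_pos_left h5 hδ0
        linarith
    · have hpos : 0 < (yv L v - Y j') ⬝ᵥ (yv L v - Y j') := by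
        have hne : yv L v - Y j' ≠ 0 := fun h => hj' (sub_eq_zero.mp h).symm
        obtain ⟨i, hi⟩ := Function.ne_iff.mp hne
        unfold dotProduct
        apply Finset.sum_pos' (fun i _ => mul_self_nonneg _)
        exact ⟨i, Finset.mem_univ _, mul_self_pos.mpr hi⟩
      have h5 : 0 < ε * ((yv L v - Y j') ⬝ᵥ (yv L v - Y j')) := mul_pos hε0 hpos
      filter_upwards [ev_lt (K := (j' : ℝ) - (j : ℝ)) h5] with δ hδ _ _
      rw [hgt_eq, hgt_eq, hj, sub_self, zero_dotProduct, mul_zero]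
      linarith
  obtain ⟨δ, ⟨h5, h6⟩, hδ⟩ := ((f1.and f2).and self_mem_nhdsWithin).exists
  refine ⟨bet Y ε, gam Y ε δ, x₀, ⟨hq, ?_, ?_, fun v l hl j => h1 v l j hl,
    fun v w hvw j => h2 v w j hvw, h3, h4, fun v j j' hjj => h5 v j j' hjj⟩, h6⟩
  · unfold bet
    rw [hY]
    funext i
    simp
  · unfold gam
    rw [hY]
    simp

end Ext

end Pool.Agent.FewFacets
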