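import Pool.Agent.FewFacets.ClaimA

/-!
# The number of pivots
-/

namespace Pool.Agent.FewFacets

namespace Sys

variable {α σ : Type} [DecidableEq α] [Fintype α] {S : Sys α σ}

/-- the expected number of pivots in one tick -/
noncomputable def pq (S : Sys α σ) (N : ℝ) (B : σ) : ℝ := (S.viol B).card / N

/-- At most `R` pivots with `d` free elements. -/
def ClaimR (S : Sys α σ) (N R : ℝ) (d : ℕ) : Prop :=
  ∀ (H : Finset α) (c : ℝ), S.k ≤ H.card + d → ∀ T B,
    acc S.stp Finset.univ N (S.al H c) (S.pq N) T B ≤ R

omit [Fintype α] in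
lemma pq_nonneg {N : ℝ} (hN : 0 < N) (B : σ) : 0 ≤ S.pq N B := by
  unfold pq; positivity

lemma claimR_zero {N : ℝ} (hN : 0 < N) (hn : (Fintype.card α : ℝ) ≤ N) : ClaimR S N 1 0 := by
  intro H c hk T B
  by_cases hal : S.al H c B
  swap
  · rw [acc_neg _ _ hal]; exact zero_le_one
  refine acc_viol (S := S) hN (by rwa [Finset.card_univ]) B (Finset.subset_univ _) ?_ T
  intro g hg h
  have h1 : insert g H ⊆ S.bas (S.stp B g) :=
    Finset.insert_subset (S.mem_stp B g hg) h.1
  have h2 : g ∉ H := fun h3 => S.not_mem B g hg (hal.1 h3)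
  have h3 := Finset.card_le_card h1
  rw [Finset.card_insert_of_notMem h2] at h3
  have h4 := S.card_le (S.stp B g)
  omega

/-- Pivots in a band. -/
lemma band {N R c c₀ : ℝ} (hN : 0 < N) (hn : (Fintype.card α : ℝ) ≤ N) (hR : 0 ≤ R)
    {H V : Finset α} (hHR : ∀ b ∉ H, ∀ T B,
      acc S.stp Finset.univ N (S.al (insert b H) c) (S.pq N) T B ≤ R)
    (hV : ∀ B, S.bas B ⊆ H ∪ (Finset.univ \ V) → S.val B ≤ c₀)
    (T : ℕ) (B : σ) (b : α) (hb : b ∈ S.fr H V B) (hB : c₀ < S.val B) :
    acc S.stp Finset.univ N (S.al H c) (S.pq N) T B ≤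
      acc S.stp Finset.univ N (S.al (insert b H) c) (S.pq N) T B + R * ((S.fr H V B).card - 1) +
        R * (V.card / N) * acc S.stp Finset.univ N (S.al H c) (fun _ => 1) T B := by
  have hn' : ((Finset.univ : Finset α).card : ℝ) ≤ N := by rwa [Finset.card_univ]
  have one0 : ∀ y : σ, (0 : ℝ) ≤ (fun _ : σ => (1 : ℝ)) y := fun _ => zero_le_one
  have hfr1 : ∀ {B : σ} {b : α}, b ∈ S.fr H V B → 0 ≤ ((S.fr H V B).card : ℝ) - 1 := by
    intro B b hb
    have : 1 ≤ (S.fr H V B).card := Finset.card_pos.mpr ⟨b, hb⟩
    have : (1 : ℝ) ≤ (S.fr H V B).card := by exact_mod_cast this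
    linarith
  induction T generalizing B b with
  | zero =>
    rw [acc_zero, acc_zero, acc_zero]
    have := mul_nonneg hR (hfr1 hb)
    linarith
  | succ T ih =>
    have hb' := mem_fr.mp hb
    have hRV : 0 ≤ R * (V.card / N) := by positivity
    by_cases hal : S.al H c B
    swap
    · rw [acc_neg _ _ hal]
      have h1 := mul_nonneg hR (hfr1 hb)
      have h2 := acc_nonneg (f := S.stp) (p := S.al (insert b H) c) hN hn'
        (pq_nonneg (S := S) hN) (T + 1) B
      have h3 := acc_nonneg (f := S.stp) (p := S.al H c) hN hn' one0 (T + 1) B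
      have h4 := mul_nonneg hRV h3
      linarith
    have hal' : S.al (insert b H) c B := ⟨Finset.insert_subset hb'.1 hal.1, hal.2⟩
    rw [acc_pos _ _ hal, acc_pos _ _ hal', acc_pos _ _ hal]
    set a1 := acc S.stp Finset.univ N (S.al H c) (S.pq N) T with ha1
    set a2 := acc S.stp Finset.univ N (S.al (insert b H) c) (S.pq N) T with ha2
    set a3 := acc S.stp Finset.univ N (S.al H c) (fun _ => 1) T with ha3
    have ha2n : ∀ y, 0 ≤ a2 y := fun y => acc_nonneg hN hn' (pq_nonneg hN) T y
    have ha3n : ∀ y, 0 ≤ a3 y := fun y => acc_nonneg hN hn' one0 T y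
    have hg : ∀ g : α, a1 (S.stp B g) ≤ (a2 (S.stp B g) + R * ((S.fr H V B).card - 1) +
        R * (V.card / N) * a3 (S.stp B g)) + (if g ∈ V then R else 0) := by
      intro g
      have hval : c₀ < S.val (S.stp B g) := lt_of_lt_of_le hB (S.val_le B g)
      have hif : 0 ≤ (if g ∈ V then R else 0) := by split_ifs <;> [exact hR; exact le_rfl]
      have h3 := mul_nonneg hRV (ha3n (S.stp B g))
      by_cases halg : S.al H c (S.stp B g)
      swap
      · rw [ha1, acc_neg _ _ halg]
        have h1 := mul_nonneg hR (hfr1 hb)
        have h2 := ha2n (S.stp B g)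
        linarith
      have hsub : S.fr H V (S.stp B g) ⊆ (S.fr H V B) ∪ (if g ∈ V then {g} else ∅) := by
        intro a ha
        rw [mem_fr] at ha
        have h1 := S.stp_sub B g ha.1
        rw [Finset.mem_insert] at h1
        rcases h1 with h1 | h1
        · subst h1
          rw [if_pos ha.2.2]
          exact Finset.mem_union_right _ (Finset.mem_singleton_self _)
        · exact Finset.mem_union_left _ (mem_fr.mpr ⟨h1, ha.2⟩)
      by_cases hbg : b ∈ S.bas (S.stp B g)
      · have h1 := ih (S.stp B g) b (mem_fr.mpr ⟨hbg, hb'.2⟩) hval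
        have h2 : ((S.fr H V (S.stp B g)).card : ℝ) ≤ (S.fr H V B).card +
            (if g ∈ V then 1 else 0) := by
          have h4 := (Finset.card_le_card hsub).trans (Finset.card_union_le _ _)
          split_ifs at h4 ⊢ with hgV
          · rw [Finset.card_singleton] at h4
            exact_mod_cast h4
          · rw [Finset.card_empty] at h4
            have : (S.fr H V (S.stp B g)).card ≤ (S.fr H V B).card := by omega
            rw [add_zero]
            exact_mod_cast this
        have h5 : R * (((S.fr H V (S.stp B g)).card : ℝ) - 1) ≤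
            R * ((S.fr H V B).card - 1) + (if g ∈ V then R else 0) := by
          have h6 : R * (((S.fr H V (S.stp B g)).card : ℝ) - 1) ≤
              R * (((S.fr H V B).card + (if g ∈ V then 1 else 0)) - 1) :=
            mul_le_mul_of_nonneg_left (by linarith) hR
          refine h6.trans (le_of_eq ?_)
          split_ifs <;> ring
        linarith
      · have hex : ∃ a, a ∈ S.fr H V (S.stp B g) := by
          by_contra hcon
          push Not at hcon
          have h1 := hV (S.stp B g) (by
            intro a ha
            by_cases haH : a ∈ H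
            · exact Finset.mem_union_left _ haH
            · refine Finset.mem_union_right _ (Finset.mem_sdiff.mpr ⟨Finset.mem_univ _, ?_⟩)
              exact fun haV => hcon a (mem_fr.mpr ⟨ha, haH, haV⟩))
          linarith
        obtain ⟨a, ha⟩ := hex
        have h1 := ih (S.stp B g) a ha hval
        have h1' := hHR a (mem_fr.mp ha).2.1 T (S.stp B g)
        have hsub' : S.fr H V (S.stp B g) ⊆
            ((S.fr H V B).erase b) ∪ (if g ∈ V then {g} else ∅) := by
          intro z hz
          have h2 := hsub hz
          rw [Finset.mem_union] at h2 ⊢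
          rcases h2 with h2 | h2
          · left
            rw [Finset.mem_erase]
            refine ⟨?_, h2⟩
            rintro rfl
            exact hbg (mem_fr.mp hz).1
          · right; exact h2
        have h2 : ((S.fr H V (S.stp B g)).card : ℝ) ≤ ((S.fr H V B).card - 1) +
            (if g ∈ V then 1 else 0) := by
          have h4 := (Finset.card_le_card hsub').trans (Finset.card_union_le _ _)
          have h7 : 1 ≤ (S.fr H V B).card := Finset.card_pos.mpr ⟨b, hb⟩
          rw [Finset.card_erase_of_mem hb] at h4
          have h8 : (((S.fr H V B).card - 1 : ℕ) : ℝ) = (S.fr H V B).card - 1 := by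
            rw [Nat.cast_sub h7, Nat.cast_one]
          rw [← h8]
          split_ifs at h4 ⊢ with hgV
          · rw [Finset.card_singleton] at h4
            exact_mod_cast h4
          · rw [Finset.card_empty, add_zero] at h4
            rw [add_zero]
            exact_mod_cast h4
        have h5 : R + R * (((S.fr H V (S.stp B g)).card : ℝ) - 1) ≤
            R * ((S.fr H V B).card - 1) + (if g ∈ V then R else 0) := by
          have h6 : R * ((S.fr H V (S.stp B g)).card : ℝ) ≤
              R * (((S.fr H V B).card - 1) + (if g ∈ V then 1 else 0)) :=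
            mul_le_mul_of_nonneg_left h2 hR
          have h9 : R * (((S.fr H V B).card - 1 : ℝ) + (if g ∈ V then 1 else 0)) =
              R * ((S.fr H V B).card - 1) + (if g ∈ V then R else 0) := by
            split_ifs <;> ring
          linarith
        have h10 := ha2n (S.stp B g)
        linarith
    have hstay := ih B b hb hB
    rw [← ha2] at hstay
    have hsum : ∑ g : α, a1 (S.stp B g) ≤ ∑ g : α, ((a2 (S.stp B g) +
        R * ((S.fr H V B).card - 1) + R * (V.card / N) * a3 (S.stp B g)) +
          (if g ∈ V then R else 0)) := Finset.sum_le_sum fun g _ => hg g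
    have hsum2 : ∑ g : α, ((a2 (S.stp B g) +
        R * ((S.fr H V B).card - 1) + R * (V.card / N) * a3 (S.stp B g)) +
          (if g ∈ V then R else 0)) = (∑ g : α, a2 (S.stp B g)) +
            (Finset.univ : Finset α).card * (R * ((S.fr H V B).card - 1)) +
            R * (V.card / N) * (∑ g : α, a3 (S.stp B g)) + V.card * R := by
      rw [Finset.sum_add_distrib, Finset.sum_add_distrib, Finset.sum_add_distrib,
        Finset.sum_const, nsmul_eq_mul, ← Finset.mul_sum]
      congr 1
      rw [← Finset.sum_filter, Finset.sum_const, nsmul_eq_mul, Finset.filter_mem_eq_inter,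
        Finset.univ_inter]
    rw [hsum2] at hsum
    have hstay2 : (N - (Finset.univ : Finset α).card) * a1 B ≤
        (N - (Finset.univ : Finset α).card) * (a2 B + R * ((S.fr H V B).card - 1) +
          R * (V.card / N) * a3 B) := mul_le_mul_of_nonneg_left hstay (by linarith)
    have hfin : avg S.stp Finset.univ N a1 B ≤ avg S.stp Finset.univ N a2 B +
        R * ((S.fr H V B).card - 1) + R * (V.card / N) * (1 + avg S.stp Finset.univ N a3 B) := by
      unfold avg
      rw [div_le_iff₀ hN]
      have e : ((∑ g : α, a2 (S.stp B g) + (N - (Finset.univ : Finset α).card) * a2 B) / N +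
          R * ((S.fr H V B).card - 1) + R * (V.card / N) *
            (1 + (∑ g : α, a3 (S.stp B g) + (N - (Finset.univ : Finset α).card) * a3 B) / N)) * N =
          ((∑ g : α, a2 (S.stp B g)) + (Finset.univ : Finset α).card *
            (R * ((S.fr H V B).card - 1)) +
            R * (V.card / N) * (∑ g : α, a3 (S.stp B g)) + V.card * R) +
          (N - (Finset.univ : Finset α).card) * (a2 B + R * ((S.fr H V B).card - 1) +
          R * (V.card / N) * a3 B) := by
        field_simp
        ring
      rw [e]
      linarith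
    linarith

/-- The state itself: one more pivot. -/
lemma acc_self_q {H : Finset α} {N c M : ℝ} (hN : 0 < N) (hn : (Fintype.card α : ℝ) ≤ N)
    (B : σ) (hB : S.al H c B) (hM : 0 ≤ M)
    (h : ∀ T B', S.val B < S.val B' → acc S.stp Finset.univ N (S.al H c) (S.pq N) T B' ≤ M)
    (T : ℕ) : acc S.stp Finset.univ N (S.al H c) (S.pq N) T B ≤ 1 + M := by
  have hn' : ((Finset.univ : Finset α).card : ℝ) ≤ N := by rwa [Finset.card_univ]
  have hdec := acc_decomp (f := S.stp) (G := Finset.univ) (N := N) (p := S.al H c)
    (p' := S.al H (S.val B)) (q := S.pq N) (M := M) (fun _ => True) hN hn'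
    (fun y hy => ⟨hy.1, hy.2.trans hB.2⟩) (fun _ _ _ _ => trivial)
    (fun y _ h1 h2 T' => h T' y (by
      by_contra h3
      exact h1 ⟨h2.1, not_lt.mp h3⟩)) hM T B trivial
  have h1 := acc_viol (S := S) (N := N) (G := Finset.univ) (p := S.al H (S.val B)) hN hn' B
    (Finset.subset_univ _) (by
    intro g hg h2
    exact absurd h2.2 (not_le.mpr (S.val_lt B g hg))) T
  have h2 : acc S.stp Finset.univ N (S.al H (S.val B)) (S.pq N) T B ≤ 1 := h1
  linarith

/-- One more free element. -/
theorem claimR_succ [Finite σ] {N R : ℝ} {d J : ℕ} (hN : 0 < N)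
    (hn : 6 * (Fintype.card α : ℝ) ≤ N) (hJ : Fintype.card α < 2 ^ J) (hR : 0 ≤ R)
    (h : ClaimR S N R d) :
    ClaimR S N (J * (1 + R * ((d + 1) + 2 * cB (d + 1) (cF d)))) (d + 1) := by
  intro H c hk T B
  have hn0 : (0 : ℝ) ≤ Fintype.card α := by positivity
  have hn1 : (Fintype.card α : ℝ) ≤ N := by linarith
  have hn' : ((Finset.univ : Finset α).card : ℝ) ≤ N := by rwa [Finset.card_univ]
  have hn6 : 6 * ((Finset.univ : Finset α).card : ℝ) ≤ N := by rwa [Finset.card_univ]
  set C := cB (d + 1) (cF d) with hC
  have hC0 : 0 ≤ C := cB_nonneg (Nat.succ_pos d) (cF_ge d)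
  set X := 1 + R * ((d + 1) + 2 * C) with hX
  have hX0 : 0 ≤ X := by positivity
  by_cases hal : S.al H c B
  swap
  · rw [acc_neg _ _ hal]; positivity
  have key : ∀ j : ℕ, ∀ B, S.al H c B →
      (∃ Z, S.Hit H Finset.univ (S.val B) Z ∧ Z.card < 2 ^ j) →
      ∀ T, acc S.stp Finset.univ N (S.al H c) (S.pq N) T B ≤ j * X := by
    intro j
    induction j with
    | zero =>
      rintro B hal ⟨Z, hZ, hZc⟩ T
      rw [pow_zero, Nat.lt_one_iff, Finset.card_eq_zero] at hZc
      subst hZc
      have hviol : S.viol B = ∅ := by
        rw [Finset.eq_empty_iff_forall_notMem]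
        intro g hg
        have h1 := S.val_lt B g hg
        have h2 := hZ.2 (S.stp B g) (by
          rw [Finset.sdiff_empty]
          exact (Finset.subset_univ _).trans Finset.subset_union_right)
        linarith
      rw [Nat.cast_zero, zero_mul]
      apply acc_geom (f := S.stp) hN hn' B ∅ (Finset.empty_subset _)
      · intro g hg; exact absurd hg (Finset.notMem_empty g)
      · intro g _ _
        exact S.stp_self B g (by rw [hviol]; exact Finset.notMem_empty g)
      · exact le_rfl
      · unfold pq
        rw [hviol]
        simp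
    | succ j ih =>
      rintro B hal ⟨V, hV, hVc⟩ T
      by_cases hPj : ∃ Z, S.Hit H Finset.univ (S.val B) Z ∧ Z.card < 2 ^ j
      · refine (ih B hal hPj T).trans ?_
        push_cast
        linarith
      · obtain ⟨Bt, hBt, hmax⟩ := Set.exists_max_image
          {B' | S.al H c B' ∧ ¬ ∃ Z, S.Hit H Finset.univ (S.val B') Z ∧ Z.card < 2 ^ j}
          S.val (Set.toFinite _) ⟨B, hal, hPj⟩
        set c' := S.val Bt with hc'
        have hrob' : S.Rob H Finset.univ (2 ^ j) c' := by
          intro Z hZ
          by_contra h
          refine hBt.2 ⟨Z, hZ, ?_⟩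
          have := not_le.mp h
          exact_mod_cast this
        have hsj : (0 : ℝ) < 2 ^ j := by positivity
        have hc'c : c' ≤ c := hBt.1.2
        have hBc' : S.al H c' B := ⟨hal.1, hmax B ⟨hal, hPj⟩⟩
        have hVc' : (V.card : ℝ) ≤ 2 * 2 ^ j := by
          have : V.card ≤ 2 * 2 ^ j := by
            rw [pow_succ] at hVc; omega
          exact_mod_cast this
        have hband : ∀ T' B', S.val B < S.val B' →
            acc S.stp Finset.univ N (S.al H c') (S.pq N) T' B' ≤ R * ((d + 1) + 2 * C) := by
          intro T' B' hB'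
          by_cases hal' : S.al H c' B'
          swap
          · rw [acc_neg _ _ hal']; positivity
          have hex : ∃ a, a ∈ S.fr H V B' := by
            by_contra hcon
            push Not at hcon
            have h1 := hV.2 B' (by
              intro a ha
              by_cases haH : a ∈ H
              · exact Finset.mem_union_left _ haH
              · refine Finset.mem_union_right _ (Finset.mem_sdiff.mpr ⟨Finset.mem_univ _, ?_⟩)
                exact fun haV => hcon a (mem_fr.mpr ⟨ha, haH, haV⟩))
            linarith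
          obtain ⟨b, hb⟩ := hex
          have hHR : ∀ b ∉ H, ∀ T B,
              acc S.stp Finset.univ N (S.al (insert b H) c') (S.pq N) T B ≤ R := by
            intro b hb T B
            refine h (insert b H) c' ?_ T B
            rw [Finset.card_insert_of_notMem hb]
            omega
          have h1 := band (S := S) (N := N) (R := R) (c := c') (c₀ := S.val B) hN hn1 hR hHR hV.2
            T' B' b hb hB'
          have h2 := hHR b (mem_fr.mp hb).2.1 T' B'
          have h3 : ((S.fr H V B').card : ℝ) ≤ d + 1 := by
            have := card_fr (V := V) hk hal'.1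
            exact_mod_cast this
          have h4 := claimB' (S := S) d H V Finset.univ N (2 ^ j) c' (S.val B) hk hn6 hN hsj
            hrob' (Finset.subset_univ _) hVc' hV.2 T' B' hB'
          rw [← hC] at h4
          have h5 : R * (V.card / N) *
              acc S.stp Finset.univ N (S.al H c') (fun _ => 1) T' B' ≤ R * (2 * C) := by
            rw [mul_assoc]
            apply mul_le_mul_of_nonneg_left _ hR
            calc (V.card : ℝ) / N * acc S.stp Finset.univ N (S.al H c') (fun _ => 1) T' B' ≤
                (2 * 2 ^ j) / N * (C * (N / 2 ^ j)) := by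
                  apply mul_le_mul _ h4 _ (by positivity)
                  · gcongr
                  · exact acc_nonneg hN hn' (fun _ => zero_le_one) _ _
              _ = 2 * C := by field_simp
          have h6 : R * (((S.fr H V B').card : ℝ) - 1) ≤ R * ((d + 1) - 1) :=
            mul_le_mul_of_nonneg_left (by linarith) hR
          linarith
        have h1 := acc_self_q (S := S) hN hn1 B hBc' (by positivity) hband T
        have hdec := acc_decomp (f := S.stp) (G := Finset.univ) (N := N) (p := S.al H c)
          (p' := S.al H c') (q := S.pq N) (M := j * X)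
          (fun _ => True) hN hn'
          (fun y hy => ⟨hy.1, hy.2.trans hc'c⟩) (fun _ _ _ _ => trivial)
          (fun y _ h1 h2 T' => ih y h2 (by
            by_contra h3
            exact h1 ⟨h2.1, hmax y ⟨h2, h3⟩⟩) T') (by positivity) T B trivial
        push_cast
        linarith
  refine key J B hal ⟨S.viol B ∩ Finset.univ, hit_viol hal.1, ?_⟩ T
  refine lt_of_le_of_lt ?_ hJ
  rw [← Finset.card_univ]
  exact Finset.card_le_card Finset.inter_subset_right

/-- the final constants -/
noncomputable def cG : ℕ → ℝ
  | 0 => 1
  | d + 1 => 1 + cG d * ((d + 1) + 2 * cB (d + 1) (cF d))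

lemma cG_nonneg (d : ℕ) : 0 ≤ cG d := by
  induction d with
  | zero => exact zero_le_one
  | succ d ih =>
    rw [cG]
    have := cB_nonneg (Nat.succ_pos d) (cF_ge d)
    positivity

/-- **The number of pivots.** -/
theorem claimR [Finite σ] {N : ℝ} {J : ℕ} (hN : 0 < N)
    (hn : 6 * (Fintype.card α : ℝ) ≤ N) (hJ : Fintype.card α < 2 ^ J) (hJ1 : 1 ≤ J) (d : ℕ) :
    ClaimR S N (cG d * (J : ℝ) ^ d) d := by
  have hn0 : (0 : ℝ) ≤ Fintype.card α := by positivity
  have hJ' : (1 : ℝ) ≤ J := by exact_mod_cast hJ1
  induction d with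
  | zero =>
    rw [pow_zero, mul_one, cG]
    exact claimR_zero hN (by linarith)
  | succ d ih =>
    have hcg := cG_nonneg d
    have hcb := cB_nonneg (Nat.succ_pos d) (cF_ge d)
    intro H c hk T B
    have h1 := claimR_succ (S := S) hN hn hJ (by positivity) ih H c hk T B
    refine h1.trans ?_
    rw [cG, pow_succ]
    have h2 : (1 : ℝ) ≤ J ^ d := one_le_pow₀ hJ'
    have h3 : 1 + cG d * (J : ℝ) ^ d * ((d + 1) + 2 * cB (d + 1) (cF d)) ≤
        (1 + cG d * ((d + 1) + 2 * cB (d + 1) (cF d))) * J ^ d := by nlinarith
    have h4 := mul_le_mul_of_nonneg_left h3 (show (0 : ℝ) ≤ J by linarith)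
    linarith

end Sys

end Pool.Agent.FewFacets
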