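import Pool.Agent.Hhelper78.RandomEdge.Geometry2
import Pool.Agent.FewFacets.Limit

/-!
# The system of an instance with `n = d + k` facets, and the random walk
-/

open scoped ENNReal Topology
open Matrix Filter Pool.Agent.Hhelper78.RandomEdge

namespace Pool.Agent.FewFacets

variable {d n : ℕ} (L : LPInstance d n)

/-- the type of vertices -/
abbrev Vert : Type := {v : Fin d → ℝ // v ∈ (poly L.A L.b).extremePoints ℝ}

noncomputable instance : Fintype (Vert L) := by
  have : Function.Injective fun v : Vert L => tight L.A L.b v.1 := by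
    intro v w h
    exact Subtype.ext (eq_of_tight w.2 (le_of_eq h.symm))
  exact Fintype.ofInjective _ this

noncomputable instance : DecidableEq (Vert L) := Classical.decEq _

lemma exists_nbr' (v : Vert L) (i : Fin n) : ∃ (w : Vert L) (j : Fin n), i ∈ tight L.A L.b v.1 →
    w.1 ≠ v.1 ∧ j ∉ tight L.A L.b v.1 ∧
      tight L.A L.b w.1 = insert j ((tight L.A L.b v.1).erase i) := by
  by_cases hi : i ∈ tight L.A L.b v.1
  · obtain ⟨w, hw, hne, j, hj, heq⟩ := exists_nbr L.bounded L.simple v.2 hi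
    exact ⟨⟨w, hw⟩, j, fun _ => ⟨hne, hj, heq⟩⟩
  · exact ⟨v, i, fun h => absurd h hi⟩

/-- the neighbour across a facet -/
noncomputable def nbV (v : Vert L) (i : Fin n) : Vert L := (exists_nbr' L v i).choose

/-- the entering facet -/
noncomputable def ixV (v : Vert L) (i : Fin n) : Fin n := (exists_nbr' L v i).choose_spec.choose

lemma nb_spec (v : Vert L) (i : Fin n) (hi : i ∈ tight L.A L.b v.1) :
    (nbV L v i).1 ≠ v.1 ∧ ixV L v i ∉ tight L.A L.b v.1 ∧
      tight L.A L.b (nbV L v i).1 = insert (ixV L v i) ((tight L.A L.b v.1).erase i) :=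
  (exists_nbr' L v i).choose_spec.choose_spec hi

lemma erase_sub_nb (v : Vert L) (i : Fin n) (hi : i ∈ tight L.A L.b v.1) :
    (tight L.A L.b v.1).erase i ⊆ tight L.A L.b (nbV L v i).1 := by
  rw [(nb_spec L v i hi).2.2]
  exact Finset.subset_insert _ _

lemma nb_eq (v w : Vert L) (i : Fin n) (hi : i ∈ tight L.A L.b v.1) (hne : w.1 ≠ v.1)
    (h : (tight L.A L.b v.1).erase i ⊆ tight L.A L.b w.1) : nbV L v i = w :=
  Subtype.ext (nbr_unique v.2 (L.simple _ v.2) hi (nbV L v i).2 w.2 (nb_spec L v i hi).1 hne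
    (erase_sub_nb L v i hi) h)

lemma adj_nb (v : Vert L) (i : Fin n) (hi : i ∈ tight L.A L.b v.1) :
    Adj (poly L.A L.b) v.1 (nbV L v i).1 :=
  adj_of_tight v.2 (L.simple _ v.2) (nbV L v i).2 (nb_spec L v i hi).1 hi (erase_sub_nb L v i hi)

lemma nb_of_adj (v : Vert L) (w : Fin d → ℝ) (h : Adj (poly L.A L.b) v.1 w) :
    ∃ i ∈ tight L.A L.b v.1, (nbV L v i).1 = w := by
  obtain ⟨i, hi, hsub⟩ := tight_of_adj (L.simple _ v.2) h
  exact ⟨i, hi, congrArg Subtype.val (nb_eq L v ⟨w, h.2.1⟩ i hi h.2.2.1.symm hsub)⟩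

lemma nb_inj (v : Vert L) {i j : Fin n} (hi : i ∈ tight L.A L.b v.1) (hj : j ∈ tight L.A L.b v.1)
    (h : nbV L v i = nbV L v j) : i = j := by
  by_contra hne
  have h1 : i ∈ tight L.A L.b (nbV L v j).1 :=
    erase_sub_nb L v j hj (Finset.mem_erase.mpr ⟨hne, hi⟩)
  rw [← h, (nb_spec L v i hi).2.2, Finset.mem_insert] at h1
  rcases h1 with h1 | h1
  · exact (nb_spec L v i hi).2.1 (h1 ▸ hi)
  · exact absurd rfl (Finset.mem_erase.mp h1).1

open Classical in
/-- facets dropped along improving edges -/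
noncomputable def outV (v : Vert L) : Finset (Fin n) :=
  (tight L.A L.b v.1).filter fun i => L.c ⬝ᵥ v.1 < L.c ⬝ᵥ (nbV L v i).1

lemma mem_outV {v : Vert L} {i : Fin n} : i ∈ outV L v ↔
    i ∈ tight L.A L.b v.1 ∧ L.c ⬝ᵥ v.1 < L.c ⬝ᵥ (nbV L v i).1 := by
  classical
  simp [outV]

/-- directions of the edges at `v` with the sign of their objective change -/
lemma exists_dirs (v : Vert L) : ∃ u : Fin n → Fin d → ℝ,
    (∀ i ∈ tight L.A L.b v.1, L.A i ⬝ᵥ u i = -1 ∧
      ∀ l ∈ (tight L.A L.b v.1).erase i, L.A l ⬝ᵥ u i = 0) ∧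
    (∀ i ∈ outV L v, 0 < L.c ⬝ᵥ u i) ∧
    (∀ i ∈ tight L.A L.b v.1, i ∉ outV L v → L.c ⬝ᵥ u i < 0) := by
  classical
  have hc := L.simple _ v.2
  have h1 : ∀ i, ∃ u : Fin d → ℝ, i ∈ tight L.A L.b v.1 → L.A i ⬝ᵥ u = -1 ∧
      ∀ l ∈ (tight L.A L.b v.1).erase i, L.A l ⬝ᵥ u = 0 := by
    intro i
    by_cases hi : i ∈ tight L.A L.b v.1
    · obtain ⟨u, hu⟩ := exists_dir v.2 hc hi
      exact ⟨u, fun _ => hu⟩
    · exact ⟨0, fun h => absurd h hi⟩
  choose u hu using h1
  have hline : ∀ i ∈ tight L.A L.b v.1, ∃ s : ℝ, 0 < s ∧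
      L.c ⬝ᵥ (nbV L v i).1 = L.c ⬝ᵥ v.1 + s * (L.c ⬝ᵥ u i) := by
    intro i hi
    obtain ⟨s, hs, hs'⟩ := on_line v.2 hi (hu i hi).1 (hu i hi).2 (nbV L v i).2.1
      (erase_sub_nb L v i hi)
    refine ⟨s, lt_of_le_of_ne hs fun h0 => (nb_spec L v i hi).1 (by rw [hs', ← h0]; simp), ?_⟩
    rw [hs', dotProduct_add, dotProduct_smul, smul_eq_mul]
  refine ⟨u, hu, ?_, ?_⟩
  · intro i hi
    rw [mem_outV] at hi
    obtain ⟨s, hs, hs'⟩ := hline i hi.1
    have h2 := hi.2
    rw [hs'] at h2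
    by_contra hcon
    nlinarith [not_lt.mp hcon]
  · intro i hi hout
    obtain ⟨s, hs, hs'⟩ := hline i hi
    have hne := L.generic _ _ (adj_nb L v i hi)
    have h2 : L.c ⬝ᵥ (nbV L v i).1 < L.c ⬝ᵥ v.1 := by
      refine lt_of_le_of_ne ?_ hne.symm
      by_contra hcon
      exact hout ((mem_outV L).mpr ⟨hi, not_le.mp hcon⟩)
    rw [hs'] at h2
    by_contra hcon
    nlinarith [not_lt.mp hcon]

/-- `v` is the unique maximiser on the face given by its out-facets. -/
lemma max_face (v w : Vert L) (h : outV L v ⊆ tight L.A L.b w.1)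
    (hle : L.c ⬝ᵥ v.1 ≤ L.c ⬝ᵥ w.1) : v = w := by
  classical
  obtain ⟨u, hu, -, hneg⟩ := exists_dirs L v
  have h1 := cone (x := w.1) v.2 u hu
  have h2 : L.c ⬝ᵥ (w.1 - v.1) = ∑ i ∈ tight L.A L.b v.1, (L.b i - L.A i ⬝ᵥ w.1) * (L.c ⬝ᵥ u i) := by
    rw [h1, dotProduct_sum]
    refine Finset.sum_congr rfl fun i _ => ?_
    rw [dotProduct_smul, smul_eq_mul]
  have hnn : ∀ i ∈ tight L.A L.b v.1, (L.b i - L.A i ⬝ᵥ w.1) * (L.c ⬝ᵥ u i) ≤ 0 := by
    intro i hi
    by_cases ho : i ∈ outV L v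
    · rw [mem_tight.mp (h ho), sub_self, zero_mul]
    · exact mul_nonpos_of_nonneg_of_nonpos (sub_nonneg.mpr (w.2.1 i)) (hneg i hi ho).le
  have h3 : ∑ i ∈ tight L.A L.b v.1, (L.b i - L.A i ⬝ᵥ w.1) * (L.c ⬝ᵥ u i) = 0 := by
    apply le_antisymm (Finset.sum_nonpos hnn)
    rw [← h2, dotProduct_sub]
    linarith
  rw [Finset.sum_eq_zero_iff_of_nonpos hnn] at h3
  symm
  apply Subtype.ext
  apply eq_of_tight v.2
  intro i hi
  by_cases ho : i ∈ outV L v
  · exact h ho
  · have h4 := (mul_eq_zero.mp (h3 i hi)).resolve_right (hneg i hi ho).ne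
    exact mem_tight.mpr (by linarith)

/-- The system of an instance. -/
noncomputable def sysOf (L : LPInstance d n) : Sys (Fin n) (Vert L) where
  k := n - d
  bas v := (tight L.A L.b v.1)ᶜ
  val v := L.c ⬝ᵥ v.1
  viol v := outV L v
  stp v g := if g ∈ outV L v then nbV L v g else v
  card_le v := by
    rw [Finset.card_compl, Fintype.card_fin, L.simple _ v.2]
  stp_self v g h := if_neg h
  not_mem v g h := by
    rw [Finset.mem_compl, not_not]
    exact ((mem_outV L).mp h).1
  mem_stp v g h := by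
    rw [if_pos h, Finset.mem_compl]
    have h1 := ((mem_outV L).mp h).1
    have h2 := nb_spec L v g h1
    rw [h2.2.2, Finset.mem_insert, not_or]
    refine ⟨?_, fun h3 => absurd rfl (Finset.mem_erase.mp h3).1⟩
    intro h3
    exact h2.2.1 (h3 ▸ h1)
  stp_sub v g := by
    by_cases h : g ∈ outV L v
    · rw [if_pos h]
      have h1 := ((mem_outV L).mp h).1
      intro a ha
      rw [Finset.mem_compl] at ha
      rw [Finset.mem_insert, Finset.mem_compl]
      by_contra hcon
      rw [not_or, not_not] at hcon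
      exact ha (erase_sub_nb L v g h1 (Finset.mem_erase.mpr hcon))
    · rw [if_neg h]
      exact Finset.subset_insert _ _
  val_lt v g h := by
    rw [if_pos h]
    exact ((mem_outV L).mp h).2
  loc v w h := by
    by_contra hcon
    rw [not_le] at hcon
    have h1 : outV L v ⊆ tight L.A L.b w.1 := by
      intro i hi
      by_contra h2
      exact Finset.disjoint_left.mp h (Finset.mem_compl.mpr h2) hi
    have h2 := max_face L v w h1 hcon.le
    rw [h2] at hcon
    exact lt_irrefl _ hcon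

lemma improving_eq (v : Vert L) :
    L.improving v.1 = (fun i => (nbV L v i).1) '' (outV L v : Set (Fin n)) := by
  ext w
  constructor
  · rintro ⟨h1, h2⟩
    obtain ⟨i, hi, rfl⟩ := nb_of_adj L v w h1
    exact ⟨i, (mem_outV L).mpr ⟨hi, h2⟩, rfl⟩
  · rintro ⟨i, hi, rfl⟩
    have := (mem_outV L).mp hi
    exact ⟨adj_nb L v i this.1, this.2⟩

lemma ncard_improving (v : Vert L) : (L.improving v.1).ncard = (outV L v).card := by
  rw [improving_eq, Set.InjOn.ncard_image, Set.ncard_coe_finset]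
  intro i hi j hj h
  exact nb_inj L v ((mem_outV L).mp hi).1 ((mem_outV L).mp hj).1 (Subtype.ext h)

lemma walk_eq_zero (t : ℕ) (w : Fin d → ℝ) (hw : w ∉ (poly L.A L.b).extremePoints ℝ) :
    L.walk t w = 0 := by
  classical
  cases t with
  | zero =>
    unfold LPInstance.walk
    rw [if_neg]
    rintro rfl
    exact hw L.start
  | succ t =>
    unfold LPInstance.walk
    rw [ENNReal.tsum_eq_zero]
    intro v
    have : L.stepProb v w = 0 := by
      unfold LPInstance.stepProb
      rw [if_neg]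
      intro h
      exact hw h.1.2.1
    rw [this, mul_zero]

lemma tsum_vert (f : (Fin d → ℝ) → ℝ≥0∞)
    (hf : ∀ w, w ∉ (poly L.A L.b).extremePoints ℝ → f w = 0) :
    ∑' w, f w = ∑ v : Vert L, f v.1 := by
  rw [← tsum_fintype (L := SummationFilter.unconditional _)]
  symm
  apply tsum_subtype_eq_of_support_subset (f := f) (s := (poly L.A L.b).extremePoints ℝ)
  intro w hw
  by_contra hcon
  exact hw (hf w hcon)

/-- The sum over the improving neighbours. -/
lemma sum_step (v : Vert L) (F : Vert L → ℝ≥0∞) :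
    ∑ w : Vert L, L.stepProb v.1 w.1 * F w =
      ∑ g ∈ outV L v, ((outV L v).card : ℝ≥0∞)⁻¹ * F (nbV L v g) := by
  classical
  have h1 : ∀ w : Vert L, L.stepProb v.1 w.1 * F w =
      if w ∈ (outV L v).image (nbV L v) then ((outV L v).card : ℝ≥0∞)⁻¹ * F w else 0 := by
    intro w
    unfold LPInstance.stepProb
    rw [ncard_improving]
    have h2 : w.1 ∈ L.improving v.1 ↔ w ∈ (outV L v).image (nbV L v) := by
      rw [improving_eq, Set.mem_image, Finset.mem_image]
      constructor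
      · rintro ⟨i, hi, h⟩
        exact ⟨i, hi, Subtype.ext h⟩
      · rintro ⟨i, hi, h⟩
        exact ⟨i, hi, congrArg Subtype.val h⟩
    by_cases h : w.1 ∈ L.improving v.1
    · rw [if_pos h, if_pos (h2.mp h)]
    · rw [if_neg h, if_neg (fun h' => h (h2.mpr h')), zero_mul]
  rw [Finset.sum_congr rfl fun w _ => h1 w, ← Finset.sum_filter, Finset.filter_mem_eq_inter,
    Finset.univ_inter, Finset.sum_image]
  intro i hi j hj h
  exact nb_inj L v ((mem_outV L).mp hi).1 ((mem_outV L).mp hj).1 h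

/-- A supersolution bounds the expected number of steps. -/
lemma expectedSteps_le_of_super (φ : Vert L → ℝ≥0∞)
    (h : ∀ v : Vert L, ∑ w : Vert L, L.stepProb v.1 w.1 * (1 + φ w) ≤ φ v) :
    L.expectedSteps ≤ φ ⟨L.v₀, L.start⟩ := by
  classical
  have hstep : ∀ t : ℕ, ∀ F : Vert L → ℝ≥0∞, ∑ w : Vert L, L.walk (t + 1) w.1 * F w =
      ∑ v : Vert L, L.walk t v.1 * ∑ w : Vert L, L.stepProb v.1 w.1 * F w := by
    intro t F
    have h1 : ∀ w : Vert L, L.walk (t + 1) w.1 = ∑ v : Vert L, L.walk t v.1 * L.stepProb v.1 w.1 := by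
      intro w
      rw [LPInstance.walk]
      apply tsum_vert L (fun v => L.walk t v * L.stepProb v w.1)
      intro v hv
      rw [walk_eq_zero L t v hv, zero_mul]
    simp only [h1, Finset.sum_mul, Finset.mul_sum]
    rw [Finset.sum_comm]
    refine Finset.sum_congr rfl fun v _ => Finset.sum_congr rfl fun w _ => ?_
    rw [mul_assoc]
  have key : ∀ T : ℕ, ∑ t ∈ Finset.range T, ∑ w : Vert L, L.walk (t + 1) w.1 +
      ∑ w : Vert L, L.walk T w.1 * φ w ≤ φ ⟨L.v₀, L.start⟩ := by
    intro T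
    induction T with
    | zero =>
      rw [Finset.sum_range_zero, zero_add]
      rw [Finset.sum_eq_single (⟨L.v₀, L.start⟩ : Vert L)]
      · rw [LPInstance.walk]
        simp
      · intro w _ hw
        rw [LPInstance.walk, if_neg, zero_mul]
        intro h0
        exact hw (Subtype.ext h0)
      · intro h0; exact absurd (Finset.mem_univ _) h0
    | succ T ih =>
      refine le_trans ?_ ih
      rw [Finset.sum_range_succ, add_assoc]
      gcongr
      have h1 : ∑ w : Vert L, L.walk (T + 1) w.1 + ∑ w : Vert L, L.walk (T + 1) w.1 * φ w =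
          ∑ w : Vert L, L.walk (T + 1) w.1 * (1 + φ w) := by
        rw [← Finset.sum_add_distrib]
        refine Finset.sum_congr rfl fun w _ => ?_
        rw [mul_add, mul_one]
      rw [h1, hstep]
      refine Finset.sum_le_sum fun v _ => ?_
      gcongr
      exact h v
  unfold LPInstance.expectedSteps
  have h2 : ∀ t, ∑' w, L.walk (t + 1) w = ∑ w : Vert L, L.walk (t + 1) w.1 := fun t =>
    tsum_vert L (fun w => L.walk (t + 1) w) fun w hw => walk_eq_zero L (t + 1) w hw
  simp only [h2]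
  rw [ENNReal.tsum_eq_iSup_nat]
  exact iSup_le fun T => le_self_add.trans (key T)

/-- **Bound for an instance.** -/
theorem expectedSteps_le {J : ℕ} (hJ : n < 2 ^ J) (hJ1 : 1 ≤ J) :
    L.expectedSteps ≤ ENNReal.ofReal (Sys.cG (n - d) * (J : ℝ) ^ (n - d)) := by
  classical
  obtain ⟨φ, hφ0, hφ1, hφ2⟩ := (sysOf L).exists_sol (J := J) (by rwa [Fintype.card_fin]) hJ1
  have hk : (sysOf L).k = n - d := rfl
  rw [hk] at hφ1
  refine (expectedSteps_le_of_super L (fun v => ENNReal.ofReal (φ v)) ?_).trans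
    (ENNReal.ofReal_le_ofReal (hφ1 _))
  intro v
  rw [sum_step]
  have hv := hφ2 v
  have hv1 : (sysOf L).viol v = outV L v := rfl
  rw [hv1] at hv
  have hv2 : ∑ g ∈ outV L v, φ ((sysOf L).stp v g) = ∑ g ∈ outV L v, φ (nbV L v g) := by
    refine Finset.sum_congr rfl fun g hg => ?_
    have : (sysOf L).stp v g = nbV L v g := if_pos hg
    rw [this]
  rw [hv2] at hv
  rcases Finset.eq_empty_or_nonempty (outV L v) with h0 | h0
  · rw [h0]
    simp
  · have hc : (0 : ℝ) < (outV L v).card := by exact_mod_cast Finset.card_pos.mpr h0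
    have h1 : ∀ g ∈ outV L v, ((outV L v).card : ℝ≥0∞)⁻¹ * (1 + ENNReal.ofReal (φ (nbV L v g))) =
        ENNReal.ofReal (((outV L v).card : ℝ)⁻¹ * (1 + φ (nbV L v g))) := by
      intro g _
      rw [ENNReal.ofReal_mul (by positivity), ENNReal.ofReal_inv_of_pos hc,
        ENNReal.ofReal_natCast, ENNReal.ofReal_add zero_le_one (hφ0 _), ENNReal.ofReal_one]
    rw [Finset.sum_congr rfl h1, ← ENNReal.ofReal_sum_of_nonneg]
    · apply ENNReal.ofReal_le_ofReal
      rw [← Finset.mul_sum, Finset.sum_add_distrib, Finset.sum_const, nsmul_eq_mul, mul_one, ← hv]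
      rw [← mul_assoc, inv_mul_cancel₀ hc.ne', one_mul]
    · intro g _
      have := hφ0 (nbV L v g)
      positivity

end Pool.Agent.FewFacets
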