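import Pool.Agent.FewFacets.Joint

/-!
# Abstract systems with few free elements
-/

namespace Pool.Agent.FewFacets

/-- The combinatorial structure of a simple polytope with `k` more facets than its dimension:
a state (vertex) has the set `bas` of the facets not containing it, at most `k` in number; `viol`
is the set of facets that can be left along an improving edge. -/
structure Sys (α σ : Type) [DecidableEq α] where
  /-- bound for the number of basis elements -/
  k : ℕ
  /-- basis of a state -/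
  bas : σ → Finset α
  /-- value of a state -/
  val : σ → ℝ
  /-- violating elements -/
  viol : σ → Finset α
  /-- the next state after a ring -/
  stp : σ → α → σ
  card_le : ∀ B, (bas B).card ≤ k
  stp_self : ∀ B g, g ∉ viol B → stp B g = B
  not_mem : ∀ B, ∀ g ∈ viol B, g ∉ bas B
  mem_stp : ∀ B, ∀ g ∈ viol B, g ∈ bas (stp B g)
  stp_sub : ∀ B g, bas (stp B g) ⊆ insert g (bas B)
  val_lt : ∀ B, ∀ g ∈ viol B, val B < val (stp B g)
  loc : ∀ B B', Disjoint (bas B') (viol B) → val B' ≤ val B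

namespace Sys

variable {α σ : Type} [DecidableEq α] (S : Sys α σ)

lemma val_le (B : σ) (g : α) : S.val B ≤ S.val (S.stp B g) := by
  by_cases h : g ∈ S.viol B
  · exact (S.val_lt B g h).le
  · rw [S.stp_self B g h]

/-- The set `H` is held and the level is at most `c`. -/
def al (H : Finset α) (c : ℝ) (B : σ) : Prop := H ⊆ S.bas B ∧ S.val B ≤ c

/-- Without `Z` no state above the level `c` is available. -/
def Hit (H G : Finset α) (c : ℝ) (Z : Finset α) : Prop :=
  Z ⊆ G ∧ ∀ B, S.bas B ⊆ H ∪ (G \ Z) → S.val B ≤ c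

/-- Robustness. -/
def Rob (H G : Finset α) (s c : ℝ) : Prop := ∀ Z, S.Hit H G c Z → s ≤ Z.card

variable {S}

lemma Rob.mono_c {H G : Finset α} {s c c' : ℝ} (h : S.Rob H G s c) (hc : c' ≤ c) :
    S.Rob H G s c' := fun Z hZ => h Z ⟨hZ.1, fun B hB => (hZ.2 B hB).trans hc⟩

lemma Rob.mono_H {H H' G : Finset α} {s c : ℝ} (h : S.Rob H G s c) (hH : H ⊆ H') :
    S.Rob H' G s c := fun Z hZ =>
  h Z ⟨hZ.1, fun B hB => hZ.2 B (hB.trans (Finset.union_subset_union_left hH))⟩

lemma Rob.sdiff {H G Z : Finset α} {s c : ℝ} (h : S.Rob H G s c) (hZ : Z ⊆ G) :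
    S.Rob H (G \ Z) (s - Z.card) c := by
  intro Z' hZ'
  have h1 : S.Hit H G c (Z ∪ Z') := by
    refine ⟨Finset.union_subset hZ (hZ'.1.trans Finset.sdiff_subset), fun B hB => ?_⟩
    apply hZ'.2
    refine hB.trans (Finset.union_subset_union_right ?_)
    intro a ha
    simp only [Finset.mem_sdiff, Finset.mem_union, not_or] at ha ⊢
    exact ⟨⟨ha.1, ha.2.1⟩, ha.2.2⟩
  have h2 := h _ h1
  have h3 : ((Z ∪ Z').card : ℝ) ≤ Z.card + Z'.card := by
    exact_mod_cast Finset.card_union_le Z Z'
  linarith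

/-- The violating elements form a hitting set. -/
lemma hit_viol {H G : Finset α} {B : σ} (hH : H ⊆ S.bas B) :
    S.Hit H G (S.val B) (S.viol B ∩ G) := by
  refine ⟨Finset.inter_subset_right, fun B' hB' => S.loc B B' ?_⟩
  rw [Finset.disjoint_left]
  intro a ha hv
  have h1 := hB' ha
  simp only [Finset.mem_union, Finset.mem_sdiff, Finset.mem_inter, not_and] at h1
  rcases h1 with h1 | h1
  · exact S.not_mem B a hv (hH h1)
  · exact h1.2 hv h1.1

lemma rob_viol {H G : Finset α} {s c : ℝ} {B : σ} (h : S.Rob H G s c) (hB : S.al H c B) :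
    s ≤ (S.viol B ∩ G).card :=
  (h.mono_c hB.2) _ (hit_viol hB.1)

variable {N : ℝ} {G : Finset α}

/-- Geometric life: every accepted ring kills. -/
lemma acc_one {p : σ → Prop} {H : Finset α} {s c : ℝ} (hN : 0 < N) (hG : (G.card : ℝ) ≤ N)
    (hs : 0 < s) (hrob : S.Rob H G s c) (B : σ) (hB : S.al H c B)
    (hk : ∀ g ∈ S.viol B, ¬ p (S.stp B g)) (T : ℕ) :
    acc S.stp G N p (fun _ => 1) T B ≤ N / s := by
  apply acc_geom hN hG B (S.viol B ∩ G) Finset.inter_subset_right
  · intro g hg
    exact hk g (Finset.mem_inter.mp hg).1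
  · intro g hg hv
    exact S.stp_self B g fun h => hv (Finset.mem_inter.mpr ⟨h, hg⟩)
  · positivity
  · have := rob_viol hrob hB
    rw [one_mul, mul_div_assoc', le_div_iff₀ hs]
    nlinarith

/-- Geometric count: every accepted ring kills. -/
lemma acc_viol {p : σ → Prop} (hN : 0 < N) (hG : (G.card : ℝ) ≤ N) (B : σ)
    (hv : S.viol B ⊆ G) (hk : ∀ g ∈ S.viol B, ¬ p (S.stp B g)) (T : ℕ) :
    acc S.stp G N p (fun B => (S.viol B).card / N) T B ≤ 1 := by
  apply acc_geom hN hG B (S.viol B) hv hk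
  · intro g _ h
    exact S.stp_self B g h
  · exact zero_le_one
  · rw [div_mul_cancel₀ _ hN.ne', mul_one]

end Sys

end Pool.Agent.FewFacets
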